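import Pool.Agent.Lib.MP_e3aa0a_gt.FLG.Defs83

/-!
# MP_e3aa0a_gt: lengths in free groups (row A of FLG, helper88)

`Ad x y`: the word lengths of `x` and `y` add in `x * y`. `Rd L`: the product of the list `L` is a
reduced concatenation. Suffixes of one reduced word, replacement of a factor, tripods.
-/

namespace Pool.Agent.Lib.MP_e3aa0a_gt.FLG.A88

open FreeGroup hiding norm norm_one

variable {α : Type*} [DecidableEq α]

/-- The word lengths of `x` and `y` add in `x * y`. -/
def Ad (x y : FreeGroup α) : Prop := (x * y).norm = x.norm + y.norm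

theorem Ad.toWord {x y : FreeGroup α} (h : Ad x y) : (x * y).toWord = x.toWord ++ y.toWord := by
  have h1 : (x * y).toWord.Sublist (x.toWord ++ y.toWord) := by
    rw [toWord_mul]
    exact reduce.red.sublist
  refine h1.eq_of_length ?_
  rw [List.length_append]
  exact h

theorem ad_of_word {x y : FreeGroup α} (h : (x * y).toWord = x.toWord ++ y.toWord) : Ad x y := by
  have h1 := congrArg List.length h
  rw [List.length_append] at h1
  exact h1

theorem ad_iff {x y : FreeGroup α} : Ad x y ↔ IsReduced (x.toWord ++ y.toWord) := by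
  constructor
  · intro h
    rw [← h.toWord]
    exact isReduced_toWord
  · intro h
    refine ad_of_word ?_
    rw [toWord_mul]
    exact h.reduce_eq

theorem Ad.one_left (x : FreeGroup α) : Ad 1 x := by
  unfold Ad
  rw [one_mul, FreeGroup.norm_one, zero_add]

theorem Ad.one_right (x : FreeGroup α) : Ad x 1 := by
  unfold Ad
  rw [mul_one, FreeGroup.norm_one, add_zero]

theorem Ad.inv {x y : FreeGroup α} (h : Ad x y) : Ad y⁻¹ x⁻¹ := by
  unfold Ad at h ⊢
  rw [← mul_inv_rev, norm_inv_eq, norm_inv_eq, norm_inv_eq, h, add_comm]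

theorem toWord_mk_of {w : List (α × Bool)} (hw : IsReduced w) : (mk w).toWord = w := by
  rw [toWord_mk, hw.reduce_eq]

theorem norm_mk_of {w : List (α × Bool)} (hw : IsReduced w) : (mk w).norm = w.length := by
  unfold FreeGroup.norm
  rw [toWord_mk_of hw]

/-! ### Reduced concatenations -/

/-- The product of `L` is a reduced concatenation. -/
def Rd (L : List (FreeGroup α)) : Prop := L.prod.norm = (L.map FreeGroup.norm).sum

theorem norm_prod_le (L : List (FreeGroup α)) : L.prod.norm ≤ (L.map FreeGroup.norm).sum := by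
  induction L with
  | nil => simp
  | cons x L ih =>
    rw [List.prod_cons, List.map_cons, List.sum_cons]
    have := norm_mul_le x L.prod
    omega

theorem rd_nil : Rd ([] : List (FreeGroup α)) := by
  simp [Rd]

theorem rd_singleton (x : FreeGroup α) : Rd [x] := by
  simp [Rd]

theorem rd_pair {x y : FreeGroup α} : Rd [x, y] ↔ Ad x y := by
  simp [Rd, Ad]

theorem rd_append {L M : List (FreeGroup α)} :
    Rd (L ++ M) ↔ Rd L ∧ Rd M ∧ Ad L.prod M.prod := by
  unfold Rd Ad
  rw [List.prod_append, List.map_append, List.sum_append]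
  have h1 := norm_mul_le L.prod M.prod
  have h2 := norm_prod_le L
  have h3 := norm_prod_le M
  constructor
  · intro h
    omega
  · rintro ⟨h4, h5, h6⟩
    omega

theorem rd_cons {x : FreeGroup α} {M : List (FreeGroup α)} :
    Rd (x :: M) ↔ Rd M ∧ Ad x M.prod := by
  have h : x :: M = [x] ++ M := rfl
  rw [h, rd_append, List.prod_singleton]
  simp [rd_singleton]

theorem Rd.left {L M : List (FreeGroup α)} (h : Rd (L ++ M)) : Rd L := (rd_append.1 h).1

theorem Rd.right {L M : List (FreeGroup α)} (h : Rd (L ++ M)) : Rd M := (rd_append.1 h).2.1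

/-- sublists of consecutive factors -/
theorem Rd.run {L M : List (FreeGroup α)} (h : Rd L) (hM : M <:+: L) : Rd M := by
  obtain ⟨A, B, rfl⟩ := hM
  exact h.left.right

theorem Rd.norm_run {L M : List (FreeGroup α)} (h : Rd L) (hM : M <:+: L) :
    M.prod.norm = (M.map FreeGroup.norm).sum := h.run hM

theorem Rd.toWord {L : List (FreeGroup α)} (h : Rd L) :
    L.prod.toWord = (L.map toWord).flatten := by
  induction L with
  | nil => simp
  | cons x L ih =>
    obtain ⟨h1, h2⟩ := rd_cons.1 h
    rw [List.prod_cons, h2.toWord, ih h1, List.map_cons, List.flatten_cons]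

/-- the same product and the same sum of norms -/
theorem Rd.congr {L M : List (FreeGroup α)} (h : Rd L) (h1 : L.prod = M.prod)
    (h2 : (L.map FreeGroup.norm).sum = (M.map FreeGroup.norm).sum) : Rd M := by
  unfold Rd at h ⊢
  rw [← h1, ← h2]
  exact h

theorem Rd.inv {L : List (FreeGroup α)} (h : Rd L) : Rd (L.map (·⁻¹)).reverse := by
  unfold Rd at h ⊢
  rw [← List.prod_inv_reverse, norm_inv_eq, h, List.map_reverse, List.sum_reverse, List.map_map]
  congr 1
  refine List.map_congr_left fun x _ => ?_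
  simp

/-- factors that are `1` can be erased and inserted -/
theorem rd_one {P S : List (FreeGroup α)} : Rd (P ++ 1 :: S) ↔ Rd (P ++ S) := by
  unfold Rd
  simp

/-- replacement of a factor `z * y` by two factors -/
theorem Rd.split {P S : List (FreeGroup α)} {x z y : FreeGroup α} (h : Rd (P ++ x :: S))
    (hx : x = z * y) (ha : Ad z y) : Rd (P ++ z :: y :: S) := by
  refine h.congr ?_ ?_
  · rw [hx]
    simp [mul_assoc]
  · rw [hx]
    unfold Ad at ha
    simp [ha, add_assoc]

/-- the inverse of the split factor -/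
theorem Rd.split_inv {P S : List (FreeGroup α)} {x z y : FreeGroup α} (h : Rd (P ++ x⁻¹ :: S))
    (hx : x = z * y) (ha : Ad z y) : Rd (P ++ y⁻¹ :: z⁻¹ :: S) :=
  h.split (by rw [hx, mul_inv_rev]) ha.inv

/-! ### Suffixes of one reduced word -/

theorem suffix_word {a x b y : FreeGroup α} (h : a * x = b * y) (h1 : Ad a x) (h2 : Ad b y)
    (hle : y.norm ≤ x.norm) : y.toWord <:+ x.toWord := by
  have h3 : a.toWord ++ x.toWord = b.toWord ++ y.toWord := by
    rw [← h1.toWord, ← h2.toWord, h]
  refine List.suffix_of_suffix_length_le (l₃ := a.toWord ++ x.toWord) ?_ ?_ hle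
  · rw [h3]
    exact List.suffix_append _ _
  · exact List.suffix_append _ _

theorem ad_of_suffix {x y : FreeGroup α} (h : y.toWord <:+ x.toWord) : Ad (x * y⁻¹) y := by
  obtain ⟨w, hw⟩ := h
  have h1 : IsReduced (w ++ y.toWord) := by
    rw [hw]
    exact isReduced_toWord
  have h2 : IsReduced w := List.IsChain.left_of_append h1
  have h3 : x = mk w * y := by
    have h4 : mk x.toWord = x := mk_toWord
    rw [← h4, ← hw, ← mul_mk, mk_toWord]
  have h5 : x * y⁻¹ = mk w := by
    rw [h3]
    group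
  rw [h5, ad_iff, toWord_mk_of h2]
  exact h1

/-- The longer one of two suffixes ends with the shorter one. -/
theorem ad_suffix {a x b y : FreeGroup α} (h : a * x = b * y) (h1 : Ad a x) (h2 : Ad b y)
    (hle : y.norm ≤ x.norm) : Ad (x * y⁻¹) y := ad_of_suffix (suffix_word h h1 h2 hle)

theorem norm_suffix {a x b y : FreeGroup α} (h : a * x = b * y) (h1 : Ad a x) (h2 : Ad b y)
    (hle : y.norm ≤ x.norm) : (x * y⁻¹).norm + y.norm = x.norm := by
  have h3 := ad_suffix h h1 h2 hle
  unfold Ad at h3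
  rw [inv_mul_cancel_right] at h3
  exact h3.symm

theorem eq_suffix {a x b y : FreeGroup α} (h : a * x = b * y) (h1 : Ad a x) (h2 : Ad b y)
    (heq : x.norm = y.norm) : x = y := by
  have h3 := norm_suffix h h1 h2 heq.ge
  have h4 : (x * y⁻¹).norm = 0 := by omega
  rw [FreeGroup.norm_eq_zero] at h4
  exact mul_inv_eq_one.1 h4

/-- two reduced concatenations of one element: their last factors -/
theorem rd_last {P Q : List (FreeGroup α)} {x y : FreeGroup α} (hP : Rd (P ++ [x]))
    (hQ : Rd (Q ++ [y])) (h : (P ++ [x]).prod = (Q ++ [y]).prod) :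
    (y.norm ≤ x.norm → Ad (x * y⁻¹) y ∧ (x * y⁻¹).norm + y.norm = x.norm) ∧
      (x.norm = y.norm → x = y) := by
  have h1 : P.prod * x = Q.prod * y := by simpa using h
  have h2 : Ad P.prod x := by simpa using (rd_append.1 hP).2.2
  have h3 : Ad Q.prod y := by simpa using (rd_append.1 hQ).2.2
  exact ⟨fun h4 => ⟨ad_suffix h1 h2 h3 h4, norm_suffix h1 h2 h3 h4⟩, eq_suffix h1 h2 h3⟩

/-- two reduced concatenations of one element: their first factors -/
theorem rd_head {P Q : List (FreeGroup α)} {x y : FreeGroup α} (hP : Rd (x :: P))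
    (hQ : Rd (y :: Q)) (h : (x :: P).prod = (y :: Q).prod) :
    (y.norm ≤ x.norm → Ad y (y⁻¹ * x) ∧ (y⁻¹ * x).norm + y.norm = x.norm) ∧
      (x.norm = y.norm → x = y) := by
  have h1 : P.prod⁻¹ * x⁻¹ = Q.prod⁻¹ * y⁻¹ := by
    rw [← mul_inv_rev, ← mul_inv_rev, inv_inj]
    simpa using h
  have h2 : Ad P.prod⁻¹ x⁻¹ := (rd_cons.1 hP).2.inv
  have h3 : Ad Q.prod⁻¹ y⁻¹ := (rd_cons.1 hQ).2.inv
  have e : (x⁻¹ * y⁻¹⁻¹)⁻¹ = y⁻¹ * x := by group
  refine ⟨fun h4 => ?_, fun h4 => ?_⟩
  · have h5 : (y⁻¹).norm ≤ (x⁻¹).norm := by simpa using h4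
    have h6 := (ad_suffix h1 h2 h3 h5).inv
    have h7 := norm_suffix h1 h2 h3 h5
    rw [e, inv_inv] at h6
    rw [← norm_inv_eq (x := x⁻¹ * y⁻¹⁻¹), e, norm_inv_eq, norm_inv_eq] at h7
    exact ⟨h6, h7⟩
  · have h5 : (x⁻¹).norm = (y⁻¹).norm := by simpa using h4
    exact inv_injective (eq_suffix h1 h2 h3 h5)

/-! ### Tripods -/

theorem common_start {β : Type*} (u v : List β) : ∃ c p q : List β, u = c ++ p ∧ v = c ++ q ∧
    ∀ a ∈ p.head?, ∀ b ∈ q.head?, a ≠ b := by
  classical
  induction u generalizing v with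
  | nil => exact ⟨[], [], v, rfl, rfl, by simp⟩
  | cons a u ih =>
    cases v with
    | nil => exact ⟨[], a :: u, [], rfl, rfl, by simp⟩
    | cons b v =>
      by_cases hab : a = b
      · subst hab
        obtain ⟨c, p, q, h1, h2, h3⟩ := ih v
        exact ⟨a :: c, p, q, by rw [h1]; rfl, by rw [h2]; rfl, h3⟩
      · refine ⟨[], a :: u, b :: v, rfl, rfl, ?_⟩
        simp only [List.head?_cons, Option.mem_def, Option.some.injEq]
        rintro _ rfl _ rfl
        exact hab

/-- `g`, `h` and `g * h` are the sides of a tripod. -/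
theorem tripod (g h : FreeGroup α) : ∃ al ga be : FreeGroup α, g = al * ga ∧ h = ga⁻¹ * be ∧
    g * h = al * be ∧ Ad al ga ∧ Ad ga⁻¹ be ∧ Ad al be := by
  obtain ⟨c, p, q, h1, h2, h3⟩ := common_start (g⁻¹).toWord h.toWord
  have hc1 : IsReduced (c ++ p) := by
    rw [← h1]
    exact isReduced_toWord
  have hc2 : IsReduced (c ++ q) := by
    rw [← h2]
    exact isReduced_toWord
  have hc : IsReduced c := List.IsChain.left_of_append hc1
  have hp : IsReduced p := List.IsChain.right_of_append hc1
  have hq : IsReduced q := List.IsChain.right_of_append hc2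
  have e1 : g⁻¹ = mk c * mk p := by
    rw [mul_mk, ← h1, mk_toWord]
  have e2 : h = mk c * mk q := by
    rw [mul_mk, ← h2, mk_toWord]
  have e3 : g = (mk p)⁻¹ * (mk c)⁻¹ := by
    rw [← mul_inv_rev, ← e1, inv_inv]
  have a1 : Ad (mk c) (mk p) := by
    rw [ad_iff, toWord_mk_of hc, toWord_mk_of hp]
    exact hc1
  have a2 : Ad (mk c) (mk q) := by
    rw [ad_iff, toWord_mk_of hc, toWord_mk_of hq]
    exact hc2
  refine ⟨(mk p)⁻¹, (mk c)⁻¹, mk q, e3, ?_, ?_, a1.inv, ?_, ?_⟩
  · rw [inv_inv]
    exact e2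
  · rw [e3, e2]
    group
  · rw [inv_inv]
    exact a2
  · have hi : IsReduced (invRev p) := by
      have h4 : ((mk p)⁻¹).toWord = invRev p := by rw [toWord_inv, toWord_mk_of hp]
      rw [← h4]
      exact isReduced_toWord
    rw [ad_iff, toWord_inv, toWord_mk_of hp, toWord_mk_of hq]
    unfold FreeGroup.IsReduced
    rw [List.isChain_append]
    refine ⟨hi, hq, ?_⟩
    intro a ha b hb hab
    cases p with
    | nil => simp [invRev] at ha
    | cons s p =>
      have h5 : a = (s.1, !s.2) := by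
        simpa [invRev, eq_comm] using ha
      have h6 := h3 s (by simp) b hb
      subst h5
      rcases s with ⟨s1, s2⟩
      rcases b with ⟨b1, b2⟩
      simp only at hab
      subst hab
      cases s2 <;> cases b2 <;> simp_all

end Pool.Agent.Lib.MP_e3aa0a_gt.FLG.A88

namespace Pool.Agent.Lib.MP_e3aa0a_gt.FLG

open Pool.Agent.Lib.FVol

section rowA

variable {X : Type*} [DecidableEq X] {A : Type*}

theorem toWord_mul_of_norm_88 {u v : FreeGroup X} (h : (u * v).norm = u.norm + v.norm) :
    (u * v).toWord = u.toWord ++ v.toWord := A88.Ad.toWord h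

theorem suffix_norm_88 {p q x y : FreeGroup X} (h : p * x = q * y)
    (h1 : (p * x).norm = p.norm + x.norm) (h2 : (q * y).norm = q.norm + y.norm)
    (h3 : y.norm ≤ x.norm) : (x * y⁻¹).norm + y.norm = x.norm := A88.norm_suffix h h1 h2 h3

theorem slab_norm88 (lab : A → FreeGroup X) (z : A × Bool) :
    (slab lab z).norm = (lab z.1).norm := by
  unfold slab
  split_ifs
  · rfl
  · exact FreeGroup.norm_inv_eq

theorem tlen_eq88 (lab : A → FreeGroup X) (W : List (A × Bool)) :
    tlen lab W = ((W.map (slab lab)).map FreeGroup.norm).sum := by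
  unfold tlen
  rw [List.map_map]
  congr 1
  refine List.map_congr_left fun z _ => ?_
  exact (slab_norm88 lab z).symm

theorem rc_iff88 (lab : A → FreeGroup X) (W : List (A × Bool)) :
    RC lab W ↔ A88.Rd (W.map (slab lab)) := by
  unfold RC A88.Rd
  rw [tlen_eq88]
  rfl

theorem RC.append_88 {lab : A → FreeGroup X} {W W' : List (A × Bool)} (h : RC lab (W ++ W')) :
    RC lab W ∧ RC lab W' ∧
      (wpr lab W * wpr lab W').norm = (wpr lab W).norm + (wpr lab W').norm := by
  rw [rc_iff88, List.map_append, A88.rd_append] at h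
  exact ⟨(rc_iff88 _ _).2 h.1, (rc_iff88 _ _).2 h.2.1, h.2.2⟩

theorem RC.of_append_88 {lab : A → FreeGroup X} {W W' : List (A × Bool)} (h1 : RC lab W)
    (h2 : RC lab W')
    (h3 : (wpr lab W * wpr lab W').norm = (wpr lab W).norm + (wpr lab W').norm) :
    RC lab (W ++ W') := by
  rw [rc_iff88, List.map_append, A88.rd_append]
  exact ⟨(rc_iff88 _ _).1 h1, (rc_iff88 _ _).1 h2, h3⟩

/-- consecutive letters -/
theorem RC.run_88 {lab : A → FreeGroup X} {W W' : List (A × Bool)} (h : RC lab W)
    (hW : W' <:+: W) : RC lab W' := by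
  obtain ⟨P, Q, rfl⟩ := hW
  exact (RC.append_88 (RC.append_88 h).1).2.1

/-- tripods -/
theorem tripod_88 (g h : FreeGroup X) : ∃ α β γ : FreeGroup X, g = α * γ ∧ h = γ⁻¹ * β ∧
    g.norm = α.norm + γ.norm ∧ h.norm = γ.norm + β.norm ∧
    (g * h).norm = α.norm + β.norm := by
  obtain ⟨al, ga, be, h1, h2, h3, h4, h5, h6⟩ := A88.tripod g h
  unfold A88.Ad at h4 h5 h6
  refine ⟨al, be, ga, h1, h2, ?_, ?_, ?_⟩
  · rw [h1]
    exact h4
  · rw [h2, h5, FreeGroup.norm_inv_eq]
  · rw [h3]
    exact h6

end rowA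

end Pool.Agent.Lib.MP_e3aa0a_gt.FLG
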