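import Pool.Agent.Lib.MP_e3aa0a_gt.FLG.Defs83

/-!
# FLG, row C (helper32): merging two equal last letters
-/

set_option autoImplicit false

namespace Pool.Agent.Lib.MP_e3aa0a_gt.FLG

open Pool.Agent.Lib.FVol

section rowC

variable {A G : Type*} [DecidableEq A] [Group G]

theorem ren_self32 (x y : A × Bool) : ren x y y = x := by simp [ren]

theorem ren_sinv32 (x y : A × Bool) : ren x y (sinv y) = sinv x := by simp [ren, sinv_ne]

theorem ren_of_ne32 {x y z : A × Bool} (h : z ≠ y) (h' : z ≠ sinv y) : ren x y z = z := by
  simp [ren, h, h']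

theorem slab_ren32 {lab : A → G} {x y : A × Bool} (h : slab lab x = slab lab y) (z : A × Bool) :
    slab lab (ren x y z) = slab lab z := by
  by_cases h1 : z = y
  · subst h1
    rw [ren_self32, h]
  · by_cases h2 : z = sinv y
    · subst h2
      rw [ren_sinv32, slab_sinv, slab_sinv, h]
    · rw [ren_of_ne32 h1 h2]

theorem wpr_ren32 {lab : A → G} {x y : A × Bool} (h : slab lab x = slab lab y)
    (W : List (A × Bool)) : wpr lab (W.map (ren x y)) = wpr lab W := by
  induction W with
  | nil => rfl
  | cons z W ih => rw [List.map_cons, wpr_cons, wpr_cons, ih, slab_ren32 h]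

theorem fan_ren32 {lab : A → G} {x y : A × Bool} (h : slab lab x = slab lab y)
    (W : List (A × Bool)) : ∀ p : G, fan lab p W - fan lab p (W.map (ren x y)) =
      (occ (sinv y) W : ℤ) • (kap lab (sinv y) - kap lab (sinv x)) -
        (occ y W : ℤ) • (kap lab x - kap lab y) := by
  induction W with
  | nil => intro p; simp
  | cons z W ih =>
    intro p
    have h1 := ih (p * slab lab z)
    rw [List.map_cons, fan_cons, fan_cons, slab_ren32 h]
    have h2 : kap lab z - kap lab (ren x y z) =
        (if z = sinv y then (1 : ℤ) else 0) • (kap lab (sinv y) - kap lab (sinv x)) -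
          (if z = y then (1 : ℤ) else 0) • (kap lab x - kap lab y) := by
      by_cases e1 : z = y
      · subst e1
        rw [ren_self32]
        have : z ≠ sinv z := (sinv_ne z).symm
        simp [this]
      · by_cases e2 : z = sinv y
        · subst e2
          rw [ren_sinv32]
          simp [sinv_ne]
        · rw [ren_of_ne32 e1 e2]
          simp [e1, e2]
    have h3 : e2 p (slab lab z) + kap lab z + fan lab (p * slab lab z) W -
        (e2 p (slab lab z) + kap lab (ren x y z) +
          fan lab (p * slab lab z) (W.map (ren x y))) =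
        (kap lab z - kap lab (ren x y z)) + (fan lab (p * slab lab z) W -
          fan lab (p * slab lab z) (W.map (ren x y))) := by abel
    rw [h3, h2, h1, occ_cons, occ_cons]
    push_cast
    simp only [add_smul]
    abel

theorem fil_merge {lab : A → G} {x y : A × Bool} {W : Bool → List (A × Bool)} (hxy : y.1 ≠ x.1)
    (hs : Sch (fun σ => if σ then W true ++ [x] else W false ++ [y]))
    (hlab : slab lab x = slab lab y) (hw : wpr lab (W true) = wpr lab (W false)) :
    Fil 12 ((fan lab 1 (W true ++ [x]) - fan lab 1 (W false ++ [y])) -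
      (fan lab 1 ((W true).map (ren x y)) - fan lab 1 ((W false).map (ren x y)))) := by
  have hx1 : x ≠ y := fun e => hxy (by rw [e])
  have hx2 : x ≠ sinv y := fun e => hxy (by rw [e]; rfl)
  have hyy : y ≠ sinv y := (sinv_ne y).symm
  have two := hs.two y
  have sgn := hs.sgn y
  simp only [if_true, Bool.false_eq_true, if_false, occ_append, occ_cons, occ_nil, hx1, hx2,
    hyy] at two sgn
  push_cast at sgn
  -- the correction
  set ε : C2 G := kap lab (sinv y) - kap lab (sinv x) - (kap lab x - kap lab y) with hε
  have hfil : Fil 6 ε := by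
    have f1 := fil_q lab y
    have f2 := fil_q lab x
    rw [hlab] at f2
    refine (f1.sub f2).of_eq (by norm_num) ?_
    rw [hε]
    abel
  have r1 := fan_ren32 hlab (W true) 1
  have r2 := fan_ren32 hlab (W false) 1
  set n1 := occ (sinv y) (W true) with hn1
  set n2 := occ (sinv y) (W false) with hn2
  set m1 := occ y (W true) with hm1
  set m2 := occ y (W false) with hm2
  have hm : (m1 : ℤ) = n1 + m2 + 1 - n2 := by linarith
  have key : (fan lab 1 (W true ++ [x]) - fan lab 1 (W false ++ [y])) -
      (fan lab 1 ((W true).map (ren x y)) - fan lab 1 ((W false).map (ren x y))) =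
      ((n1 : ℤ) - n2) • ε := by
    rw [fan_append, fan_append, fan_cons, fan_cons, fan_nil, fan_nil, hw, hlab]
    have e1 : fan lab 1 (W true) + (e2 (1 * wpr lab (W false)) (slab lab y) + kap lab x + 0) -
        (fan lab 1 (W false) + (e2 (1 * wpr lab (W false)) (slab lab y) + kap lab y + 0)) -
        (fan lab 1 ((W true).map (ren x y)) - fan lab 1 ((W false).map (ren x y))) =
        (fan lab 1 (W true) - fan lab 1 ((W true).map (ren x y))) -
          (fan lab 1 (W false) - fan lab 1 ((W false).map (ren x y))) +
          (kap lab x - kap lab y) := by abel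
    rw [e1, r1, r2, hm, hε]
    module
  rw [key]
  have hle : n1 + n2 ≤ 1 := by omega
  have h12 : (6 : ℝ) ≤ 12 := by norm_num
  rcases Nat.eq_zero_or_pos n1 with h1 | h1
  · rcases Nat.eq_zero_or_pos n2 with h2 | h2
    · rw [h1, h2]
      simp only [Nat.cast_zero, sub_zero, zero_smul]
      exact Fil.zero' (by norm_num)
    · have h3 : n2 = 1 := by omega
      rw [h1, h3]
      refine hfil.neg.of_eq h12 ?_
      simp
  · have h3 : n1 = 1 := by omega
    have h4 : n2 = 0 := by omega
    rw [h3, h4]
    refine hfil.of_eq h12 ?_
    simp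

end rowC

end Pool.Agent.Lib.MP_e3aa0a_gt.FLG
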