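import Pool.Agent.Lib.MP_e3aa0a_gt.FLG.A88
import Pool.Agent.Lib.MP_e3aa0a_gt.FLG.C32

/-!
# FLG, row B (helper83): the Rauzy step keeps the reduced blocks
-/

set_option autoImplicit false

namespace Pool.Agent.Lib.MP_e3aa0a_gt.FLG

open Pool.Agent.Lib.FVol

section basics

variable {X : Type*} [DecidableEq X] {A : Type*}

@[simp] theorem tlen_nil (lab : A → FreeGroup X) : tlen lab [] = 0 := rfl

@[simp] theorem tlen_cons (lab : A → FreeGroup X) (z : A × Bool) (W : List (A × Bool)) :
    tlen lab (z :: W) = (lab z.1).norm + tlen lab W := by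
  simp [tlen]

@[simp] theorem tlen_append (lab : A → FreeGroup X) (W W' : List (A × Bool)) :
    tlen lab (W ++ W') = tlen lab W + tlen lab W' := by
  simp [tlen]

theorem norm_slab (lab : A → FreeGroup X) (z : A × Bool) :
    (slab lab z).norm = (lab z.1).norm := by
  rcases z with ⟨a, s⟩
  cases s <;> simp [slab, FreeGroup.norm_inv_eq]

@[simp] theorem brow_nil (σ : Bool) : brow ([] : List (Bool → List (A × Bool))) σ = [] := rfl

theorem brow_append (L L' : List (Bool → List (A × Bool))) (σ : Bool) :
    brow (L ++ L') σ = brow L σ ++ brow L' σ := by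
  simp [brow]

theorem brow_single (b : Bool → List (A × Bool)) (σ : Bool) : brow [b] σ = b σ := by
  simp [brow]

theorem brow_cons (b : Bool → List (A × Bool)) (L : List (Bool → List (A × Bool))) (σ : Bool) :
    brow (b :: L) σ = b σ ++ brow L σ := by
  simp [brow]

theorem tlen_eq_zero {lab : A → FreeGroup X} (h1 : ∀ a, lab a ≠ 1) {W : List (A × Bool)}
    (h : tlen lab W = 0) : W = [] := by
  cases W with
  | nil => rfl
  | cons z W =>
    exfalso
    rw [tlen_cons] at h
    have : (lab z.1).norm = 0 := by omega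
    exact h1 _ (FreeGroup.norm_eq_zero.1 this)

/-- the two halves of a block have the same length -/
theorem RCE.tlen_eq {lab : A → FreeGroup X} {b : Bool → List (A × Bool)} (h : RCE lab b)
    (σ τ : Bool) : tlen lab (b σ) = tlen lab (b τ) := by
  have h1 : ∀ σ, tlen lab (b σ) = (wpr lab (b true)).norm := by
    intro σ
    cases σ
    · rw [h.1]
      exact (h.2 false).symm
    · exact (h.2 true).symm
  rw [h1, h1]

theorem tlen_brow {lab : A → FreeGroup X} {L : List (Bool → List (A × Bool))}
    (h : ∀ b ∈ L, RCE lab b) (σ τ : Bool) : tlen lab (brow L σ) = tlen lab (brow L τ) := by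
  induction L with
  | nil => rfl
  | cons b L ih =>
    rw [brow_cons, brow_cons, tlen_append, tlen_append,
      (h b (by simp)).tlen_eq σ τ, ih fun b hb => h b (by simp [hb])]

theorem wpr_brow {lab : A → FreeGroup X} {L : List (Bool → List (A × Bool))}
    (h : ∀ b ∈ L, RCE lab b) : wpr lab (brow L true) = wpr lab (brow L false) := by
  induction L with
  | nil => rfl
  | cons b L ih =>
    rw [brow_cons, brow_cons, wpr_append, wpr_append, (h b (by simp)).1,
      ih fun b hb => h b (by simp [hb])]

/-- the last letters of the rows are the last letters of a common block -/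
theorem last_block {lab : A → FreeGroup X} (h1 : ∀ a, lab a ≠ 1) :
    ∀ (n : ℕ) (L : List (Bool → List (A × Bool))), L.length = n → (∀ b ∈ L, RCE lab b) →
    ∀ (W : Bool → List (A × Bool)) (z : Bool → A × Bool), (∀ σ, brow L σ = W σ ++ [z σ]) →
    ∃ (L' : List (Bool → List (A × Bool))) (V : Bool → List (A × Bool)),
      (∀ b ∈ L', RCE lab b) ∧ RCE lab (fun σ => V σ ++ [z σ]) ∧
      ∀ σ, W σ = brow L' σ ++ V σ := by
  intro n
  induction n with
  | zero =>
    intro L hL hb W z hW
    rw [List.length_eq_zero_iff] at hL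
    subst hL
    have := hW true
    simp at this
  | succ n ih =>
    intro L hL hb W z hW
    rcases List.eq_nil_or_concat L with rfl | ⟨L', b, rfl⟩
    · simp at hL
    rw [List.concat_eq_append] at hb hW hL
    have hbb : RCE lab b := hb b (by simp)
    have hL' : ∀ b' ∈ L', RCE lab b' := fun b' hb' => hb b' (by simp [hb'])
    by_cases he : b true = []
    · have he' : ∀ σ, b σ = [] := fun σ => tlen_eq_zero h1 (by
        rw [hbb.tlen_eq σ true, he, tlen_nil])
      refine ih L' (by simpa using hL) hL' W z fun σ => ?_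
      have := hW σ
      rwa [brow_append, brow_single, he', List.append_nil] at this
    · have he' : ∀ σ, b σ ≠ [] := by
        intro σ hσ
        apply he
        exact tlen_eq_zero h1 (by rw [hbb.tlen_eq true σ, hσ, tlen_nil])
      have key : ∀ σ, b σ = (b σ).dropLast ++ [z σ] ∧ W σ = brow L' σ ++ (b σ).dropLast := by
        intro σ
        have h2 := hW σ
        rw [brow_append, brow_single] at h2
        have h3 : (b σ).dropLast ++ [(b σ).getLast (he' σ)] = b σ := List.dropLast_append_getLast _
        rw [← h3, ← List.append_assoc] at h2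
        obtain ⟨h4, h5⟩ := snoc_inj h2
        rw [← h4, ← h5, h3]
        exact ⟨rfl, rfl⟩
      refine ⟨L', fun σ => (b σ).dropLast, hL', ?_, fun σ => (key σ).2⟩
      have : (fun σ => (b σ).dropLast ++ [z σ]) = b := by
        funext σ
        exact (key σ).1.symm
      rw [this]
      exact hbb

end basics

section step

variable {X : Type*} [DecidableEq X] {A : Type*} [DecidableEq A]

/-- total length after the Rauzy substitution -/
theorem tlen_sbs {lab lab' : A → FreeGroup X} {x y : A × Bool} (hxy : y.1 ≠ x.1)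
    (hg : ∀ a, a ≠ x.1 → lab' a = lab a)
    (hx : (lab' x.1).norm + (lab y.1).norm = (lab x.1).norm) (W : List (A × Bool)) :
    tlen lab' (W.flatMap (sbs x y)) = tlen lab W := by
  induction W with
  | nil => rfl
  | cons z W ih =>
    rw [List.flatMap_cons, tlen_append, ih, tlen_cons]
    congr 1
    by_cases hzx : z = x
    · subst hzx
      rw [sbs_self]
      simp only [tlen_cons, tlen_nil, hg _ hxy]
      omega
    · by_cases hzx' : z = sinv x
      · subst hzx'
        rw [sbs_sinv]
        simp only [tlen_cons, tlen_nil, sinv_fst, hg _ hxy]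
        omega
      · have hz1 : z.1 ≠ x.1 := by
          intro h
          rcases eq_or_sinv h with h | h
          · exact hzx h
          · exact hzx' h
        rw [sbs_of_ne hz1]
        simp [hg _ hz1]

theorem RC.sbs {lab lab' : A → FreeGroup X} {x y : A × Bool} (hxy : y.1 ≠ x.1)
    (hg : ∀ a, a ≠ x.1 → lab' a = lab a) (hx' : slab lab' x * slab lab y = slab lab x)
    (hx : (lab' x.1).norm + (lab y.1).norm = (lab x.1).norm) {W : List (A × Bool)}
    (h : RC lab W) : RC lab' (W.flatMap (sbs x y)) := by
  unfold RC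
  rw [wpr_sbs hxy hg hx', tlen_sbs hxy hg hx]
  exact h

/-- the invariant of the induction -/
structure Red (d : Dat A Unit (FreeGroup X)) : Prop where
  good : Good d
  len : ∀ a, d.lam a = ((d.lab a).norm : ℝ)
  blk : ∃ L : List (Bool → List (A × Bool)), (∀ σ, d.row σ = brow L σ) ∧ ∀ b ∈ L, RCE d.lab b

theorem Red.ne {d : Dat A Unit (FreeGroup X)} (h : Red d) (a : A) : d.lab a ≠ 1 := by
  intro h1
  have h2 := h.good.pos a
  rw [h.len, h1, FreeGroup.norm_one] at h2
  simp at h2

theorem Red.one_le {d : Dat A Unit (FreeGroup X)} (h : Red d) (a : A) : 1 ≤ (d.lab a).norm := by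
  rcases Nat.eq_zero_or_pos (d.lab a).norm with h1 | h1
  · exact absurd (FreeGroup.norm_eq_zero.1 h1) (h.ne a)
  · exact h1

/-- both rows are not empty -/
theorem Red.row_ne {d : Dat A Unit (FreeGroup X)} (h : Red d) (a : A) (σ : Bool) :
    d.row σ ≠ [] := by
  obtain ⟨L, hL, hb⟩ := h.blk
  intro h0
  have hall : ∀ τ, d.row τ = [] := by
    intro τ
    rw [hL]
    refine tlen_eq_zero h.ne ?_
    rw [tlen_brow hb τ σ, ← hL, h0, tlen_nil]
  have := h.good.two (a, true)
  simp [hall] at this

theorem Red.last {d : Dat A Unit (FreeGroup X)} (h : Red d) (a : A) :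
    ∃ (W : Bool → List (A × Bool)) (z : Bool → A × Bool), ∀ σ, d.row σ = W σ ++ [z σ] :=
  ⟨fun σ => (d.row σ).dropLast, fun σ => (d.row σ).getLast (h.row_ne a σ),
    fun σ => (List.dropLast_append_getLast _).symm⟩

/-- the last letters are comparable -/
theorem Red.suffix {d : Dat A Unit (FreeGroup X)} (h : Red d) {W : Bool → List (A × Bool)}
    {z : Bool → A × Bool} (hz : ∀ σ, d.row σ = W σ ++ [z σ]) (τ : Bool)
    (hle : (d.lab (z !τ).1).norm ≤ (d.lab (z τ).1).norm) :
    (slab d.lab (z τ) * (slab d.lab (z !τ))⁻¹).norm + (d.lab (z !τ).1).norm =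
      (d.lab (z τ).1).norm := by
  obtain ⟨L, hL, hb⟩ := h.blk
  obtain ⟨L', V, -, hV, -⟩ := last_block h.ne _ L rfl hb W z (fun σ => (hL σ).symm.trans (hz σ))
  have e : ∀ σ, wpr d.lab (V σ) * slab d.lab (z σ) = wpr d.lab (V σ ++ [z σ]) := fun σ => by
    rw [wpr_append]; simp
  have hs : ∀ σ, (wpr d.lab (V σ) * slab d.lab (z σ)).norm =
      (wpr d.lab (V σ)).norm + (slab d.lab (z σ)).norm := fun σ => by
    have := (hV.2 σ).append_88.2.2
    simpa using this
  have heq : wpr d.lab (V τ) * slab d.lab (z τ) = wpr d.lab (V !τ) * slab d.lab (z !τ) := by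
    rw [e, e]
    have h1 := hV.1
    cases τ
    · exact h1.symm
    · exact h1
  have := suffix_norm_88 heq (hs τ) (hs !τ) (by rw [norm_slab, norm_slab]; exact hle)
  rwa [norm_slab, norm_slab] at this

/-- **The invariant is kept by a step.** -/
theorem Red.step {d : Dat A Unit (FreeGroup X)} (h : Red d) {W : Bool → List (A × Bool)}
    {z : Bool → A × Bool} (hz : ∀ σ, d.row σ = W σ ++ [z σ]) (τ : Bool)
    (hlt : (d.lab (z !τ).1).norm < (d.lab (z τ).1).norm) :
    Rv d (FVol.step d τ (z τ) (z !τ) (W τ) (W !τ)) ∧
      Red (FVol.step d τ (z τ) (z !τ) (W τ) (W !τ)) := by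
  have hlam : d.lam (z !τ).1 < d.lam (z τ).1 := by
    rw [h.len, h.len]
    exact_mod_cast hlt
  have hxy := ne_of_lam hlam
  have hsuf := h.suffix hz τ hlt.le
  set d' := FVol.step d τ (z τ) (z !τ) (W τ) (W !τ) with hd'
  have hself : slab d'.lab (z τ) = slab d.lab (z τ) * (slab d.lab (z !τ))⁻¹ := step_slab_self
  have hmul : slab d'.lab (z τ) * slab d.lab (z !τ) = slab d.lab (z τ) := step_slab_mul
  have hnorm : (d'.lab (z τ).1).norm + (d.lab (z !τ).1).norm = (d.lab (z τ).1).norm := by
    rw [← norm_slab d'.lab (z τ), hself]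
    exact hsuf
  have hne : ∀ a, a ≠ (z τ).1 → d'.lab a = d.lab a := fun a ha => step_lab_of_ne ha
  refine ⟨Rv.mk d τ _ _ _ _ (hz τ) (hz !τ) hlam, h.good.step hxy (hz τ) (hz !τ) hlam, ?_, ?_⟩
  · intro a
    by_cases ha : a = (z τ).1
    · subst ha
      have h1 : d'.lam (z τ).1 = d.lam (z τ).1 - d.lam (z !τ).1 := step_lam_self
      rw [h1, h.len, h.len]
      have h2 : ((d'.lab (z τ).1).norm : ℝ) + (d.lab (z !τ).1).norm = (d.lab (z τ).1).norm := by
        exact_mod_cast hnorm
      linarith
    · have h1 : d'.lam a = d.lam a := step_lam_of_ne ha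
      rw [h1, hne a ha, h.len]
  · obtain ⟨L, hL, hb⟩ := h.blk
    obtain ⟨L', V, hL', hV, hW⟩ :=
      last_block h.ne _ L rfl hb W z (fun σ => (hL σ).symm.trans (hz σ))
    let f : List (A × Bool) → List (A × Bool) := fun W => W.flatMap (sbs (z τ) (z !τ))
    have hf : ∀ (L : List (Bool → List (A × Bool))) σ,
        brow (L.map fun b σ => f (b σ)) σ = f (brow L σ) := by
      intro L σ
      induction L with
      | nil => rfl
      | cons b L ih =>
        rw [List.map_cons, brow_cons, brow_cons, ih]
        simp only [f, List.flatMap_append]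
    let bn : Bool → List (A × Bool) := fun σ => if σ = τ then f (V σ) ++ [z τ] else f (V σ)
    refine ⟨(L'.map fun b σ => f (b σ)) ++ [bn], ?_, ?_⟩
    · intro σ
      rw [brow_append, brow_single, hf]
      by_cases hσ : σ = τ
      · subst hσ
        have h1 : d'.row σ = (W σ).flatMap (sbs (z σ) (z !σ)) ++ [z σ] := step_row_self
        rw [h1, hW σ]
        simp [bn, f, List.flatMap_append]
      · have hσ' : σ = !τ := by cases σ <;> cases τ <;> simp_all
        subst hσ'
        have h1 : d'.row (!τ) = (W !τ).flatMap (sbs (z τ) (z !τ)) := step_row_other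
        rw [h1, hW (!τ)]
        simp [bn, f, List.flatMap_append]
    · intro b hbm
      rw [List.mem_append, List.mem_map, List.mem_singleton] at hbm
      rcases hbm with ⟨b0, hb0, rfl⟩ | rfl
      · have h0 := hL' b0 hb0
        refine ⟨?_, fun σ => (h0.2 σ).sbs hxy hne hmul hnorm⟩
        show wpr d'.lab ((b0 true).flatMap _) = wpr d'.lab ((b0 false).flatMap _)
        rw [wpr_sbs hxy hne hmul, wpr_sbs hxy hne hmul]
        exact h0.1
      · -- the last block
        have e : ∀ σ, wpr d.lab (V σ ++ [z σ]) = wpr d.lab (V σ) * slab d.lab (z σ) := fun σ => by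
          rw [wpr_append]; simp
        have heq : wpr d.lab (V τ) * slab d.lab (z τ) = wpr d.lab (V !τ) * slab d.lab (z !τ) := by
          rw [← e, ← e]
          have h1 := hV.1
          cases τ
          · exact h1.symm
          · exact h1
        have ho : bn (!τ) = f (V !τ) := by simp [bn]
        have hs : bn τ = f (V τ) ++ [z τ] := by simp [bn]
        have wo : wpr d'.lab (bn (!τ)) = wpr d.lab (V !τ) := by
          rw [ho]
          exact wpr_sbs hxy hne hmul _
        have ws : wpr d'.lab (bn τ) = wpr d.lab (V !τ) := by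
          rw [hs, wpr_append, wpr_cons, wpr_nil, mul_one, hself]
          have : wpr d'.lab (f (V τ)) = wpr d.lab (V τ) := wpr_sbs hxy hne hmul _
          rw [this, ← mul_assoc, heq]
          group
        have ro : RC d'.lab (bn (!τ)) := by
          rw [ho]
          exact ((hV.2 (!τ)).append_88.1).sbs hxy hne hmul hnorm
        have rs : RC d'.lab (bn τ) := by
          have h1 : tlen d'.lab (bn τ) = tlen d.lab (V τ) + (d'.lab (z τ).1).norm := by
            rw [hs, tlen_append]
            have : tlen d'.lab (f (V τ)) = tlen d.lab (V τ) := tlen_sbs hxy hne hnorm _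
            rw [this]
            simp
          have h2 : tlen d.lab (V τ ++ [z τ]) = tlen d.lab (V (!τ) ++ [z (!τ)]) := hV.tlen_eq τ (!τ)
          rw [tlen_append, tlen_append] at h2
          simp only [tlen_cons, tlen_nil, add_zero] at h2
          have h3 : (wpr d.lab (V !τ)).norm = tlen d.lab (V !τ) := (hV.2 (!τ)).append_88.1
          show (wpr d'.lab (bn τ)).norm = tlen d'.lab (bn τ)
          rw [ws, h1, h3]
          omega
        refine ⟨?_, ?_⟩
        · cases τ
          · exact wo.trans ws.symm
          · exact ws.trans wo.symm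
        · intro σ
          by_cases hσ : σ = τ
          · subst hσ; exact rs
          · have hσ' : σ = !τ := by cases σ <;> cases τ <;> simp_all
            subst hσ'; exact ro

end step

end Pool.Agent.Lib.MP_e3aa0a_gt.FLG
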