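import Pool.Agent.Lib.FVol.Cycle
import Pool.Agent.Lib.FVol.Path

/-!
Deletion of letters in a two-row scheme: letters with trivial label are erased, two equal last
letters are removed and identified. The 2-cycle changes by a boundary of bounded norm.
-/

set_option autoImplicit false

namespace Pool.Agent.Lib.MP_e3aa0a_gt.FLG

open Pool.Agent.Lib.FVol

section restr

variable {A V G : Type*} (S : A → Prop) [DecidablePred S]

/-- the part of a word with letters in `S` -/
def rs (W : List (A × Bool)) : List ({b // S b} × Bool) :=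
  W.filterMap fun z => if h : S z.1 then some (⟨z.1, h⟩, z.2) else none

@[simp] theorem rs_nil : rs S ([] : List (A × Bool)) = [] := rfl

theorem rs_cons_of {z : A × Bool} (h : S z.1) (W : List (A × Bool)) :
    rs S (z :: W) = (⟨z.1, h⟩, z.2) :: rs S W := by
  rw [rs, List.filterMap_cons_some]
  · rfl
  · rw [dif_pos h]

theorem rs_cons_not {z : A × Bool} (h : ¬ S z.1) (W : List (A × Bool)) :
    rs S (z :: W) = rs S W := by
  rw [rs, List.filterMap_cons_none]
  · rfl
  · rw [dif_neg h]

theorem rs_append (W W' : List (A × Bool)) : rs S (W ++ W') = rs S W ++ rs S W' :=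
  List.filterMap_append

theorem rs_map (W : List (A × Bool)) :
    (rs S W).map (fun z => (z.1.1, z.2)) = W.filter (fun z => decide (S z.1)) := by
  induction W with
  | nil => rfl
  | cons z W ih =>
    by_cases h : S z.1
    · rw [rs_cons_of S h, List.map_cons, ih, List.filter_cons_of_pos (by simpa using h)]
    · rw [rs_cons_not S h, ih, List.filter_cons_of_neg (by simpa using h)]

theorem occ_rs [DecidableEq A] (z : {b // S b} × Bool) (W : List (A × Bool)) :
    occ z (rs S W) = occ (z.1.1, z.2) W := by
  induction W with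
  | nil => rfl
  | cons u W ih =>
    by_cases h : S u.1
    · rw [rs_cons_of S h, occ_cons, occ_cons, ih]
      congr 1
      have : (((⟨u.1, h⟩, u.2) : {b // S b} × Bool) = z) ↔ (u = (z.1.1, z.2)) := by
        constructor
        · rintro rfl
          rfl
        · rintro rfl
          rfl
      simp only [this]
    · rw [rs_cons_not S h, occ_cons, ih]
      have : u ≠ (z.1.1, z.2) := by
        rintro rfl
        exact h z.1.2
      rw [if_neg this, add_zero]

variable [Group G]

theorem slab_rs (g : A → G) (a : A) (h : S a) (s : Bool) :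
    slab (fun b : {b // S b} => g b.1) (⟨a, h⟩, s) = slab g (a, s) := by
  cases s <;> rfl

theorem wpr_rs {g : A → G} {W : List (A × Bool)} (h : ∀ z ∈ W, ¬ S z.1 → g z.1 = 1) :
    wpr (fun b : {b // S b} => g b.1) (rs S W) = wpr g W := by
  induction W with
  | nil => rfl
  | cons z W ih =>
    have ih' := ih fun u hu => h u (List.mem_cons_of_mem _ hu)
    by_cases hz : S z.1
    · rw [rs_cons_of S hz, wpr_cons, wpr_cons, ih', slab_rs]
    · have h1 := h z (by simp) hz
      rw [rs_cons_not S hz, ih', wpr_cons, slab, h1]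
      simp

theorem map_slab_rs {g : A → G} {W : List (A × Bool)} (h : ∀ z ∈ W, S z.1) :
    (rs S W).map (slab (fun b : {b // S b} => g b.1)) = W.map (slab g) := by
  induction W with
  | nil => rfl
  | cons z W ih =>
    rw [rs_cons_of S (h z (by simp)), List.map_cons, List.map_cons,
      ih fun u hu => h u (List.mem_cons_of_mem _ hu), slab_rs]

/-- erasing letters with trivial label -/
theorem fan_rs {g : A → G} {W : List (A × Bool)} (h : ∀ z ∈ W, ¬ S z.1 → g z.1 = 1) :
    ∀ p : G, Fil (W.length : ℝ) (fan g p W - fan (fun b : {b // S b} => g b.1) p (rs S W)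
      - ssum (fun a => if S a then (0 : C2 G) else e2 1 1) W) := by
  induction W with
  | nil =>
    intro p
    refine Fil.zero.of_eq (by simp) ?_
    simp [ssum]
  | cons z W ih =>
    intro p
    have ih' := ih fun u hu => h u (List.mem_cons_of_mem _ hu)
    by_cases hz : S z.1
    · have h2 := ih' (p * slab g z)
      refine h2.of_eq (by push_cast [List.length_cons]; linarith) ?_
      rw [rs_cons_of S hz, fan_cons, fan_cons, ssum, slab_rs]
      have : kap (fun b : {b // S b} => g b.1) (⟨z.1, hz⟩, z.2) = kap g z := by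
        rcases z with ⟨a, s⟩
        cases s <;> rfl
      rw [this, if_pos hz]
      simp
    · have h1 := h z (by simp) hz
      have hs : slab g z = 1 := by
        rw [slab, h1]
        simp
      have h2 := ih' p
      have h3 := fil_one_right (G := G) p
      refine (h3.add h2).of_eq (by push_cast [List.length_cons]; linarith) ?_
      rw [rs_cons_not S hz, fan_cons, ssum, hs, mul_one, if_neg hz, kap, h1]
      rcases z with ⟨a, s⟩
      cases s
      · simp only [inv_one, Bool.false_eq_true, if_false]
        abel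
      · simp only [if_true]
        abel

/-- a word with all letters in `S` -/
theorem fan_rs_all {g : A → G} {W : List (A × Bool)} (h : ∀ z ∈ W, S z.1) :
    ∀ p : G, fan (fun b : {b // S b} => g b.1) p (rs S W) = fan g p W := by
  induction W with
  | nil => intro p; rfl
  | cons z W ih =>
    intro p
    have hz := h z (by simp)
    rw [rs_cons_of S hz, fan_cons, fan_cons, slab_rs,
      ih fun u hu => h u (List.mem_cons_of_mem _ hu)]
    have : kap (fun b : {b // S b} => g b.1) (⟨z.1, hz⟩, z.2) = kap g z := by
      rcases z with ⟨a, s⟩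
      cases s <;> rfl
    rw [this]

end restr

section pre

variable {A V G : Type*} [DecidableEq A] [Group G]

/-- the clauses of `Good` that do not speak about the lengths and the vertices -/
structure Pre (d : Dat A V G) : Prop where
  two : ∀ z, occ z (d.row true) + occ (sinv z) (d.row true) + occ z (d.row false)
    + occ (sinv z) (d.row false) = 2
  sgn : ∀ z, (occ z (d.row true) : ℤ) - occ (sinv z) (d.row true)
    = occ z (d.row false) - occ (sinv z) (d.row false)
  rel : wpr d.lab (d.row true) = wpr d.lab (d.row false)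

theorem Good.pre {d : Dat A V G} (h : Good d) : Pre d := ⟨h.two, h.sgn, h.rel⟩

theorem comp_of_sub [Subsingleton V] (d : Dat A V G) (W : List (A × Bool)) :
    ∀ v w, comp d v W w := by
  induction W with
  | nil => intro v w; exact Subsingleton.elim _ _
  | cons z W ih => intro v w; exact ⟨Subsingleton.elim _ _, ih _ _⟩

theorem Pre.good [Subsingleton V] [Nonempty V] {d : Dat A V G} (h : Pre d)
    (hp : ∀ a, 0 < d.lam a) : Good d := by
  obtain ⟨v⟩ := (inferInstance : Nonempty V)
  exact ⟨h.two, h.sgn, hp, h.rel, v, v, comp_of_sub d _ _ _, comp_of_sub d _ _ _⟩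

theorem Pre.two' {d : Dat A V G} (h : Pre d) (τ : Bool) (z : A × Bool) :
    occ z (d.row τ) + occ (sinv z) (d.row τ) + occ z (d.row (!τ))
    + occ (sinv z) (d.row (!τ)) = 2 := by
  have := h.two z
  cases τ
  · simp only [Bool.not_false]; omega
  · simp only [Bool.not_true]; omega

theorem Pre.sgn' {d : Dat A V G} (h : Pre d) (τ : Bool) (z : A × Bool) :
    (occ z (d.row τ) : ℤ) - occ (sinv z) (d.row τ)
    = occ z (d.row (!τ)) - occ (sinv z) (d.row (!τ)) := by
  have := h.sgn z
  cases τ
  · simp only [Bool.not_false]; omega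
  · simp only [Bool.not_true]; omega

theorem Pre.rel' {d : Dat A V G} (h : Pre d) (τ : Bool) :
    wpr d.lab (d.row τ) = wpr d.lab (d.row (!τ)) := by
  cases τ
  · exact h.rel.symm
  · exact h.rel

theorem pre_of {d : Dat A V G} (τ : Bool)
    (two : ∀ z, occ z (d.row τ) + occ (sinv z) (d.row τ) + occ z (d.row (!τ))
      + occ (sinv z) (d.row (!τ)) = 2)
    (sgn : ∀ z, (occ z (d.row τ) : ℤ) - occ (sinv z) (d.row τ)
      = occ z (d.row (!τ)) - occ (sinv z) (d.row (!τ)))
    (rel : wpr d.lab (d.row τ) = wpr d.lab (d.row (!τ))) : Pre d := by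
  cases τ
  · simp only [Bool.not_false] at *
    refine ⟨fun z => ?_, fun z => ?_, rel.symm⟩
    · have := two z; omega
    · have := sgn z; omega
  · exact ⟨two, sgn, rel⟩

theorem Pre.length_sum [Fintype A] {d : Dat A V G} (hd : Pre d) :
    (d.row true).length + (d.row false).length = 2 * Fintype.card A := by
  have h1 : ∀ W : List (A × Bool), ∑ z, occ (sinv z) W = ∑ z, occ z W := fun W =>
    Equiv.sum_comp (sinvE (A := A)) (fun z => occ z W)
  have h2 : ∑ z : A × Bool, (occ z (d.row true) + occ (sinv z) (d.row true) + occ z (d.row false)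
    + occ (sinv z) (d.row false)) = ∑ _z : A × Bool, 2 := Finset.sum_congr rfl fun z _ => hd.two z
  simp only [Finset.sum_add_distrib, h1, ← length_eq, Finset.sum_const, Finset.card_univ,
    Fintype.card_prod, Fintype.card_bool, smul_eq_mul] at h2
  omega

/-! ### letters with trivial label -/

/-- the scheme without the letters outside of `S` -/
def restr (d : Dat A V G) (S : A → Prop) [DecidablePred S] : Dat {b // S b} V G where
  row σ := rs S (d.row σ)
  lam b := d.lam b.1
  src b := d.src b.1
  tgt b := d.tgt b.1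
  lab b := d.lab b.1

theorem restr_row (d : Dat A V G) (S : A → Prop) [DecidablePred S] (σ : Bool) :
    ((restr d S).row σ).map (fun z => (z.1.1, z.2)) =
      (d.row σ).filter (fun z => decide (S z.1)) := rs_map S _

/-- letters with trivial label are erased -/
theorem erase16 [Fintype A] {d : Dat A V G} (hd : Pre d) (S : A → Prop) [DecidablePred S]
    (hS : ∀ a, ¬ S a → d.lab a = 1) :
    Pre (restr d S) ∧ Fil (2 * (Fintype.card A : ℝ)) (cyc (restr d S) - cyc d) := by
  constructor
  · refine ⟨fun z => ?_, fun z => ?_, ?_⟩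
    · change occ z (rs S (d.row true)) + occ (sinv z) (rs S (d.row true)) +
        occ z (rs S (d.row false)) + occ (sinv z) (rs S (d.row false)) = 2
      simp only [occ_rs]
      exact hd.two (z.1.1, z.2)
    · change (occ z (rs S (d.row true)) : ℤ) - occ (sinv z) (rs S (d.row true)) =
        occ z (rs S (d.row false)) - occ (sinv z) (rs S (d.row false))
      simp only [occ_rs]
      exact hd.sgn (z.1.1, z.2)
    · change wpr (fun b : {b // S b} => d.lab b.1) (rs S (d.row true)) =
        wpr (fun b : {b // S b} => d.lab b.1) (rs S (d.row false))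
      rw [wpr_rs S fun z _ h => hS z.1 h, wpr_rs S fun z _ h => hS z.1 h]
      exact hd.rel
  · have h1 := fan_rs S (g := d.lab) (W := d.row true) (fun z _ h => hS z.1 h) 1
    have h2 := fan_rs S (g := d.lab) (W := d.row false) (fun z _ h => hS z.1 h) 1
    have h3 : ssum (fun a => if S a then (0 : C2 G) else e2 1 1) (d.row true) =
        ssum (fun a => if S a then (0 : C2 G) else e2 1 1) (d.row false) := by
      rw [ssum_eq, ssum_eq]
      refine Finset.sum_congr rfl fun a _ => ?_
      have := hd.sgn (a, true)
      simp only [sinv, Bool.not_true] at this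
      rw [this]
    have h4 : ((d.row true).length : ℝ) + (d.row false).length = 2 * Fintype.card A := by
      exact_mod_cast hd.length_sum
    refine (h2.sub h1).of_eq (by linarith) ?_
    rw [h3]
    change _ = (fan (fun b : {b // S b} => d.lab b.1) 1 (rs S (d.row true)) -
      fan (fun b : {b // S b} => d.lab b.1) 1 (rs S (d.row false))) - cyc d
    rw [cyc]
    abel

/-! ### two equal last letters -/

/-- `y` is renamed to `x` -/
def rho (x y z : A × Bool) : A × Bool := if z = y then x else if z = sinv y then sinv x else z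

theorem slab_rho {g : A → G} {x y : A × Bool} (h : slab g x = slab g y) (z : A × Bool) :
    slab g (rho x y z) = slab g z := by
  unfold rho
  split_ifs with h1 h2
  · rw [h, h1]
  · rw [slab_sinv, h, h2, slab_sinv]
  · rfl

theorem occ_rho {x y u : A × Bool} (hu : u.1 ≠ y.1) (W : List (A × Bool)) :
    occ u (W.map (rho x y)) = occ u W + (if u = x then occ y W else 0) +
      (if u = sinv x then occ (sinv y) W else 0) := by
  induction W with
  | nil => simp
  | cons z W ih =>
    have huy : u ≠ y := fun e => hu (by rw [e])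
    have huy' : u ≠ sinv y := fun e => hu (by rw [e]; rfl)
    rw [List.map_cons, occ_cons, ih, occ_cons, occ_cons, occ_cons]
    have key : (if rho x y z = u then 1 else 0) = (if z = u then 1 else 0) +
        (if u = x then (if z = y then 1 else 0) else 0) +
        (if u = sinv x then (if z = sinv y then 1 else 0) else 0) := by
      by_cases h1 : z = y
      · subst h1
        have h2 : ¬ z = sinv z := (sinv_ne z).symm
        have h3 : rho x z z = x := by simp [rho]
        rw [h3]
        simp only [huy.symm, h2, if_true, if_false, zero_add, ite_self, add_zero,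
          eq_comm (a := x) (b := u)]
      · by_cases h2 : z = sinv y
        · subst h2
          have h3 : rho x y (sinv y) = sinv x := by simp [rho, sinv_ne]
          rw [h3]
          simp only [huy'.symm, sinv_ne, if_true, if_false, zero_add, ite_self, add_zero,
            eq_comm (a := sinv x) (b := u)]
        · have h3 : rho x y z = z := by simp [rho, h1, h2]
          rw [h3]
          simp [h1, h2]
    rw [key]
    split_ifs <;> omega

/-- the scheme after the removal of the last letters -/
def mrg (d : Dat A V G) (τ : Bool) (x y : A × Bool) (P Q : List (A × Bool)) :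
    Dat {b // b ≠ y.1} V G where
  row σ := rs (fun b => b ≠ y.1) ((if σ = τ then P else Q).map (rho x y))
  lam b := d.lam b.1
  src b := d.src b.1
  tgt b := d.tgt b.1
  lab b := d.lab b.1

variable {d : Dat A V G} {τ : Bool} {x y : A × Bool} {P Q : List (A × Bool)}

theorem mrg_row : (mrg d τ x y P Q).row τ = rs (fun b => b ≠ y.1) (P.map (rho x y)) := by
  simp [mrg]

theorem mrg_row' : (mrg d τ x y P Q).row (!τ) = rs (fun b => b ≠ y.1) (Q.map (rho x y)) := by
  simp [mrg]

/-- correction terms of a renamed word -/
theorem fan_rho {g : A → G} (h : slab g x = slab g y) (W : List (A × Bool)) : ∀ p : G,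
    fan g p (W.map (rho x y)) = fan g p W + (occ y W : ℤ) • (kap g x - kap g y) +
      (occ (sinv y) W : ℤ) • (kap g (sinv x) - kap g (sinv y)) := by
  induction W with
  | nil => intro p; simp
  | cons z W ih =>
    intro p
    rw [List.map_cons, fan_cons, fan_cons, slab_rho h, ih, occ_cons, occ_cons]
    by_cases h1 : z = y
    · subst h1
      have h2 : ¬ z = sinv z := (sinv_ne z).symm
      have h3 : rho x z z = x := by simp [rho]
      rw [h3, if_pos rfl, if_neg h2]
      push_cast
      rw [add_zero, add_smul, one_smul]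
      abel
    · by_cases h2 : z = sinv y
      · subst h2
        have h3 : rho x y (sinv y) = sinv x := by simp [rho, sinv_ne]
        rw [h3, if_neg h1, if_pos rfl]
        push_cast
        rw [add_zero, add_smul, one_smul]
        abel
      · have h3 : rho x y z = z := by simp [rho, h1, h2]
        rw [h3, if_neg h1, if_neg h2]
        push_cast
        rw [add_zero, add_zero]
        abel

/-- `[u⁻¹|u] - [u|u⁻¹]` -/
theorem fil_inv (u : G) : Fil 3 (e2 u⁻¹ u - e2 u u⁻¹) := by
  have h1 := fil_e3 u u⁻¹ u
  have h2 := fil_one_left (G := G) u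
  have h3 := (fil_one_right (G := G) u).neg
  refine ((h1.add h2).add h3).of_eq (by norm_num) ?_
  rw [mul_inv_cancel, inv_mul_cancel]
  abel

theorem fil_kap {g : A → G} (h : slab g x = slab g y) {n : ℤ} (hn : n = 0 ∨ n = 1 ∨ n = -1) :
    Fil 3 (n • ((e2 (g y.1) (g y.1)⁻¹ + e2 1 1) - (e2 (g x.1) (g x.1)⁻¹ + e2 1 1) : C2 G)) := by
  have key : Fil 3 ((e2 (g y.1) (g y.1)⁻¹ + e2 1 1) - (e2 (g x.1) (g x.1)⁻¹ + e2 1 1) : C2 G) := by
    rcases x with ⟨a, s⟩
    rcases y with ⟨b, t⟩
    cases s <;> cases t <;> simp only [slab, Bool.false_eq_true, if_false, if_true] at h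
    · have : g a = g b := inv_injective h
      simp only [this]
      refine (Fil.zero' (by norm_num)).of_eq (le_refl _) ?_
      abel
    · rw [← h]
      refine (fil_inv (g a)).of_eq (le_refl _) ?_
      simp only [inv_inv]
      abel
    · rw [h]
      refine (fil_inv (g b)).neg.of_eq (le_refl _) ?_
      simp only [inv_inv]
      abel
    · simp only [h]
      refine (Fil.zero' (by norm_num)).of_eq (le_refl _) ?_
      abel
  rcases hn with rfl | rfl | rfl
  · rw [zero_smul]
    exact Fil.zero' (by norm_num)
  · rw [one_smul]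
    exact key
  · rw [neg_smul, one_smul]
    exact key.neg

/-- the fans of the renamed words -/
theorem fil_merge16 (hd : Pre d) (h1 : d.row τ = P ++ [x]) (h2 : d.row (!τ) = Q ++ [y])
    (hs : slab d.lab x = slab d.lab y) (hxy : x = y ∨ x.1 ≠ y.1) :
    Fil 3 ((fan d.lab 1 (P.map (rho x y)) - fan d.lab 1 (Q.map (rho x y))) -
        (fan d.lab 1 (d.row τ) - fan d.lab 1 (d.row (!τ)))) := by
  have oP : ∀ z, occ z (d.row τ) = occ z P + if x = z then 1 else 0 := by
    intro z
    rw [h1, occ_append, occ_cons, occ_nil, zero_add]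
  have oQ : ∀ z, occ z (d.row (!τ)) = occ z Q + if y = z then 1 else 0 := by
    intro z
    rw [h2, occ_append, occ_cons, occ_nil, zero_add]
  have hyy : ¬ y = sinv y := (sinv_ne y).symm
  have twoy := hd.two' τ y
  have sgny := hd.sgn' τ y
  rw [oP, oP, oQ, oQ, if_pos rfl, if_neg hyy] at twoy sgny
  have hz0 : x = y → (occ y P = 0 ∧ occ (sinv y) P = 0) ∧ (occ y Q = 0 ∧ occ (sinv y) Q = 0) := by
    intro e
    subst e
    simp only [if_true] at twoy
    omega
  have hPQ : wpr d.lab P = wpr d.lab Q := by
    have := hd.rel' τ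
    rw [h1, h2, wpr_append, wpr_append, wpr_cons, wpr_cons, hs] at this
    exact mul_right_cancel this
  have kx := kap_add_sinv d.lab x
  have ky := kap_add_sinv d.lab y
  obtain ⟨D, hD⟩ : ∃ D : C2 G, D = kap d.lab x - kap d.lab y := ⟨_, rfl⟩
  obtain ⟨K, hK⟩ : ∃ K : C2 G, K = (e2 (d.lab y.1) (d.lab y.1)⁻¹ + e2 1 1) -
    (e2 (d.lab x.1) (d.lab x.1)⁻¹ + e2 1 1) := ⟨_, rfl⟩
  have hD' : kap d.lab (sinv x) - kap d.lab (sinv y) = K - D := by
    rw [eq_sub_of_add_eq' kx, eq_sub_of_add_eq' ky, hK, hD]
    abel
  obtain ⟨n, hn⟩ : ∃ n : ℤ, n = (occ (sinv y) P : ℤ) - occ (sinv y) Q := ⟨_, rfl⟩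
  have hn1 : n = 0 ∨ n = 1 ∨ n = -1 := by
    rcases hxy with e | e
    · obtain ⟨⟨_, e2⟩, _, e4⟩ := hz0 e
      left
      rw [hn, e2, e4]
      rfl
    · have e1 : ¬ x = y := fun e' => e (by rw [e'])
      have e2 : ¬ x = sinv y := fun e' => e (by rw [e']; rfl)
      rw [if_neg e1, if_neg e2] at twoy
      omega
  have hcoef : ((occ y P : ℤ) - occ y Q) • D = n • D + D := by
    rcases hxy with e | e
    · have : D = 0 := by rw [hD, e, sub_self]
      rw [this]
      simp
    · have e1 : ¬ x = y := fun e' => e (by rw [e'])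
      have e2 : ¬ x = sinv y := fun e' => e (by rw [e']; rfl)
      rw [if_neg e1, if_neg e2] at sgny
      have : (occ y P : ℤ) - occ y Q = n + 1 := by
        rw [hn]
        push_cast at sgny
        omega
      rw [this, add_smul, one_smul]
  refine (fil_kap hs hn1).of_eq (le_refl _) ?_
  rw [← hK, fan_rho hs, fan_rho hs, h1, h2, fan_append, fan_append, fan_cons,
    fan_cons, fan_nil, fan_nil, hPQ, hs, hD', ← hD, smul_sub, smul_sub]
  have e1 : (occ y P : ℤ) • D - (occ y Q : ℤ) • D = n • D + D := by rw [← sub_smul, hcoef]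
  have e2 : (occ (sinv y) P : ℤ) • D - (occ (sinv y) Q : ℤ) • D = n • D := by
    rw [← sub_smul, hn]
  have e3 : (occ (sinv y) P : ℤ) • K - (occ (sinv y) Q : ℤ) • K = n • K := by
    rw [← sub_smul, hn]
  have e4 : kap d.lab x = D + kap d.lab y := by
    rw [hD]
    abel
  rw [e4]
  calc n • K = ((occ y P : ℤ) • D - (occ y Q : ℤ) • D) +
        ((occ (sinv y) P : ℤ) • K - (occ (sinv y) Q : ℤ) • K) -
        ((occ (sinv y) P : ℤ) • D - (occ (sinv y) Q : ℤ) • D) - D := by
          rw [e1, e2, e3]
          abel
    _ = _ := by abel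

/-- two equal last letters are removed, one of them is renamed to the other one -/
theorem merge16 (hd : Pre d) (h1 : d.row τ = P ++ [x]) (h2 : d.row (!τ) = Q ++ [y])
    (hs : slab d.lab x = slab d.lab y) (hxy : x = y ∨ x.1 ≠ y.1) :
    Pre (mrg d τ x y P Q) ∧ Fil 3 (cyc (mrg d τ x y P Q) - cyc d) ∧
      ((mrg d τ x y P Q).row τ).map (slab (mrg d τ x y P Q).lab) = P.map (slab d.lab) ∧
      ((mrg d τ x y P Q).row (!τ)).map (slab (mrg d τ x y P Q).lab) = Q.map (slab d.lab) := by
  have oP : ∀ z, occ z (d.row τ) = occ z P + if x = z then 1 else 0 := by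
    intro z
    rw [h1, occ_append, occ_cons, occ_nil, zero_add]
  have oQ : ∀ z, occ z (d.row (!τ)) = occ z Q + if y = z then 1 else 0 := by
    intro z
    rw [h2, occ_append, occ_cons, occ_nil, zero_add]
  have hyy : ¬ y = sinv y := (sinv_ne y).symm
  have hxx : ¬ x = sinv x := (sinv_ne x).symm
  have twoy := hd.two' τ y
  have sgny := hd.sgn' τ y
  rw [oP, oP, oQ, oQ, if_pos rfl, if_neg hyy] at twoy sgny
  have twox := hd.two' τ x
  have sgnx := hd.sgn' τ x
  rw [oP, oP, oQ, oQ, if_pos rfl, if_neg hxx] at twox sgnx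
  -- all letters of the renamed words differ from `y`
  have hne : ∀ W : List (A × Bool), (x = y → occ y W = 0 ∧ occ (sinv y) W = 0) →
      ∀ z ∈ W.map (rho x y), z.1 ≠ y.1 := by
    intro W hW z hz
    obtain ⟨u, hu, rfl⟩ := List.mem_map.1 hz
    rcases hxy with e | e
    · obtain ⟨k1, k2⟩ := hW e
      have hu1 : u ≠ y := fun e' => occ_eq_zero_iff.1 k1 (e' ▸ hu)
      have hu2 : u ≠ sinv y := fun e' => occ_eq_zero_iff.1 k2 (e' ▸ hu)
      have h3 : rho x y u = u := by simp [rho, hu1, hu2]
      rw [h3]
      intro h4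
      rcases eq_or_sinv h4 with h4 | h4
      · exact hu1 h4
      · exact hu2 h4
    · unfold rho
      split_ifs with e1 e2
      · exact e
      · exact e
      · intro h4
        rcases eq_or_sinv h4 with h4 | h4
        · exact e1 h4
        · exact e2 h4
  have hz0 : x = y → (occ y P = 0 ∧ occ (sinv y) P = 0) ∧ (occ y Q = 0 ∧ occ (sinv y) Q = 0) := by
    intro e
    subst e
    simp only [if_true] at twoy
    omega
  have hP := hne P fun e => (hz0 e).1
  have hQ := hne Q fun e => (hz0 e).2
  have hmapP : (P.map (rho x y)).map (slab d.lab) = P.map (slab d.lab) := by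
    rw [List.map_map]
    exact List.map_congr_left fun z _ => slab_rho hs z
  have hmapQ : (Q.map (rho x y)).map (slab d.lab) = Q.map (slab d.lab) := by
    rw [List.map_map]
    exact List.map_congr_left fun z _ => slab_rho hs z
  have hPQ : wpr d.lab P = wpr d.lab Q := by
    have := hd.rel' τ
    rw [h1, h2, wpr_append, wpr_append, wpr_cons, wpr_cons, hs] at this
    exact mul_right_cancel this
  refine ⟨?_, ?_, ?_, ?_⟩
  · refine pre_of τ (fun u => ?_) (fun u => ?_) ?_
    · rw [mrg_row, mrg_row', occ_rs, occ_rs, occ_rs, occ_rs]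
      have hu : ((u.1.1, u.2) : A × Bool).1 ≠ y.1 := u.1.2
      have hu' : (((sinv u).1.1, (sinv u).2) : A × Bool).1 ≠ y.1 := u.1.2
      rw [occ_rho hu, occ_rho hu', occ_rho hu, occ_rho hu']
      have e0 : (((sinv u).1.1, (sinv u).2) : A × Bool) = sinv (u.1.1, u.2) := rfl
      rw [e0]
      set w : A × Bool := (u.1.1, u.2) with hw
      have twow := hd.two' τ w
      rw [oP, oP, oQ, oQ] at twow
      have hwy : ¬ y = w := fun e => hu (by rw [← e])
      have hwy' : ¬ y = sinv w := fun e => hu (by rw [e]; rfl)
      rw [if_neg hwy, if_neg hwy'] at twow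
      by_cases e1 : w = x
      · rw [← e1] at twox twoy hxx ⊢
        have hh : ¬ sinv w = w := sinv_ne w
        have hh' : ¬ w = sinv w := (sinv_ne w).symm
        rw [if_neg hwy, if_neg hwy'] at twox
        have h7 : ¬ w = y := fun e => hwy e.symm
        have h8 : ¬ w = sinv y := fun e => hu (by rw [e]; rfl)
        rw [if_neg h7, if_neg h8] at twoy
        simp only [if_true, hh, hh', if_false]
        omega
      · by_cases e2 : w = sinv x
        · have e3 : sinv w = x := by rw [e2, sinv_sinv]
          have h7 : ¬ x = y := fun e => hwy' (by rw [← e, ← e3])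
          have h8 : ¬ x = sinv y := fun e => hwy (by rw [e2, e, sinv_sinv])
          rw [if_neg h7, if_neg h8] at twoy
          have h9 : ¬ y = x := fun e => h7 e.symm
          have h10 : ¬ y = sinv x := fun e => hwy (by rw [e, e2])
          rw [if_neg h9, if_neg h10] at twox
          rw [e2, sinv_sinv]
          have hh : ¬ sinv x = x := sinv_ne x
          simp only [if_true, hh, hxx, if_false]
          omega
        · have e3 : ¬ sinv w = x := fun e => e2 (by rw [← e, sinv_sinv])
          have e4 : ¬ sinv w = sinv x := fun e => e1 (by rw [← sinv_sinv w, e, sinv_sinv])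
          have e5 : ¬ x = w := fun e => e1 e.symm
          have e6 : ¬ x = sinv w := fun e => e3 e.symm
          rw [if_neg e5, if_neg e6] at twow
          simp only [e1, e2, e3, e4, if_false]
          omega
    · rw [mrg_row, mrg_row', occ_rs, occ_rs, occ_rs, occ_rs]
      have hu : ((u.1.1, u.2) : A × Bool).1 ≠ y.1 := u.1.2
      have hu' : (((sinv u).1.1, (sinv u).2) : A × Bool).1 ≠ y.1 := u.1.2
      rw [occ_rho hu, occ_rho hu', occ_rho hu, occ_rho hu']
      have e0 : (((sinv u).1.1, (sinv u).2) : A × Bool) = sinv (u.1.1, u.2) := rfl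
      rw [e0]
      set w : A × Bool := (u.1.1, u.2) with hw
      have sgnw := hd.sgn' τ w
      rw [oP, oP, oQ, oQ] at sgnw
      have hwy : ¬ y = w := fun e => hu (by rw [← e])
      have hwy' : ¬ y = sinv w := fun e => hu (by rw [e]; rfl)
      rw [if_neg hwy, if_neg hwy'] at sgnw
      by_cases e1 : w = x
      · rw [← e1] at sgnx sgny hxx ⊢
        have hh : ¬ sinv w = w := sinv_ne w
        have hh' : ¬ w = sinv w := (sinv_ne w).symm
        rw [if_neg hwy, if_neg hwy'] at sgnx
        have h7 : ¬ w = y := fun e => hwy e.symm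
        have h8 : ¬ w = sinv y := fun e => hu (by rw [e]; rfl)
        rw [if_neg h7, if_neg h8] at sgny
        simp only [if_true, hh, hh', if_false]
        omega
      · by_cases e2 : w = sinv x
        · have e3 : sinv w = x := by rw [e2, sinv_sinv]
          have h7 : ¬ x = y := fun e => hwy' (by rw [← e, ← e3])
          have h8 : ¬ x = sinv y := fun e => hwy (by rw [e2, e, sinv_sinv])
          rw [if_neg h7, if_neg h8] at sgny
          have h9 : ¬ y = x := fun e => h7 e.symm
          have h10 : ¬ y = sinv x := fun e => hwy (by rw [e, e2])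
          rw [if_neg h9, if_neg h10] at sgnx
          rw [e2, sinv_sinv]
          have hh : ¬ sinv x = x := sinv_ne x
          simp only [if_true, hh, hxx, if_false]
          omega
        · have e3 : ¬ sinv w = x := fun e => e2 (by rw [← e, sinv_sinv])
          have e4 : ¬ sinv w = sinv x := fun e => e1 (by rw [← sinv_sinv w, e, sinv_sinv])
          have e5 : ¬ x = w := fun e => e1 e.symm
          have e6 : ¬ x = sinv w := fun e => e3 e.symm
          rw [if_neg e5, if_neg e6] at sgnw
          simp only [e1, e2, e3, e4, if_false]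
          omega
    · rw [mrg_row, mrg_row']
      change wpr (fun b : {b // b ≠ y.1} => d.lab b.1) _ = wpr (fun b : {b // b ≠ y.1} => d.lab b.1) _
      rw [wpr_rs _ fun z hz h => absurd (hP z hz) h, wpr_rs _ fun z hz h => absurd (hQ z hz) h,
        wpr, wpr, hmapP, hmapQ]
      exact hPQ
  · have fP : fan (mrg d τ x y P Q).lab 1 ((mrg d τ x y P Q).row τ) =
        fan d.lab 1 (P.map (rho x y)) := by
      rw [mrg_row]
      exact fan_rs_all _ hP 1
    have fQ : fan (mrg d τ x y P Q).lab 1 ((mrg d τ x y P Q).row (!τ)) =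
        fan d.lab 1 (Q.map (rho x y)) := by
      rw [mrg_row']
      exact fan_rs_all _ hQ 1
    have key : Fil 3 ((fan (mrg d τ x y P Q).lab 1 ((mrg d τ x y P Q).row τ) -
        fan (mrg d τ x y P Q).lab 1 ((mrg d τ x y P Q).row (!τ))) -
        (fan d.lab 1 (d.row τ) - fan d.lab 1 (d.row (!τ)))) := by
      rw [fP, fQ]
      exact fil_merge16 hd h1 h2 hs hxy
    cases τ
    · refine key.neg.of_eq (le_refl _) ?_
      simp only [cyc, Bool.not_false]
      abel
    · exact key
  · rw [mrg_row]
    change (rs _ _).map (slab (fun b : {b // b ≠ y.1} => d.lab b.1)) = _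
    rw [map_slab_rs _ hP, hmapP]
  · rw [mrg_row']
    change (rs _ _).map (slab (fun b : {b // b ≠ y.1} => d.lab b.1)) = _
    rw [map_slab_rs _ hQ, hmapQ]

/-- the form with words -/
theorem fil_merge_words {lab : A → G} {x y : A × Bool} {P Q : List (A × Bool)}
    (hxy : x = y ∨ x.1 ≠ y.1)
    (two : ∀ z, occ z (P ++ [x]) + occ (sinv z) (P ++ [x]) + occ z (Q ++ [y])
      + occ (sinv z) (Q ++ [y]) = 2)
    (sgn : ∀ z, (occ z (P ++ [x]) : ℤ) - occ (sinv z) (P ++ [x])
      = occ z (Q ++ [y]) - occ (sinv z) (Q ++ [y]))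
    (hlab : slab lab x = slab lab y) (hw : wpr lab P = wpr lab Q) :
    Fil 3 ((fan lab 1 (P ++ [x]) - fan lab 1 (Q ++ [y])) -
      (fan lab 1 (P.map (rho x y)) - fan lab 1 (Q.map (rho x y)))) := by
  have hd : Pre (⟨fun σ => if σ then P ++ [x] else Q ++ [y], fun _ => 0, fun _ => (), fun _ => (),
      lab⟩ : Dat A Unit G) := by
    refine ⟨two, sgn, ?_⟩
    change wpr lab (P ++ [x]) = wpr lab (Q ++ [y])
    rw [wpr_append, wpr_append, hw, wpr_cons, wpr_cons, hlab]
  refine (fil_merge16 hd (τ := true) (P := P) (Q := Q) rfl rfl hlab hxy).neg.of_eq (le_refl _) ?_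
  change -((fan lab 1 (P.map (rho x y)) - fan lab 1 (Q.map (rho x y))) -
    (fan lab 1 (P ++ [x]) - fan lab 1 (Q ++ [y]))) = _
  abel

end pre

end Pool.Agent.Lib.MP_e3aa0a_gt.FLG
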