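import Pool.Agent.Lib.MP_e3aa0a_gt.FLG.B83

/-!
# FLG, row D (helper83): schemes with reduced rows have a logarithmic filling
-/

set_option autoImplicit false

namespace Pool.Agent.Lib.MP_e3aa0a_gt.FLG

open Pool.Agent.Lib.FVol

section phase

variable {X : Type*} [DecidableEq X] {A : Type*} [DecidableEq A] [Fintype A]

/-- the total length -/
def tot (lab : A → FreeGroup X) : ℕ := ∑ a, (lab a).norm

theorem tot_step {d : Dat A Unit (FreeGroup X)} (h : Red d) {W : Bool → List (A × Bool)}
    {z : Bool → A × Bool} (hz : ∀ σ, d.row σ = W σ ++ [z σ]) (τ : Bool)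
    (hlt : (d.lab (z !τ).1).norm < (d.lab (z τ).1).norm) :
    tot (FVol.step d τ (z τ) (z !τ) (W τ) (W !τ)).lab < tot d.lab := by
  have h1 := h.suffix hz τ hlt.le
  have h2 := h.one_le (z !τ).1
  have hself : slab (FVol.step d τ (z τ) (z !τ) (W τ) (W !τ)).lab (z τ) =
    slab d.lab (z τ) * (slab d.lab (z !τ))⁻¹ := step_slab_self
  refine Finset.sum_lt_sum (fun a _ => ?_) ⟨(z τ).1, Finset.mem_univ _, ?_⟩
  · by_cases ha : a = (z τ).1
    · subst ha
      rw [← norm_slab _ (z τ), hself]
      omega
    · rw [step_lab_of_ne ha]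
  · rw [← norm_slab _ (z τ), hself]
    omega

/-- the end of a phase: the last letters have the same length -/
theorem exists_end (a0 : A) : ∀ (n : ℕ) (d : Dat A Unit (FreeGroup X)), Red d → tot d.lab = n →
    ∃ (d' : Dat A Unit (FreeGroup X)) (W : Bool → List (A × Bool)) (z : Bool → A × Bool),
      Relation.ReflTransGen Rv d d' ∧ Red d' ∧ (∀ σ, d'.row σ = W σ ++ [z σ]) ∧
      (d'.lab (z true).1).norm = (d'.lab (z false).1).norm ∧ tot d'.lab ≤ tot d.lab := by
  intro n
  induction n using Nat.strong_induction_on with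
  | _ n ih =>
    intro d hd hn
    obtain ⟨W, z, hz⟩ := hd.last a0
    rcases lt_trichotomy (d.lab (z true).1).norm (d.lab (z false).1).norm with h | h | h
    · have hst := hd.step hz false (by simpa using h)
      have ht := tot_step hd hz false (by simpa using h)
      obtain ⟨d', W', z', h1, h2, h3, h4, h5⟩ := ih _ (by rw [← hn]; exact ht) _ hst.2 rfl
      exact ⟨d', W', z', Relation.ReflTransGen.head hst.1 h1, h2, h3, h4, h5.trans ht.le⟩
    · exact ⟨d, W, z, Relation.ReflTransGen.refl, hd, hz, h, le_refl _⟩
    · have hst := hd.step hz true (by simpa using h)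
      have ht := tot_step hd hz true (by simpa using h)
      obtain ⟨d', W', z', h1, h2, h3, h4, h5⟩ := ih _ (by rw [← hn]; exact ht) _ hst.2 rfl
      exact ⟨d', W', z', Relation.ReflTransGen.head hst.1 h1, h2, h3, h4, h5.trans ht.le⟩

theorem logb_mono' {a b : ℝ} (h1 : 0 < a) (h : a ≤ b) : Real.logb 2 a ≤ Real.logb 2 b :=
  Real.logb_le_logb_of_le (by norm_num) h1 h

/-- the cost of a phase -/
theorem phase_cost {d d' : Dat A Unit (FreeGroup X)} (hd : Red d) (hd' : Red d')
    (h : Relation.ReflTransGen Rv d d') :
    Fil ((56 * (Fintype.card A : ℝ) + 73) * ((Fintype.card A : ℝ) + 2) *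
      (Fintype.card A * Real.logb 2 (1 + tot d.lab) + 1)) (cyc d' - cyc d) := by
  obtain ⟨h', hp⟩ := lift_path h (fun _ => 1)
  have h1 := path_cost (s0 := (d, fun _ => 1)) (s := (d', h')) hd.good (fun _ => le_refl _) hp
  refine h1.mono ?_
  have hn : (0:ℝ) ≤ Fintype.card A := Nat.cast_nonneg _
  refine mul_le_mul_of_nonneg_left ?_ (by positivity)
  have h2 : ∀ a, Real.logb 2 (h' a) ≤ Real.logb 2 (1 + tot d.lab) := by
    intro a
    have h3 := height_le (d := d) (s := (d', h')) hd.good hp a
    have h4 : (1:ℝ) ≤ d'.lam a := by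
      rw [hd'.len]
      exact_mod_cast hd'.one_le a
    have h5 : ∑ b, d.lam b = (tot d.lab : ℝ) := by
      unfold tot
      push_cast
      exact Finset.sum_congr rfl fun b _ => hd.len b
    have h6 : h' a ≤ tot d.lab := by
      refine h3.trans ?_
      rw [h5]
      exact div_le_self (Nat.cast_nonneg _) h4
    have h7 : 1 ≤ h' a := one_le_of_path (s0 := (d, fun _ => 1)) (s := (d', h'))
      (fun _ => le_refl _) hp a
    exact logb_mono' (by linarith) (by linarith)
  have h3 : ∑ b, Real.logb 2 (h' b) ≤ ∑ _b : A, Real.logb 2 (1 + tot d.lab) :=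
    Finset.sum_le_sum fun b _ => h2 b
  rw [Finset.sum_const, Finset.card_univ, nsmul_eq_mul] at h3
  simp only
  linarith

/-- the datum of a scheme -/
noncomputable def dat (lab : A → FreeGroup X) (row : Bool → List (A × Bool)) :
    Dat A Unit (FreeGroup X) where
  row := row
  lam := fun a => ((lab a).norm : ℝ)
  src := fun _ => ()
  tgt := fun _ => ()
  lab := lab

theorem comp_unit {G : Type*} (d : Dat A Unit G) (W : List (A × Bool)) : ∀ v w, comp d v W w := by
  induction W with
  | nil => intro v w; exact Subsingleton.elim _ _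
  | cons z W ih => intro v w; exact ⟨Subsingleton.elim _ _, ih _ _⟩

theorem red_dat {lab : A → FreeGroup X} {L : List (Bool → List (A × Bool))}
    (h1 : ∀ a, lab a ≠ 1) (hs : Sch (brow L)) (hb : ∀ b ∈ L, RCE lab b) :
    Red (dat lab (brow L)) where
  good :=
    { two := hs.two
      sgn := hs.sgn
      pos := fun a => by
        have : 0 < (lab a).norm := by
          rcases Nat.eq_zero_or_pos (lab a).norm with h | h
          · exact absurd (FreeGroup.norm_eq_zero.1 h) (h1 a)
          · exact h
        show (0:ℝ) < ((lab a).norm : ℝ)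
        exact_mod_cast this
      rel := wpr_brow hb
      cmp := ⟨(), (), comp_unit _ _ _ _, comp_unit _ _ _ _⟩ }
  len := fun _ => rfl
  blk := ⟨L, fun _ => rfl, hb⟩

end phase

section merge

variable {X : Type*} [DecidableEq X] {A : Type*} [DecidableEq A]

theorem slab_ren {G : Type*} [Group G] {lab : A → G} {x y : A × Bool}
    (h : slab lab x = slab lab y) (z : A × Bool) : slab lab (ren x y z) = slab lab z := by
  unfold ren
  split_ifs with h1 h2
  · rw [h, h1]
  · rw [slab_sinv, h, h2, slab_sinv]
  · rfl

theorem wpr_ren {G : Type*} [Group G] {lab : A → G} {x y : A × Bool}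
    (h : slab lab x = slab lab y) (W : List (A × Bool)) :
    wpr lab (W.map (ren x y)) = wpr lab W := by
  rw [wpr, wpr, List.map_map]
  congr 2
  funext z
  exact slab_ren h z

theorem tlen_ren {lab : A → FreeGroup X} {x y : A × Bool}
    (h : slab lab x = slab lab y) (W : List (A × Bool)) :
    tlen lab (W.map (ren x y)) = tlen lab W := by
  unfold tlen
  rw [List.map_map]
  congr 2
  funext z
  show (lab (ren x y z).1).norm = (lab z.1).norm
  rw [← norm_slab, slab_ren h, norm_slab]

theorem RCE.ren {lab : A → FreeGroup X} {x y : A × Bool}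
    (h : slab lab x = slab lab y) {b : Bool → List (A × Bool)} (hb : RCE lab b) :
    RCE lab (fun σ => (b σ).map (FLG.ren x y)) := by
  refine ⟨?_, fun σ => ?_⟩
  · show wpr lab ((b true).map _) = wpr lab ((b false).map _)
    rw [wpr_ren h, wpr_ren h]
    exact hb.1
  · show (wpr lab ((b σ).map _)).norm = tlen lab ((b σ).map _)
    rw [wpr_ren h, tlen_ren h]
    exact hb.2 σ

theorem ren_ne {x y : A × Bool} (hxy : y.1 ≠ x.1) (z : A × Bool) : (ren x y z).1 ≠ y.1 := by
  unfold ren
  split_ifs with h1 h2
  · exact fun e => hxy e.symm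
  · exact fun e => hxy e.symm
  · intro e
    rcases eq_or_sinv e with e | e
    · exact h1 e
    · exact h2 e

theorem occ_ren {x y : A × Bool} (hxy : y.1 ≠ x.1) {z : A × Bool} (hz : z.1 ≠ y.1)
    (W : List (A × Bool)) : occ z (W.map (ren x y)) =
      occ z W + (if z = x then occ y W else 0) + (if z = sinv x then occ (sinv y) W else 0) := by
  induction W with
  | nil => simp
  | cons u W ih =>
    rw [List.map_cons, occ_cons, occ_cons, occ_cons, occ_cons, ih]
    have hzy : z ≠ y := fun e => hz (by rw [e])
    have hzy' : z ≠ sinv y := fun e => hz (by rw [e]; rfl)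
    by_cases h1 : u = y
    · subst h1
      have e1 : ren x u u = x := by simp [ren]
      have e2 : ¬ u = sinv u := (sinv_ne u).symm
      have e3 : ¬ u = z := fun e => hzy e.symm
      rw [e1]
      simp only [e2, e3, if_true, if_false, eq_comm (a := x) (b := z)]
      split_ifs <;> omega
    · by_cases h2 : u = sinv y
      · subst h2
        have e1 : ren x y (sinv y) = sinv x := by simp [ren, sinv_ne]
        have e3 : ¬ sinv y = z := fun e => hzy' e.symm
        rw [e1]
        simp only [h1, e3, if_true, if_false, eq_comm (a := sinv x) (b := z)]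
        split_ifs <;> omega
      · have e1 : ren x y u = u := by simp [ren, h1, h2]
        rw [e1]
        simp only [h1, h2, if_false]
        split_ifs <;> omega

theorem sch_merge {x y : A × Bool} (hxy : y.1 ≠ x.1) {W : Bool → List (A × Bool)}
    (hs : Sch (fun σ => if σ then W true ++ [x] else W false ++ [y])) {v : A × Bool}
    (hv : v.1 ≠ y.1) :
    occ v ((W true).map (ren x y)) + occ (sinv v) ((W true).map (ren x y)) +
        occ v ((W false).map (ren x y)) + occ (sinv v) ((W false).map (ren x y)) = 2 ∧
      (occ v ((W true).map (ren x y)) : ℤ) - occ (sinv v) ((W true).map (ren x y)) =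
        occ v ((W false).map (ren x y)) - occ (sinv v) ((W false).map (ren x y)) := by
  have hyx : ¬ y = x := fun e => hxy (by rw [e])
  have hyx' : ¬ y = sinv x := fun e => hxy (by rw [e]; rfl)
  have hxy1 : ¬ x = y := fun e => hyx e.symm
  have hxy2 : ¬ x = sinv y := fun e => hyx' (by rw [e, sinv_sinv])
  have hxx : ¬ x = sinv x := (sinv_ne x).symm
  have hyy : ¬ y = sinv y := (sinv_ne y).symm
  have hxx' : ¬ sinv x = x := sinv_ne x
  have a1 := hs.two x
  have a2 := hs.two y
  have b1 := hs.sgn x
  have b2 := hs.sgn y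
  simp only [if_true, Bool.false_eq_true, if_false, occ_append, occ_cons, occ_nil, hyx, hyx', hxy1,
    hxy2, hxx, hyy] at a1 a2 b1 b2
  push_cast at b1 b2
  rw [occ_ren hxy hv, occ_ren hxy hv, occ_ren hxy (z := sinv v) hv, occ_ren hxy (z := sinv v) hv]
  by_cases c1 : v = x
  · subst c1
    simp only [hxx, hxx', if_true, if_false]
    push_cast
    constructor <;> omega
  · by_cases c2 : v = sinv x
    · subst c2
      simp only [hxx, hxx', if_true, if_false, sinv_sinv]
      push_cast
      constructor <;> omega
    · have c3 : ¬ sinv v = x := fun e => c2 (by rw [← e, sinv_sinv])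
      have c4 : ¬ sinv v = sinv x := fun e => c1 (by rw [← sinv_sinv v, e, sinv_sinv])
      have c5 : ¬ x = v := fun e => c1 e.symm
      have c6 : ¬ x = sinv v := fun e => c3 e.symm
      have c7 : ¬ y = v := fun e => hv (by rw [e])
      have c8 : ¬ y = sinv v := fun e => hv (by rw [e]; rfl)
      have a3 := hs.two v
      have b3 := hs.sgn v
      simp only [if_true, Bool.false_eq_true, if_false, occ_append, occ_cons, occ_nil, c5, c6, c7,
        c8] at a3 b3
      push_cast at b3
      simp only [c1, c2, c3, c4, if_false]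
      push_cast
      constructor <;> omega

end merge

section restrict

variable {X : Type*} [DecidableEq X] {A A' : Type*} [DecidableEq A] [DecidableEq A']

/-- transport of words along a map of letters -/
def upm (ι : A' → A) (z : A' × Bool) : A × Bool := (ι z.1, z.2)

theorem slab_up {G : Type*} [Group G] (lab : A → G) (ι : A' → A) (z : A' × Bool) :
    slab lab (upm ι z) = slab (fun a => lab (ι a)) z := rfl

theorem wpr_up {G : Type*} [Group G] (lab : A → G) (ι : A' → A) (W : List (A' × Bool)) :
    wpr lab (W.map (upm ι)) = wpr (fun a => lab (ι a)) W := by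
  rw [wpr, wpr, List.map_map]
  rfl

theorem tlen_up (lab : A → FreeGroup X) (ι : A' → A) (W : List (A' × Bool)) :
    tlen lab (W.map (upm ι)) = tlen (fun a => lab (ι a)) W := by
  unfold tlen
  rw [List.map_map]
  rfl

theorem fan_up {G : Type*} [Group G] (lab : A → G) (ι : A' → A) (W : List (A' × Bool)) :
    ∀ p : G, fan lab p (W.map (upm ι)) = fan (fun a => lab (ι a)) p W := by
  induction W with
  | nil => intro p; rfl
  | cons z W ih =>
    intro p
    rw [List.map_cons, fan_cons, fan_cons, ih]
    rfl

theorem upm_inj {ι : A' → A} (hι : Function.Injective ι) : Function.Injective (upm ι) := by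
  rintro ⟨a, s⟩ ⟨b, t⟩ h
  simp only [upm, Prod.mk.injEq] at h
  rw [hι h.1, h.2]

theorem sinv_up (ι : A' → A) (z : A' × Bool) : sinv (upm ι z) = upm ι (sinv z) := rfl

theorem occ_up {ι : A' → A} (hι : Function.Injective ι) (z : A' × Bool) (W : List (A' × Bool)) :
    occ (upm ι z) (W.map (upm ι)) = occ z W := by
  induction W with
  | nil => rfl
  | cons u W ih =>
    rw [List.map_cons, occ_cons, occ_cons, ih]
    by_cases h : u = z
    · rw [if_pos h, if_pos (by rw [h])]
    · rw [if_neg h, if_neg fun e => h (upm_inj hι e)]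

/-- words without a letter come from the smaller alphabet -/
theorem exists_up (a0 : A) (W : List (A × Bool)) (h : ∀ z ∈ W, z.1 ≠ a0) :
    ∃ W' : List ({b : A // b ≠ a0} × Bool), W'.map (upm Subtype.val) = W := by
  induction W with
  | nil => exact ⟨[], rfl⟩
  | cons z W ih =>
    obtain ⟨W', hW'⟩ := ih fun z hz => h z (by simp [hz])
    exact ⟨(⟨z.1, h z (by simp)⟩, z.2) :: W', by rw [List.map_cons, hW']; rfl⟩

theorem exists_up_blk (a0 : A) (L : List (Bool → List (A × Bool)))
    (h : ∀ σ, ∀ z ∈ brow L σ, z.1 ≠ a0) :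
    ∃ L' : List (Bool → List ({b : A // b ≠ a0} × Bool)),
      L'.map (fun b σ => (b σ).map (upm Subtype.val)) = L := by
  induction L with
  | nil => exact ⟨[], rfl⟩
  | cons b L ih =>
    obtain ⟨L', hL'⟩ := ih fun σ z hz => h σ z (by rw [brow_cons]; simp [hz])
    have h1 : ∀ σ, ∃ W' : List ({b : A // b ≠ a0} × Bool), W'.map (upm Subtype.val) = b σ :=
      fun σ => exists_up a0 (b σ) fun z hz => h σ z (by rw [brow_cons]; simp [hz])
    choose f hf using h1
    exact ⟨f :: L', by rw [List.map_cons, hL']; congr 1; funext σ; exact hf σ⟩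

theorem brow_map (g : List (A' × Bool) → List (A × Bool)) (h0 : g [] = [])
    (hg : ∀ W W', g (W ++ W') = g W ++ g W') (L : List (Bool → List (A' × Bool))) (σ : Bool) :
    brow (L.map fun b σ => g (b σ)) σ = g (brow L σ) := by
  induction L with
  | nil => exact h0.symm
  | cons b L ih => rw [List.map_cons, brow_cons, brow_cons, hg, ih]

end restrict

section main

variable {X : Type} [DecidableEq X]

/-- the constant for `n` letters -/
noncomputable def cn : ℕ → ℝ
  | 0 => 0
  | n + 1 => (56 * ((n + 1 : ℕ) : ℝ) + 73) * (((n + 1 : ℕ) : ℝ) + 2) * (((n + 1 : ℕ) : ℝ) + 1) +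
      12 + cn n

theorem cn_nonneg : ∀ n, 0 ≤ cn n
  | 0 => le_refl _
  | n + 1 => by
    have := cn_nonneg n
    unfold cn
    positivity

/-- the reduction step of the alphabet: a scheme whose last letters have equal labels has the cycle
of a scheme with one letter less -/
theorem drop_letter {A : Type} [Fintype A] [DecidableEq A] {d : Dat A Unit (FreeGroup X)}
    (hd : Red d) {W : Bool → List (A × Bool)} {z : Bool → A × Bool}
    (hz : ∀ σ, d.row σ = W σ ++ [z σ])
    (he : (d.lab (z true).1).norm = (d.lab (z false).1).norm) :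
    ∃ (a0 : A) (L : List (Bool → List ({b : A // b ≠ a0} × Bool))),
      Sch (brow L) ∧ (∀ b ∈ L, RCE (fun a => d.lab a.1) b) ∧
      Fil 12 (cyc d - (fan (fun a => d.lab a.1) 1 (brow L true) -
        fan (fun a => d.lab a.1) 1 (brow L false))) := by
  -- equal labels
  have hlab : slab d.lab (z true) = slab d.lab (z false) := by
    have h1 := hd.suffix hz true (by simpa using he.ge)
    rw [Bool.not_true] at h1
    have h2 : (slab d.lab (z true) * (slab d.lab (z false))⁻¹).norm = 0 := by omega
    exact mul_inv_eq_one.1 (FreeGroup.norm_eq_zero.1 h2)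
  obtain ⟨L, hL, hb⟩ := hd.blk
  obtain ⟨L', V, hL', hV, hW⟩ :=
    last_block hd.ne _ L rfl hb W z (fun σ => (hL σ).symm.trans (hz σ))
  -- the blocks without the last letters
  have hV' : RCE d.lab V := by
    refine ⟨?_, fun σ => (hV.2 σ).append_88.1⟩
    have h1 : wpr d.lab (V true) * slab d.lab (z true) =
        wpr d.lab (V false) * slab d.lab (z false) := by
      have := hV.1
      simp only [wpr_append, wpr_cons, wpr_nil, mul_one] at this
      exact this
    rw [hlab] at h1
    exact mul_right_cancel h1
  have hbW : ∀ b ∈ L' ++ [V], RCE d.lab b := by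
    intro b hb
    rw [List.mem_append, List.mem_singleton] at hb
    rcases hb with hb | rfl
    · exact hL' b hb
    · exact hV'
  have hbrow : ∀ σ, brow (L' ++ [V]) σ = W σ := fun σ => by
    rw [brow_append, brow_single, hW]
  have hwpr : wpr d.lab (W true) = wpr d.lab (W false) := by
    rw [← hbrow, ← hbrow]
    exact wpr_brow hbW
  have h2 := hd.good.two
  have h3 := hd.good.sgn
  by_cases hx : (z false).1 = (z true).1
  · -- the same letter
    have hzz : z false = z true := by
      rcases eq_or_sinv hx with h | h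
      · exact h
      · exfalso
        have a2 := h2 (z true)
        have a3 := h3 (z true)
        rw [hz, hz, h] at a2 a3
        simp only [occ_append, occ_cons, occ_nil, if_true, sinv_ne, if_false,
          (sinv_ne (z true)).symm] at a2 a3
        push_cast at a3
        omega
    have hno : ∀ σ, ∀ u ∈ W σ, u.1 ≠ (z true).1 := by
      have a2 := h2 (z true)
      rw [hz, hz, hzz] at a2
      simp only [occ_append, occ_cons, occ_nil, if_true, if_false,
        (sinv_ne (z true)).symm] at a2
      intro σ u hu hu1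
      have b1 : occ (z true) (W σ) = 0 := by cases σ <;> omega
      have b2 : occ (sinv (z true)) (W σ) = 0 := by cases σ <;> omega
      rw [occ_eq_zero_iff] at b1 b2
      rcases eq_or_sinv hu1 with h | h
      · exact b1 (h ▸ hu)
      · exact b2 (h ▸ hu)
    obtain ⟨M, hM⟩ := exists_up_blk (z true).1 (L' ++ [V]) (fun σ u hu => by
      rw [hbrow] at hu
      exact hno σ u hu)
    have hMW : ∀ σ, (brow M σ).map (upm Subtype.val) = W σ := by
      intro σ
      rw [← hbrow, ← hM, brow_map (fun l => l.map (upm Subtype.val)) rfl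
        (fun _ _ => List.map_append ..)]
    refine ⟨(z true).1, M, ?_, ?_, ?_⟩
    · have hocc : ∀ (u : {b : A // b ≠ (z true).1} × Bool) σ,
          occ u (brow M σ) = occ (upm Subtype.val u) (d.row σ) := by
        intro u σ
        rw [hz, ← hMW, occ_append, occ_up Subtype.val_injective, occ_cons, occ_nil]
        have : z σ ≠ upm Subtype.val u := by
          intro e
          have e1 : (z σ).1 = u.1.1 := by rw [e]; rfl
          have e2 : (z σ).1 = (z true).1 := by cases σ <;> simp [hzz]
          exact u.1.2 (e1.symm.trans e2)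
        simp [this]
      refine ⟨fun u => ?_, fun u => ?_⟩
      · rw [hocc, hocc, hocc, hocc]
        exact h2 _
      · rw [hocc, hocc, hocc, hocc]
        exact h3 _
    · intro b hb
      have hb' : (fun σ => (b σ).map (upm Subtype.val)) ∈ L' ++ [V] := by
        rw [← hM]
        exact List.mem_map.2 ⟨b, hb, rfl⟩
      have h := hbW _ hb'
      refine ⟨(wpr_up d.lab Subtype.val (b true)).symm.trans
        (h.1.trans (wpr_up d.lab Subtype.val (b false))), fun σ => ?_⟩
      have h4 : (wpr d.lab ((b σ).map (upm Subtype.val))).norm =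
        tlen d.lab ((b σ).map (upm Subtype.val)) := h.2 σ
      rw [wpr_up, tlen_up] at h4
      exact h4
    · refine (Fil.zero' (by norm_num)).of_eq (le_refl _) ?_
      have e : ∀ σ, fan (fun a : {b : A // b ≠ (z true).1} => d.lab a.1) 1 (brow M σ) =
          fan d.lab 1 (W σ) := fun σ => by
        rw [← fan_up, hMW]
      rw [e, e, cyc, hz, hz, fan_append, fan_append, hwpr, hzz]
      abel
  · -- different letters
    let r := ren (z true) (z false)
    have hs : Sch (fun σ => if σ then W true ++ [z true] else W false ++ [z false]) := by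
      refine ⟨fun u => ?_, fun u => ?_⟩
      · have := h2 u
        rw [hz, hz] at this
        simpa using this
      · have := h3 u
        rw [hz, hz] at this
        simpa using this
    have hfil := fil_merge hx hs hlab hwpr
    let N : List (Bool → List (A × Bool)) := (L' ++ [V]).map fun b σ => (b σ).map r
    have hN : ∀ σ, brow N σ = (W σ).map r := by
      intro σ
      show brow ((L' ++ [V]).map fun b σ => (b σ).map r) σ = _
      rw [brow_map (fun l => l.map r) rfl (fun _ _ => List.map_append ..), hbrow]
    obtain ⟨M, hM⟩ := exists_up_blk (z false).1 N (fun σ u hu => by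
      rw [hN, List.mem_map] at hu
      obtain ⟨v, -, rfl⟩ := hu
      exact ren_ne hx v)
    have hMW : ∀ σ, (brow M σ).map (upm Subtype.val) = (W σ).map r := by
      intro σ
      rw [← hN, ← hM, brow_map (fun l => l.map (upm Subtype.val)) rfl
        (fun _ _ => List.map_append ..)]
    refine ⟨(z false).1, M, ?_, ?_, ?_⟩
    · have hocc : ∀ (u : {b : A // b ≠ (z false).1} × Bool) σ,
          occ u (brow M σ) = occ (upm Subtype.val u) ((W σ).map r) := by
        intro u σ
        rw [← hMW, occ_up Subtype.val_injective]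
      have hm := fun v hv => sch_merge (v := v) hx hs hv
      refine ⟨fun u => ?_, fun u => ?_⟩
      · rw [hocc, hocc, hocc, hocc]
        exact (hm (upm Subtype.val u) u.1.2).1
      · rw [hocc, hocc, hocc, hocc]
        exact (hm (upm Subtype.val u) u.1.2).2
    · intro b hb
      have hb' : (fun σ => (b σ).map (upm Subtype.val)) ∈ N := by
        rw [← hM]
        exact List.mem_map.2 ⟨b, hb, rfl⟩
      have h : RCE d.lab (fun σ => (b σ).map (upm Subtype.val)) := by
        obtain ⟨b0, hb0, e⟩ := List.mem_map.1 hb'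
        rw [← e]
        exact (hbW b0 hb0).ren hlab
      refine ⟨(wpr_up d.lab Subtype.val (b true)).symm.trans
        (h.1.trans (wpr_up d.lab Subtype.val (b false))), fun σ => ?_⟩
      have h4 : (wpr d.lab ((b σ).map (upm Subtype.val))).norm =
        tlen d.lab ((b σ).map (upm Subtype.val)) := h.2 σ
      rw [wpr_up, tlen_up] at h4
      exact h4
    · have e : ∀ σ, fan (fun a : {b : A // b ≠ (z false).1} => d.lab a.1) 1 (brow M σ) =
          fan d.lab 1 ((W σ).map r) := fun σ => by
        rw [← fan_up, hMW]
      rw [e, e, cyc, hz, hz]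
      exact hfil

/-- **Schemes with reduced blocks have a logarithmic filling.** -/
theorem fil_scheme : ∀ (n : ℕ) (A : Type) [Fintype A] [DecidableEq A], Fintype.card A = n →
    ∀ (lab : A → FreeGroup X) (L : List (Bool → List (A × Bool))), (∀ a, lab a ≠ 1) →
    Sch (brow L) → (∀ b ∈ L, RCE lab b) → ∀ Λ : ℕ, tot lab ≤ Λ →
    Fil (cn n * (1 + Real.logb 2 (1 + Λ))) (fan lab 1 (brow L true) - fan lab 1 (brow L false)) := by
  intro n
  induction n with
  | zero =>
    intro A _ _ hA lab L h1 hs hb Λ hΛ
    have hE : IsEmpty A := Fintype.card_eq_zero_iff.1 hA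
    have h : ∀ σ, brow L σ = [] := by
      intro σ
      rw [List.eq_nil_iff_forall_not_mem]
      exact fun z _ => hE.elim z.1
    rw [h, h]
    refine (Fil.zero' (by simp [cn])).of_eq (le_refl _) ?_
    simp
  | succ n ih =>
    intro A _ _ hA lab L h1 hs hb Λ hΛ
    have hpos : 0 < Fintype.card A := by omega
    obtain ⟨a1⟩ := Fintype.card_pos_iff.1 hpos
    have hred := red_dat h1 hs hb
    obtain ⟨d', W, z, hp, hd', hz, he, ht⟩ := exists_end a1 _ _ hred rfl
    have hph := phase_cost hred hd' hp
    obtain ⟨a0, M, hM1, hM2, hM3⟩ := drop_letter hd' hz he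
    have hcard : Fintype.card {b : A // b ≠ a0} = n := by
      rw [Fintype.card_subtype_compl, hA]
      simp
    have htot : tot (fun a : {b : A // b ≠ a0} => d'.lab a.1) ≤ Λ := by
      refine le_trans ?_ (ht.trans hΛ)
      show ∑ a : {b : A // b ≠ a0}, (d'.lab a.1).norm ≤ ∑ a, (d'.lab a).norm
      have e : ∑ a : {b : A // b ≠ a0}, (d'.lab a.1).norm =
          ∑ a ∈ Finset.univ.filter (fun b => b ≠ a0), (d'.lab a).norm :=
        (Finset.sum_subtype (Finset.univ.filter (fun b => b ≠ a0)) (by simp)
          (fun a => (d'.lab a).norm)).symm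
      rw [e]
      exact Finset.sum_le_sum_of_subset (Finset.filter_subset _ _)
    have hrec := ih {b : A // b ≠ a0} hcard (fun a => d'.lab a.1) M (fun a => hd'.ne a.1) hM1 hM2 Λ
      htot
    have hfin := (hrec.add hM3).sub hph
    refine hfin.of_eq ?_ ?_
    · have hl1 : tot (dat lab (brow L)).lab ≤ Λ := hΛ
      have hl2 : Real.logb 2 (1 + tot (dat lab (brow L)).lab) ≤ Real.logb 2 (1 + Λ) := by
        refine Real.logb_le_logb_of_le (by norm_num) (by positivity) ?_
        have : ((tot (dat lab (brow L)).lab : ℕ) : ℝ) ≤ Λ := by exact_mod_cast hl1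
        linarith
      have hl0 : 0 ≤ Real.logb 2 (1 + Λ) := by
        refine Real.logb_nonneg (by norm_num) ?_
        have : (0:ℝ) ≤ Λ := Nat.cast_nonneg _
        linarith
      rw [hA]
      have hn : (0:ℝ) ≤ ((n + 1 : ℕ) : ℝ) := Nat.cast_nonneg _
      rw [show cn (n + 1) = (56 * ((n + 1 : ℕ) : ℝ) + 73) * (((n + 1 : ℕ) : ℝ) + 2) *
        (((n + 1 : ℕ) : ℝ) + 1) + 12 + cn n from rfl]
      generalize ((n + 1 : ℕ) : ℝ) = N at hn ⊢
      generalize Real.logb 2 (1 + tot (dat lab (brow L)).lab) = t at hl2 ⊢
      generalize Real.logb 2 (1 + (Λ : ℝ)) = l at hl2 hl0 ⊢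
      have hK : 0 ≤ (56 * N + 73) * (N + 2) := by positivity
      have h5 : N * t ≤ N * l := mul_le_mul_of_nonneg_left hl2 hn
      have h6 : 0 ≤ (N + 1) * (1 + l) - (N * t + 1) := by nlinarith
      have h7 := mul_nonneg hK h6
      nlinarith
    · show _ = cyc (dat lab (brow L))
      abel

end main

end Pool.Agent.Lib.MP_e3aa0a_gt.FLG
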