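import Pool.Agent.Lib.FVol.Path
import Pool.Agent.Lib.FVol.Cycle

/-!
# FLG: schemes with labels in a free group (helper83)

The lengths of the letters are the word lengths of the labels, the rows consist of blocks which are
reduced products.
-/

set_option autoImplicit false

namespace Pool.Agent.Lib.MP_e3aa0a_gt.FLG

open Pool.Agent.Lib.FVol

section defs

variable {X : Type*} [DecidableEq X] {A : Type*}

/-- the sum of the word lengths of the labels -/
def tlen (lab : A → FreeGroup X) (W : List (A × Bool)) : ℕ :=
  (W.map fun z => (lab z.1).norm).sum

/-- the product of the labels is reduced: lengths add -/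
def RC (lab : A → FreeGroup X) (W : List (A × Bool)) : Prop :=
  (wpr lab W).norm = tlen lab W

/-- a block: two reduced products with the same value -/
def RCE (lab : A → FreeGroup X) (b : Bool → List (A × Bool)) : Prop :=
  wpr lab (b true) = wpr lab (b false) ∧ ∀ σ, RC lab (b σ)

/-- the rows made of the blocks -/
def brow (L : List (Bool → List (A × Bool))) (σ : Bool) : List (A × Bool) :=
  (L.map fun b => b σ).flatten

/-- the scheme: every letter occurs twice, with the right signs -/
structure Sch [DecidableEq A] (row : Bool → List (A × Bool)) : Prop where
  two : ∀ z, occ z (row true) + occ (sinv z) (row true) + occ z (row false)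
    + occ (sinv z) (row false) = 2
  sgn : ∀ z, (occ z (row true) : ℤ) - occ (sinv z) (row true)
    = occ z (row false) - occ (sinv z) (row false)

/-- rename the letter of `y` into the letter of `x` -/
def ren [DecidableEq A] (x y z : A × Bool) : A × Bool :=
  if z = y then x else if z = sinv y then sinv x else z

end defs

end Pool.Agent.Lib.MP_e3aa0a_gt.FLG
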