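import Pool.Agent.Lib.FVol.Cycle

/-!
Project FLG (MP_e3aa0a_gt), row E (helper21): from a 2-cycle of the bar complex to a two-row scheme.

Every simplex `[g|h]` of the cycle is a tripod with legs `al`, `ga`, `be`: `g = al ga`,
`h = ga⁻¹ be`, `g h = al be`. The edges with the sign `+` form one row, those with the sign `-` the
other row, so that corresponding blocks have the same label.
-/

set_option autoImplicit false

namespace Pool.Agent.Lib.MP_e3aa0a_gt.FLG.E21

open Pool.Agent.Lib.FVol

/-! ### Lists -/

theorem exists_perm_map {α β : Type*} (f : α → β) : ∀ (l1 l2 : List α),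
    (l1.map f).Perm (l2.map f) → ∃ l2' : List α, l2'.Perm l2 ∧ l2'.map f = l1.map f := by
  intro l1
  induction l1 with
  | nil =>
    intro l2 h
    rw [List.map_nil] at h
    have h1 := h.nil_eq
    refine ⟨l2, List.Perm.refl _, ?_⟩
    rw [← h1]
    rfl
  | cons a l1 ih =>
    intro l2 h
    have hmem : f a ∈ l2.map f := h.subset (by simp)
    obtain ⟨b, hb, hfb⟩ := List.mem_map.1 hmem
    obtain ⟨P, Q, rfl⟩ := List.append_of_mem hb
    have h1 : (f a :: l1.map f).Perm (f a :: (P ++ Q).map f) := by
      refine h.trans ?_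
      rw [List.map_append, List.map_cons, List.map_append, hfb]
      exact List.perm_middle
    obtain ⟨l2', h2, h3⟩ := ih (P ++ Q) h1.cons_inv
    exact ⟨b :: l2', (h2.cons b).trans List.perm_middle.symm, by
      rw [List.map_cons, List.map_cons, h3, hfb]⟩

theorem sum_single_count {G : Type*} [DecidableEq G] (l : List G) (g : G) :
    ((l.map fun a => Finsupp.single a (1 : ℤ)).sum : G →₀ ℤ) g = (l.count g : ℤ) := by
  induction l with
  | nil => simp
  | cons a l ih =>
    rw [List.map_cons, List.sum_cons, Finsupp.add_apply, ih, List.count_cons]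
    by_cases h : a = g
    · subst h
      simp
      ring
    · simp [h]

theorem perm_of_single {G : Type*} {l1 l2 : List G}
    (h : (l1.map fun a => Finsupp.single a (1 : ℤ)).sum =
      (l2.map fun a => Finsupp.single a (1 : ℤ)).sum) : l1.Perm l2 := by
  classical
  rw [List.perm_iff_count]
  intro g
  have := congrArg (fun c : G →₀ ℤ => c g) h
  simp only [sum_single_count] at this
  exact_mod_cast this

section occ

variable {A : Type*} [DecidableEq A]

theorem occ_flatten {ι : Type*} (f : ι → List (A × Bool)) (z : A × Bool) (L : List ι) :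
    occ z (L.map f).flatten = (L.map fun e => occ z (f e)).sum := by
  induction L with
  | nil => rfl
  | cons a L ih => rw [List.map_cons, List.flatten_cons, occ_append, ih]; rfl

end occ

/-! ### The blocks -/

/-- the three edges of a tripod in terms of the legs `0 = al`, `1 = ga`, `2 = be` -/
def blk3 (m : Fin 3) : List (Fin 3 × Bool) :=
  ![[(0, true), (1, true)], [(1, false), (2, true)], [(0, true), (2, true)]] m

variable {N : ℕ}

/-- the block of an edge -/
def blk (e : Fin N × Fin 3) : List ((Fin N × Fin 3) × Bool) :=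
  (blk3 e.2).map fun w => ((e.1, w.1), w.2)

theorem length_blk (e : Fin N × Fin 3) : (blk e).length = 2 := by
  obtain ⟨i, m⟩ := e
  fin_cases m <;> rfl

theorem occ_map_pair (j i : Fin N) (k : Fin 3) (b : Bool) (W : List (Fin 3 × Bool)) :
    occ ((j, k), b) (W.map fun w => ((i, w.1), w.2)) = if i = j then occ (k, b) W else 0 := by
  induction W with
  | nil => simp
  | cons w W ih =>
    rw [List.map_cons, occ_cons, occ_cons, ih]
    by_cases h : i = j
    · subst h
      simp [Prod.ext_iff]
    · simp [h, Prod.ext_iff]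

theorem occ_blk (j : Fin N) (k : Fin 3) (b : Bool) (e : Fin N × Fin 3) :
    occ ((j, k), b) (blk e) = if e.1 = j then occ (k, b) (blk3 e.2) else 0 :=
  occ_map_pair j e.1 k b (blk3 e.2)

theorem two3 : ∀ (k : Fin 3) (b : Bool), ∑ m : Fin 3, (occ (k, b) (blk3 m) +
    occ (k, !b) (blk3 m)) = 2 := by decide

/-- the sign of an edge -/
def esg (s : Bool) (m : Fin 3) : Bool := ![s, s, !s] m

theorem sgn3 : ∀ (s b : Bool) (k : Fin 3), ∑ m : Fin 3,
    (if esg s m then ((occ (k, b) (blk3 m) : ℤ) - occ (k, !b) (blk3 m))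
      else -((occ (k, b) (blk3 m) : ℤ) - occ (k, !b) (blk3 m))) = 0 := by decide

section data

variable {G : Type*} [Group G]

/-- the labels of the legs -/
def leg (al ga be : Fin N → G) (a : Fin N × Fin 3) : G := ![al a.1, ga a.1, be a.1] a.2

/-- the labels of the edges -/
def edl (x : Fin N → G × G) (e : Fin N × Fin 3) : G :=
  ![(x e.1).1, (x e.1).2, (x e.1).1 * (x e.1).2] e.2

theorem wpr_blk {x : Fin N → G × G} {al ga be : Fin N → G} (h1 : ∀ i, al i * ga i = (x i).1)
    (h2 : ∀ i, (ga i)⁻¹ * be i = (x i).2) (e : Fin N × Fin 3) :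
    wpr (leg al ga be) (blk e) = edl x e := by
  obtain ⟨i, m⟩ := e
  fin_cases m
  · simp [blk, blk3, wpr, slab, leg, edl, h1]
  · simp [blk, blk3, wpr, slab, leg, edl, h2]
  · simp [blk, blk3, wpr, slab, leg, edl, ← h1, ← h2, mul_assoc]

theorem wpr_flatten {A ι : Type*} (f : A → G) (g : ι → List (A × Bool)) (L : List ι) :
    wpr f (L.map g).flatten = (L.map fun e => wpr f (g e)).prod := by
  induction L with
  | nil => rfl
  | cons a L ih => rw [List.map_cons, List.flatten_cons, wpr_append, ih]; rfl

/-- the correction for the prefixes -/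
noncomputable def tpre : G → List G → C2 G
  | _, [] => 0
  | p, g :: l => (e2 p g - e2 p 1) + tpre (p * g) l

theorem fan_blocks {A ι : Type*} (f : A → G) (g : ι → List (A × Bool))
    (hg : ∀ e, (g e).length = 2) (L : List ι) : ∀ p : G,
    Fil (2 * (L.length : ℝ)) (fan f p (L.map g).flatten - (L.map fun e => fan f 1 (g e)).sum -
      tpre p (L.map fun e => wpr f (g e))) := by
  induction L with
  | nil =>
    intro p
    refine Fil.zero.of_eq (by simp) ?_
    simp [tpre]
  | cons a L ih =>
    intro p
    have h1 := fan_shift_one f p (g a)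
    have h2 := ih (p * wpr f (g a))
    rw [hg] at h1
    refine (h1.add h2).of_eq ?_ ?_
    · rw [List.length_cons]
      push_cast
      linarith
    · rw [List.map_cons, List.flatten_cons, fan_append, List.map_cons, List.sum_cons,
        List.map_cons, tpre]
      abel

/-- the tripod -/
theorem fil_tripod (al ga be : G) :
    Fil 4 ((e2 1 al + e2 al ga) + (e2 1 ga⁻¹ + -(e2 ga ga⁻¹ + e2 1 1) + e2 ga⁻¹ be) -
      (e2 1 al + e2 al be) - (e2 1 1 - e2 (al * ga) (ga⁻¹ * be))) := by
  have h1 := (fil_e3 al ga (ga⁻¹ * be)).neg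
  have h2 := fil_e3 ga ga⁻¹ be
  have h3 := fil_one_left be
  have h4 := fil_one_left ga⁻¹
  refine (((h1.add h2).add h3).add h4).of_eq (by norm_num) ?_
  have e1 : ga * (ga⁻¹ * be) = be := by group
  rw [e1, mul_inv_cancel]
  abel

theorem fan_blk_sum (al ga be : Fin N → G) (i : Fin N) :
    Fil 4 (fan (leg al ga be) 1 (blk (i, 0)) + fan (leg al ga be) 1 (blk (i, 1)) -
      fan (leg al ga be) 1 (blk (i, 2)) -
      (e2 1 1 - e2 (al i * ga i) ((ga i)⁻¹ * be i))) := by
  refine (fil_tripod (al i) (ga i) (be i)).of_eq (le_refl _) ?_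
  simp [blk, blk3, fan, slab, kap, leg]

theorem Fil_sum {ι : Type*} (s : Finset ι) {r : ℝ} {c : ι → C2 G} (h : ∀ i ∈ s, Fil r (c i)) :
    Fil (s.card * r) (∑ i ∈ s, c i) := by
  classical
  induction s using Finset.induction_on with
  | empty => exact Fil.zero.of_eq (by simp) (by simp)
  | insert a s ha ih =>
    rw [Finset.sum_insert ha, Finset.card_insert_of_notMem ha]
    refine ((h a (by simp)).add (ih fun i hi => h i (by simp [hi]))).of_eq ?_ rfl
    push_cast
    linarith

/-! ### A chain as a list of signed simplices -/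

/-- a signed simplex -/
noncomputable def sgE (y : (G × G) × Bool) : C2 G := if y.2 then e2 y.1.1 y.1.2 else - e2 y.1.1 y.1.2

theorem exists_list (c : C2 G) : ∃ S : List ((G × G) × Bool), S.length = nrm c ∧
    (∀ y ∈ S, y.1 ∈ c.support) ∧ (S.map sgE).sum = c := by
  classical
  refine ⟨c.support.toList.flatMap fun x => List.replicate (c x).natAbs (x, decide (0 ≤ c x)),
    ?_, ?_, ?_⟩
  · rw [List.length_flatMap]
    simp only [List.length_replicate]
    rw [Finset.sum_map_toList]
    rfl
  · intro y hy
    obtain ⟨x, hx, hy⟩ := List.mem_flatMap.1 hy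
    rw [(List.mem_replicate.1 hy).2]
    exact Finset.mem_toList.1 hx
  · have key : ∀ l : List (G × G),
        ((l.flatMap fun x => List.replicate (c x).natAbs (x, decide (0 ≤ c x))).map sgE).sum =
        (l.map fun x => c x • e2 x.1 x.2).sum := by
      intro l
      induction l with
      | nil => rfl
      | cons x l ih =>
        rw [List.flatMap_cons, List.map_append, List.sum_append, ih, List.map_cons, List.sum_cons,
          List.map_replicate, List.sum_replicate]
        congr 1
        by_cases h : 0 ≤ c x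
        · simp only [sgE, h, decide_true, if_true]
          rw [← natCast_zsmul, Int.natAbs_of_nonneg h]
        · simp only [sgE, h, decide_false, Bool.false_eq_true, if_false]
          rw [← natCast_zsmul, smul_neg, ← neg_smul]
          congr 1
          omega
    rw [key, Finset.sum_map_toList]
    conv_rhs => rw [← Finsupp.sum_single c]
    refine Finset.sum_congr rfl fun x _ => ?_
    simp [e2]

theorem comp_unit {A : Type*} (d : Dat A Unit G) (W : List (A × Bool)) : comp d () W () := by
  induction W with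
  | nil => rfl
  | cons z W ih => exact ⟨rfl, ih⟩

/-- **from a 2-cycle to a two-row scheme** -/
theorem scheme21 (c : C2 G) (hc : bd2 G c = 0) (al ga be : G × G → G)
    (h1 : ∀ x ∈ c.support, al x * ga x = x.1) (h2 : ∀ x ∈ c.support, (ga x)⁻¹ * be x = x.2)
    (lam : G → ℝ) :
    ∃ (N : ℕ) (x : Fin N → G × G) (d : Dat (Fin N × Fin 3) Unit G)
      (Lp Lm : List (Fin N × Fin 3)), N = nrm c ∧ (∀ i, x i ∈ c.support) ∧
      d.lab = leg (fun i => al (x i)) (fun i => ga (x i)) (fun i => be (x i)) ∧
      (∀ a, d.lam a = lam (d.lab a)) ∧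
      d.row true = (Lp.map blk).flatten ∧ d.row false = (Lm.map blk).flatten ∧
      Lp.map (edl x) = Lm.map (edl x) ∧ (∀ e, wpr d.lab (blk e) = edl x e) ∧
      (∀ z, occ z (d.row true) + occ (sinv z) (d.row true) + occ z (d.row false)
        + occ (sinv z) (d.row false) = 2) ∧
      (∀ z, (occ z (d.row true) : ℤ) - occ (sinv z) (d.row true)
        = occ z (d.row false) - occ (sinv z) (d.row false)) ∧
      wpr d.lab (d.row true) = wpr d.lab (d.row false) ∧
      (∃ v w, comp d v (d.row true) w ∧ comp d v (d.row false) w) ∧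
      Fil (10 * (nrm c : ℝ)) (cyc d + c) := by
  classical
  obtain ⟨S, hS1, hS2, hS3⟩ := exists_list c
  set N := S.length with hN
  let x : Fin N → G × G := fun i => (S[i.1]).1
  let s : Fin N → Bool := fun i => (S[i.1]).2
  have hx : ∀ i, x i ∈ c.support := fun i => hS2 _ (List.getElem_mem _)
  have hsum : c = ∑ i, if s i then e2 (x i).1 (x i).2 else - e2 (x i).1 (x i).2 := by
    conv_lhs => rw [← hS3]
    exact (Fin.sum_univ_fun_getElem S sgE).symm
  let E : Finset (Fin N × Fin 3) := Finset.univ
  let Lp : List (Fin N × Fin 3) := (Finset.univ.filter fun e => esg (s e.1) e.2 = true).toList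
  let Lm0 : List (Fin N × Fin 3) :=
    (Finset.univ.filter fun e => ¬ esg (s e.1) e.2 = true).toList
  -- the boundary
  have hb : ∑ e : Fin N × Fin 3, (if esg (s e.1) e.2 then Finsupp.single (edl x e) (1 : ℤ)
      else - Finsupp.single (edl x e) (1 : ℤ)) = 0 := by
    rw [← hc, hsum, map_sum, Fintype.sum_prod_type]
    refine Finset.sum_congr rfl fun i _ => ?_
    rw [Fin.sum_univ_three]
    cases hs : s i
    · simp [esg, edl, bd2_e2]
      abel
    · simp [esg, edl, bd2_e2]
      abel
  have hb2 : (Lp.map fun e => Finsupp.single (edl x e) (1 : ℤ)).sum =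
      (Lm0.map fun e => Finsupp.single (edl x e) (1 : ℤ)).sum := by
    rw [Finset.sum_map_toList, Finset.sum_map_toList]
    rw [Finset.sum_ite, Finset.sum_neg_distrib] at hb
    exact sub_eq_zero.1 (by rw [sub_eq_add_neg]; exact hb)
  have hperm : (Lp.map (edl x)).Perm (Lm0.map (edl x)) := by
    apply perm_of_single
    rw [List.map_map, List.map_map]
    exact hb2
  obtain ⟨Lm, hLm1, hLm2⟩ := exists_perm_map (edl x) Lp Lm0 hperm
  have sumLp : ∀ {M : Type} [AddCommMonoid M] (f : Fin N × Fin 3 → M), (Lp.map f).sum =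
      ∑ e ∈ Finset.univ.filter (fun e : Fin N × Fin 3 => esg (s e.1) e.2 = true), f e :=
    fun f => Finset.sum_map_toList _ f
  have sumLm : ∀ {M : Type} [AddCommMonoid M] (f : Fin N × Fin 3 → M), (Lm.map f).sum =
      ∑ e ∈ Finset.univ.filter (fun e : Fin N × Fin 3 => ¬ esg (s e.1) e.2 = true), f e :=
    fun f => by rw [(hLm1.map f).sum_eq]; exact Finset.sum_map_toList _ f
  let lb : Fin N × Fin 3 → G := leg (fun i => al (x i)) (fun i => ga (x i)) (fun i => be (x i))
  let d : Dat (Fin N × Fin 3) Unit G :=
    { row := fun σ => if σ then (Lp.map blk).flatten else (Lm.map blk).flatten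
      lam := fun a => lam (lb a)
      src := fun _ => ()
      tgt := fun _ => ()
      lab := lb }
  have r1 : d.row true = (Lp.map blk).flatten := rfl
  have r2 : d.row false = (Lm.map blk).flatten := rfl
  have hw : ∀ e, wpr d.lab (blk e) = edl x e :=
    wpr_blk (fun i => h1 _ (hx i)) (fun i => h2 _ (hx i))
  have hrel : wpr d.lab (d.row true) = wpr d.lab (d.row false) := by
    rw [r1, r2, wpr_flatten, wpr_flatten]
    simp only [hw]
    rw [hLm2]
  refine ⟨N, x, d, Lp, Lm, hS1, hx, rfl, fun a => rfl, r1, r2, hLm2.symm, hw, ?_, ?_, hrel,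
    ⟨(), (), comp_unit d _, comp_unit d _⟩, ?_⟩
  · rintro ⟨⟨j, k⟩, b⟩
    rw [r1, r2, occ_flatten, occ_flatten, occ_flatten, occ_flatten, sumLp, sumLp, sumLm, sumLm]
    have e1 : (∑ e ∈ Finset.univ.filter (fun e : Fin N × Fin 3 => esg (s e.1) e.2 = true),
          occ ((j, k), b) (blk e)) +
        (∑ e ∈ Finset.univ.filter (fun e : Fin N × Fin 3 => ¬ esg (s e.1) e.2 = true),
          occ ((j, k), b) (blk e)) = ∑ e : Fin N × Fin 3, occ ((j, k), b) (blk e) :=
      Finset.sum_filter_add_sum_filter_not _ _ _
    have e2 : (∑ e ∈ Finset.univ.filter (fun e : Fin N × Fin 3 => esg (s e.1) e.2 = true),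
          occ (sinv ((j, k), b)) (blk e)) +
        (∑ e ∈ Finset.univ.filter (fun e : Fin N × Fin 3 => ¬ esg (s e.1) e.2 = true),
          occ (sinv ((j, k), b)) (blk e)) = ∑ e : Fin N × Fin 3, occ (sinv ((j, k), b)) (blk e) :=
      Finset.sum_filter_add_sum_filter_not _ _ _
    have e3 : (∑ e : Fin N × Fin 3, occ ((j, k), b) (blk e)) +
        ∑ e : Fin N × Fin 3, occ (sinv ((j, k), b)) (blk e) = 2 := by
      rw [← Finset.sum_add_distrib, Fintype.sum_prod_type, Finset.sum_eq_single j]
      · have := two3 k b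
        rw [← this]
        refine Finset.sum_congr rfl fun m _ => ?_
        have hs : sinv ((j, k), b) = ((j, k), !b) := rfl
        rw [hs, occ_blk, occ_blk]
        simp
      · intro i _ hij
        refine Finset.sum_eq_zero fun m _ => ?_
        have hs : sinv ((j, k), b) = ((j, k), !b) := rfl
        rw [hs, occ_blk, occ_blk]
        simp [hij]
      · intro h
        exact absurd (Finset.mem_univ _) h
    omega
  · rintro ⟨⟨j, k⟩, b⟩
    have hs : sinv ((j, k), b) = ((j, k), !b) := rfl
    rw [r1, r2, occ_flatten, occ_flatten, occ_flatten, occ_flatten, sumLp, sumLp, sumLm, sumLm, hs]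
    push_cast
    rw [← Finset.sum_sub_distrib, ← Finset.sum_sub_distrib]
    have e1 : (∑ e ∈ Finset.univ.filter (fun e : Fin N × Fin 3 => esg (s e.1) e.2 = true),
          ((occ ((j, k), b) (blk e) : ℤ) - occ ((j, k), !b) (blk e))) -
        (∑ e ∈ Finset.univ.filter (fun e : Fin N × Fin 3 => ¬ esg (s e.1) e.2 = true),
          ((occ ((j, k), b) (blk e) : ℤ) - occ ((j, k), !b) (blk e))) =
        ∑ e : Fin N × Fin 3, (if esg (s e.1) e.2 then
          ((occ ((j, k), b) (blk e) : ℤ) - occ ((j, k), !b) (blk e)) else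
          -((occ ((j, k), b) (blk e) : ℤ) - occ ((j, k), !b) (blk e))) := by
      rw [Finset.sum_ite, Finset.sum_neg_distrib, sub_eq_add_neg]
    have e2 : ∑ e : Fin N × Fin 3, (if esg (s e.1) e.2 then
          ((occ ((j, k), b) (blk e) : ℤ) - occ ((j, k), !b) (blk e)) else
          -((occ ((j, k), b) (blk e) : ℤ) - occ ((j, k), !b) (blk e))) = 0 := by
      rw [Fintype.sum_prod_type, Finset.sum_eq_single j]
      · rw [← sgn3 (s j) b k]
        refine Finset.sum_congr rfl fun m _ => ?_
        rw [occ_blk, occ_blk]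
        simp
      · intro i _ hij
        refine Finset.sum_eq_zero fun m _ => ?_
        rw [occ_blk, occ_blk]
        simp [hij]
      · intro h
        exact absurd (Finset.mem_univ _) h
    linarith
  · -- the cycle
    have f1 := fan_blocks d.lab blk length_blk Lp 1
    have f2 := fan_blocks d.lab blk length_blk Lm 1
    have hlen : (Lp.length : ℝ) + Lm.length = 3 * N := by
      have e1 : Lp.length + Lm.length = 3 * N := by
        have a1 := sumLp (M := ℕ) (fun _ => 1)
        have a2 := sumLm (M := ℕ) (fun _ => 1)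
        have a3 : (∑ e ∈ Finset.univ.filter (fun e : Fin N × Fin 3 => esg (s e.1) e.2 = true), 1) +
          (∑ e ∈ Finset.univ.filter (fun e : Fin N × Fin 3 => ¬ esg (s e.1) e.2 = true), 1) =
            ∑ e : Fin N × Fin 3, 1 := Finset.sum_filter_add_sum_filter_not _ _ _
        simp only [List.map_const', List.sum_replicate, smul_eq_mul, mul_one] at a1 a2
        simp only [Finset.sum_const, Finset.card_univ, Fintype.card_prod, Fintype.card_fin,
          smul_eq_mul, mul_one] at a1 a2 a3
        omega
      exact_mod_cast e1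
    have hT : tpre 1 (Lp.map fun e => wpr d.lab (blk e)) =
        tpre 1 (Lm.map fun e => wpr d.lab (blk e)) := by
      simp only [hw]
      rw [hLm2]
    -- the sum over the tripods
    have g1 : (Lp.map fun e => fan d.lab 1 (blk e)).sum - (Lm.map fun e => fan d.lab 1 (blk e)).sum
        = ∑ i, (if s i then (fan d.lab 1 (blk (i, 0)) + fan d.lab 1 (blk (i, 1)) -
            fan d.lab 1 (blk (i, 2))) else
          -(fan d.lab 1 (blk (i, 0)) + fan d.lab 1 (blk (i, 1)) - fan d.lab 1 (blk (i, 2)))) := by
      have a1 : (Lp.map fun e => fan d.lab 1 (blk e)).sum =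
          ∑ e ∈ Finset.univ.filter (fun e : Fin N × Fin 3 => esg (s e.1) e.2 = true),
            fan d.lab 1 (blk e) := Finset.sum_map_toList _ _
      have a2 : (Lm.map fun e => fan d.lab 1 (blk e)).sum =
          ∑ e ∈ Finset.univ.filter (fun e : Fin N × Fin 3 => ¬ esg (s e.1) e.2 = true),
            fan d.lab 1 (blk e) := by
        rw [(hLm1.map _).sum_eq]
        exact Finset.sum_map_toList _ _
      rw [a1, a2, sub_eq_add_neg, ← Finset.sum_neg_distrib, ← Finset.sum_ite,
        Fintype.sum_prod_type]
      refine Finset.sum_congr rfl fun i _ => ?_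
      rw [Fin.sum_univ_three]
      cases hs : s i
      · simp [esg]
        abel
      · simp [esg]
        abel
    have g2 : Fil ((Finset.univ : Finset (Fin N)).card * 4) (∑ i, ((if s i then
          (fan d.lab 1 (blk (i, 0)) + fan d.lab 1 (blk (i, 1)) - fan d.lab 1 (blk (i, 2))) else
          -(fan d.lab 1 (blk (i, 0)) + fan d.lab 1 (blk (i, 1)) - fan d.lab 1 (blk (i, 2)))) -
          (if s i then (e2 1 1 - e2 (x i).1 (x i).2) else -(e2 1 1 - e2 (x i).1 (x i).2)))) := by
      refine Fil_sum _ fun i _ => ?_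
      have h := fan_blk_sum (fun i => al (x i)) (fun i => ga (x i)) (fun i => be (x i)) i
      simp only [h1 _ (hx i), h2 _ (hx i)] at h
      cases hs : s i
      · refine h.neg.of_eq (le_refl _) ?_
        simp only [Bool.false_eq_true, if_false]
        show -(fan lb 1 (blk (i, 0)) + fan lb 1 (blk (i, 1)) - fan lb 1 (blk (i, 2)) -
          (e2 1 1 - e2 (x i).1 (x i).2)) = -(fan lb 1 (blk (i, 0)) + fan lb 1 (blk (i, 1)) -
          fan lb 1 (blk (i, 2))) - -(e2 1 1 - e2 (x i).1 (x i).2)
        abel
      · refine h.of_eq (le_refl _) ?_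
        simp only [if_true]
        rfl
    -- the number of signs
    have hs0 : ∑ i, (if s i then (1 : ℤ) else -1) = 0 := by
      have a1 : Lp.length = Lm.length := by
        have := congrArg List.length hLm2
        simpa using this.symm
      have a2 := sumLp (M := ℤ) (fun _ => 1)
      have a3 := sumLm (M := ℤ) (fun _ => 1)
      have a4 : ∑ e : Fin N × Fin 3, (if esg (s e.1) e.2 then (1 : ℤ) else -1) =
          ∑ i, (if s i then (1 : ℤ) else -1) := by
        rw [Fintype.sum_prod_type]
        refine Finset.sum_congr rfl fun i _ => ?_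
        rw [Fin.sum_univ_three]
        cases hs : s i <;> simp [esg]
      rw [← a4, Finset.sum_ite, Finset.sum_neg_distrib, ← a2, ← a3]
      simp [a1]
    have g3 : ∑ i, (if s i then (e2 1 1 - e2 (x i).1 (x i).2) else
        -(e2 1 1 - e2 (x i).1 (x i).2)) = - c := by
      have : ∀ i, (if s i then (e2 (1 : G) 1 - e2 (x i).1 (x i).2) else
          -(e2 1 1 - e2 (x i).1 (x i).2)) = (if s i then (1 : ℤ) else -1) • e2 (1 : G) 1 -
          (if s i then e2 (x i).1 (x i).2 else - e2 (x i).1 (x i).2) := by
        intro i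
        cases hs : s i
        · simp only [Bool.false_eq_true, if_false]
          rw [neg_one_zsmul]
          abel
        · simp
      rw [Finset.sum_congr rfl fun i _ => this i, Finset.sum_sub_distrib, ← Finset.sum_smul, hs0,
        zero_smul, ← hsum, zero_sub]
    rw [Finset.sum_sub_distrib, ← g1, g3] at g2
    refine ((f1.sub f2).add g2).of_eq ?_ ?_
    · rw [Finset.card_univ, Fintype.card_fin, ← hS1]
      linarith
    · rw [cyc, r1, r2, hT]
      abel

end data

end Pool.Agent.Lib.MP_e3aa0a_gt.FLG.E21
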