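import Pool.Agent.Lib.MP_e3aa0a_gt.FLG.E21
import Pool.Agent.Lib.MP_e3aa0a_gt.FLG.Defs83

/-!
Project FLG (MP_e3aa0a_gt), row E (helper21), second part: the scheme of a 2-cycle of a free group;
the legs with trivial label are erased.
-/

set_option autoImplicit false

namespace Pool.Agent.Lib.MP_e3aa0a_gt.FLG.E21

open Pool.Agent.Lib.FVol

section erase

variable {B G : Type*} [Group G]

open Classical in
/-- a signed letter, if its label is not trivial -/
noncomputable def er (lab : B → G) (z : B × Bool) : Option ({a : B // lab a ≠ 1} × Bool) :=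
  if h : lab z.1 ≠ 1 then some (⟨z.1, h⟩, z.2) else none

theorem er_pos {lab : B → G} {z : B × Bool} (h : lab z.1 ≠ 1) :
    er lab z = some (⟨z.1, h⟩, z.2) := by
  rw [er, dif_pos h]

theorem er_neg {lab : B → G} {z : B × Bool} (h : lab z.1 = 1) : er lab z = none := by
  rw [er, dif_neg (by simpa using h)]

/-- the labels of the remaining letters -/
def slb (lab : B → G) (a : {a : B // lab a ≠ 1}) : G := lab a.1

theorem occ_er [DecidableEq B] {lab : B → G} [DecidableEq {a : B // lab a ≠ 1}]
    (z : {a : B // lab a ≠ 1} × Bool)
    (W : List (B × Bool)) : occ z (W.filterMap (er lab)) = occ (z.1.1, z.2) W := by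
  induction W with
  | nil => rfl
  | cons w W ih =>
    by_cases h : lab w.1 = 1
    · rw [List.filterMap_cons, er_neg h, occ_cons, ih]
      have : w ≠ (z.1.1, z.2) := by
        rintro rfl
        exact z.1.2 h
      simp [this]
    · rw [List.filterMap_cons, er_pos h, occ_cons, occ_cons, ih]
      congr 1
      have : ((⟨w.1, h⟩, w.2) : {a : B // lab a ≠ 1} × Bool) = z ↔ w = (z.1.1, z.2) := by
        constructor
        · rintro rfl
          rfl
        · intro h1
          rcases z with ⟨⟨a, ha⟩, b⟩
          rcases w with ⟨w1, w2⟩
          simp only [Prod.mk.injEq] at h1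
          simp only [Prod.mk.injEq, Subtype.mk.injEq]
          exact h1
      by_cases h2 : w = (z.1.1, z.2)
      · rw [if_pos (this.2 h2), if_pos h2]
      · rw [if_neg (fun h3 => h2 (this.1 h3)), if_neg h2]

theorem wpr_er {lab : B → G} (W : List (B × Bool)) :
    wpr (slb lab) (W.filterMap (er lab)) = wpr lab W := by
  induction W with
  | nil => rfl
  | cons w W ih =>
    by_cases h : lab w.1 = 1
    · rw [List.filterMap_cons, er_neg h, wpr_cons, ih]
      have : slab lab w = 1 := by
        rw [slab]
        split_ifs <;> simp [h]
      rw [this, one_mul]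
    · rw [List.filterMap_cons, er_pos h, wpr_cons, wpr_cons, ih]
      rfl

theorem filterMap_flatten {ι α β : Type*} (f : α → Option β) (g : ι → List α) (L : List ι) :
    ((L.map g).flatten).filterMap f = (L.map fun e => (g e).filterMap f).flatten := by
  induction L with
  | nil => rfl
  | cons a L ih => rw [List.map_cons, List.flatten_cons, List.filterMap_append, ih]; rfl

open Classical in
/-- the weight of the erased letters -/
noncomputable def wte (lab : B → G) (z : B × Bool) : C2 G :=
  if lab z.1 = 1 then (if z.2 then e2 1 1 else - e2 1 1) else 0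

theorem fan_er {lab : B → G} (W : List (B × Bool)) : ∀ p : G,
    Fil (W.length : ℝ) (fan lab p W - fan (slb lab) p (W.filterMap (er lab)) -
      (W.map (wte lab)).sum) := by
  induction W with
  | nil =>
    intro p
    refine Fil.zero.of_eq (by simp) ?_
    simp
  | cons w W ih =>
    intro p
    by_cases h : lab w.1 = 1
    · have hs : slab lab w = 1 := by
        rw [slab]
        split_ifs <;> simp [h]
      have h1 := ih p
      have h2 := fil_one_right p
      rw [List.filterMap_cons, er_neg h, fan_cons, hs, mul_one, List.map_cons, List.sum_cons]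
      refine (h1.add h2).of_eq (by rw [List.length_cons]; push_cast; linarith) ?_
      rw [wte, if_pos h, kap]
      split_ifs
      · abel
      · rw [h, inv_one]
        abel
    · have h1 := ih (p * slab lab w)
      rw [List.filterMap_cons, er_pos h]
      dsimp only
      rw [fan_cons, fan_cons, List.map_cons, List.sum_cons, wte, if_neg h]
      have e1 : slab (slb lab) ((⟨w.1, h⟩, w.2) : {a : B // lab a ≠ 1} × Bool) = slab lab w := rfl
      have e2' : kap (slb lab) ((⟨w.1, h⟩, w.2) : {a : B // lab a ≠ 1} × Bool) = kap lab w := rfl
      rw [e1, e2']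
      refine h1.of_eq (by rw [List.length_cons]; push_cast; linarith) ?_
      abel

theorem wte_sum [DecidableEq B] [Fintype B] (lab : B → G) (W : List (B × Bool)) :
    (W.map (wte lab)).sum = ∑ a, ((occ (a, true) W : ℤ) - occ (a, false) W) • wte lab (a, true) := by
  rw [← ssum_eq (fun a => wte lab (a, true)) W]
  induction W with
  | nil => rfl
  | cons z W ih =>
    rw [List.map_cons, List.sum_cons, ih, ssum]
    congr 1
    rcases z with ⟨a, s⟩
    cases s
    · simp only [wte, Bool.false_eq_true, if_false, if_true]
      split_ifs
      · rfl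
      · simp
    · simp

end erase

/-! ### The scheme -/

section free

variable {X : Type} [DecidableEq X]

theorem tlen_nil {A : Type*} (lab : A → FreeGroup X) : tlen lab [] = 0 := rfl

theorem tlen_cons {A : Type*} (lab : A → FreeGroup X) (z : A × Bool) (W : List (A × Bool)) :
    tlen lab (z :: W) = (lab z.1).norm + tlen lab W := by simp [tlen]

theorem tlen_er {B : Type*} {lab : B → FreeGroup X} (W : List (B × Bool)) :
    tlen (slb lab) (W.filterMap (er lab)) = tlen lab W := by
  induction W with
  | nil => rfl
  | cons w W ih =>
    by_cases h : lab w.1 = 1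
    · rw [List.filterMap_cons, er_neg h, tlen_cons, ih, h]
      simp
    · rw [List.filterMap_cons, er_pos h]
      dsimp only
      rw [tlen_cons, tlen_cons, ih]
      rfl

/-- **from a 2-cycle of a free group to a scheme** (with the tripods as hypothesis) -/
theorem exists_scheme_of_tripod (htri : ∀ g h : FreeGroup X, ∃ α β γ : FreeGroup X, g = α * γ ∧
      h = γ⁻¹ * β ∧ g.norm = α.norm + γ.norm ∧ h.norm = γ.norm + β.norm ∧
      (g * h).norm = α.norm + β.norm) (k L : ℕ) (c : C2 (FreeGroup X))
    (hc : bd2 (FreeGroup X) c = 0) (hk : nrm c ≤ k)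
    (hL : ∀ p ∈ c.support, p.1.norm ≤ L ∧ p.2.norm ≤ L) :
    ∃ (A : Type) (_ : Fintype A) (_ : DecidableEq A) (lab : A → FreeGroup X)
      (blk : List (Bool → List (A × Bool))), Fintype.card A ≤ 3 * k ∧ (∀ a, lab a ≠ 1) ∧
      (∀ a, (lab a).norm ≤ L) ∧ Sch (brow blk) ∧ (∀ b ∈ blk, RCE lab b) ∧
      Fil (100 * (k + 1)) (c - (fan lab 1 (brow blk true) - fan lab 1 (brow blk false))) := by
  classical
  choose al0 be0 ga0 t1 t2 t3 t4 t5 using htri
  obtain ⟨N, x, d, Lp, Lm, hN, hx, hlab, -, r1, r2, hL2, hw, htwo, hsgn, hrel, -, hfil⟩ :=
    scheme21 c hc (fun y => al0 y.1 y.2) (fun y => ga0 y.1 y.2) (fun y => be0 y.1 y.2)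
      (fun y _ => (t1 y.1 y.2).symm) (fun y _ => (t2 y.1 y.2).symm) (fun _ => 1)
  -- lengths of the blocks
  have hblk : ∀ e, tlen d.lab (blk e) = (edl x e).norm := by
    rintro ⟨i, m⟩
    rw [hlab]
    fin_cases m
    · simp [blk, blk3, tlen, leg, edl, t3 (x i).1 (x i).2]
    · simp [blk, blk3, tlen, leg, edl, t4 (x i).1 (x i).2]
    · simp [blk, blk3, tlen, leg, edl, t5 (x i).1 (x i).2]
  have hleg : ∀ a, (d.lab a).norm ≤ L := by
    rintro ⟨i, m⟩
    have h1 := hL _ (hx i)
    have h2 := t3 (x i).1 (x i).2
    have h3 := t4 (x i).1 (x i).2
    rw [hlab]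
    fin_cases m
    · simp only [leg]
      show (al0 (x i).1 (x i).2).norm ≤ L
      omega
    · simp only [leg]
      show (ga0 (x i).1 (x i).2).norm ≤ L
      omega
    · simp only [leg]
      show (be0 (x i).1 (x i).2).norm ≤ L
      omega
  let eb : Fin N × Fin 3 → List ({a // d.lab a ≠ 1} × Bool) := fun e => (blk e).filterMap (er d.lab)
  let bl : List (Bool → List ({a // d.lab a ≠ 1} × Bool)) :=
    List.zipWith (fun e e' σ => if σ then eb e' else eb e) Lp Lm
  have hlen : Lp.length = Lm.length := by
    have := congrArg List.length hL2
    simpa using this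
  have hb1 : brow bl true = (d.row false).filterMap (er d.lab) := by
    rw [r2, filterMap_flatten, brow]
    congr 1
    show (List.zipWith _ Lp Lm).map _ = _
    rw [List.map_zipWith]
    simp only [if_true]
    have : ∀ (P Q : List (Fin N × Fin 3)), P.length = Q.length →
        List.zipWith (fun _ y => eb y) P Q = Q.map eb := by
      intro P
      induction P with
      | nil =>
        intro Q h
        have : Q = [] := List.length_eq_zero_iff.1 h.symm
        subst this
        rfl
      | cons p P ih =>
        intro Q h
        cases Q with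
        | nil => simp at h
        | cons q Q =>
          rw [List.zipWith_cons_cons, List.map_cons, ih Q (by simpa using h)]
    exact this Lp Lm hlen
  have hb2 : brow bl false = (d.row true).filterMap (er d.lab) := by
    rw [r1, filterMap_flatten, brow]
    congr 1
    show (List.zipWith _ Lp Lm).map _ = _
    rw [List.map_zipWith]
    simp only [Bool.false_eq_true, if_false]
    have : ∀ (P Q : List (Fin N × Fin 3)), P.length = Q.length →
        List.zipWith (fun y _ => eb y) P Q = P.map eb := by
      intro P
      induction P with
      | nil => intro Q _; rfl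
      | cons p P ih =>
        intro Q h
        cases Q with
        | nil => simp at h
        | cons q Q =>
          rw [List.zipWith_cons_cons, List.map_cons, ih Q (by simpa using h)]
    exact this Lp Lm hlen
  refine ⟨{a // d.lab a ≠ 1}, inferInstance, inferInstance, slb d.lab, bl, ?_, fun a => a.2,
    fun a => hleg a.1, ⟨?_, ?_⟩, ?_, ?_⟩
  · refine (Fintype.card_subtype_le _).trans ?_
    rw [Fintype.card_prod, Fintype.card_fin, Fintype.card_fin, hN]
    omega
  · intro z
    rw [hb1, hb2, occ_er, occ_er, occ_er, occ_er]
    have := htwo (z.1.1, z.2)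
    have e : ((sinv z).1.1, (sinv z).2) = sinv (z.1.1, z.2) := rfl
    rw [e]
    omega
  · intro z
    rw [hb1, hb2, occ_er, occ_er, occ_er, occ_er]
    have := hsgn (z.1.1, z.2)
    have e : ((sinv z).1.1, (sinv z).2) = sinv (z.1.1, z.2) := rfl
    rw [e]
    omega
  · -- the blocks
    have key : ∀ (P Q : List (Fin N × Fin 3)), P.map (edl x) = Q.map (edl x) →
        ∀ b ∈ List.zipWith (fun e e' σ => if σ then eb e' else eb e) P Q, RCE (slb d.lab) b := by
      intro P
      induction P with
      | nil => intro Q _ b hb; simp at hb
      | cons p P ih =>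
        intro Q h b hb
        cases Q with
        | nil => simp at hb
        | cons q Q =>
          rw [List.map_cons, List.map_cons, List.cons.injEq] at h
          rw [List.zipWith_cons_cons, List.mem_cons] at hb
          rcases hb with rfl | hb
          · refine ⟨?_, fun σ => ?_⟩
            · show wpr (slb d.lab) (eb q) = wpr (slb d.lab) (eb p)
              rw [wpr_er, wpr_er, hw, hw, h.1]
            · have : ∀ e, RC (slb d.lab) (eb e) := fun e => by
                rw [RC, wpr_er, tlen_er, hw, hblk]
              cases σ
              · exact this p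
              · exact this q
          · exact ih Q h.2 b hb
    exact key Lp Lm hL2
  · -- the filling
    have f1 := fan_er (lab := d.lab) (d.row true) 1
    have f2 := fan_er (lab := d.lab) (d.row false) 1
    have hsum : ((d.row true).map (wte d.lab)).sum = ((d.row false).map (wte d.lab)).sum := by
      rw [wte_sum, wte_sum]
      refine Finset.sum_congr rfl fun a _ => ?_
      have := hsgn (a, true)
      rw [show sinv (a, true) = (a, false) from rfl] at this
      rw [this]
    have hl : ((d.row true).length : ℝ) + (d.row false).length ≤ 6 * N := by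
      have e1 : ∀ P : List (Fin N × Fin 3), ((P.map blk).flatten).length = 2 * P.length := by
        intro P
        induction P with
        | nil => rfl
        | cons p P ih =>
          rw [List.map_cons, List.flatten_cons, List.length_append, ih, length_blk,
            List.length_cons]
          ring
      have e2 : (d.row true).length + (d.row false).length = 2 * Fintype.card (Fin N × Fin 3) := by
        have h1 : ∀ W : List ((Fin N × Fin 3) × Bool), ∑ z, occ (sinv z) W = ∑ z, occ z W :=
          fun W => Equiv.sum_comp (sinvE (A := Fin N × Fin 3)) (fun z => occ z W)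
        have h2 : ∑ z : (Fin N × Fin 3) × Bool, (occ z (d.row true) + occ (sinv z) (d.row true) +
            occ z (d.row false) + occ (sinv z) (d.row false)) =
            ∑ _z : (Fin N × Fin 3) × Bool, 2 := Finset.sum_congr rfl fun z _ => htwo z
        simp only [Finset.sum_add_distrib, h1, ← length_eq, Finset.sum_const, Finset.card_univ,
          Fintype.card_prod, Fintype.card_bool, smul_eq_mul] at h2
        simp only [Fintype.card_prod]
        omega
      have e3 : (d.row true).length + (d.row false).length ≤ 6 * N := by
        rw [e2, Fintype.card_prod, Fintype.card_fin, Fintype.card_fin]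
        omega
      exact_mod_cast e3
    have hk' : (nrm c : ℝ) ≤ k := by exact_mod_cast hk
    have hN' : (N : ℝ) = nrm c := by exact_mod_cast hN
    have h0 : (0:ℝ) ≤ nrm c := Nat.cast_nonneg _
    refine ((hfil.sub f1).add f2).of_eq ?_ ?_
    · nlinarith
    · rw [hb1, hb2, hsum, cyc]
      abel

end free

end Pool.Agent.Lib.MP_e3aa0a_gt.FLG.E21
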