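import Pool.Agent.Lib.MP_e3aa0a_gt.FLG.E21b
import Pool.Agent.Lib.MP_e3aa0a_gt.FLG.A88

/-!
Project FLG (MP_e3aa0a_gt), row E (helper21), third part: the statement of row E, with the tripods
of row A (helper88).
-/

set_option autoImplicit false

namespace Pool.Agent.Lib.MP_e3aa0a_gt.FLG

open Pool.Agent.Lib.FVol

theorem exists_scheme {X : Type} [DecidableEq X] (k L : ℕ) (c : C2 (FreeGroup X))
    (hc : bd2 (FreeGroup X) c = 0) (hk : nrm c ≤ k)
    (hL : ∀ p ∈ c.support, p.1.norm ≤ L ∧ p.2.norm ≤ L) :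
    ∃ (A : Type) (_ : Fintype A) (_ : DecidableEq A) (lab : A → FreeGroup X)
      (blk : List (Bool → List (A × Bool))), Fintype.card A ≤ 3 * k ∧ (∀ a, lab a ≠ 1) ∧
      (∀ a, (lab a).norm ≤ L) ∧ Sch (brow blk) ∧ (∀ b ∈ blk, RCE lab b) ∧
      Fil (100 * (k + 1)) (c - (fan lab 1 (brow blk true) - fan lab 1 (brow blk false))) :=
  E21.exists_scheme_of_tripod tripod_88 k L c hc hk hL

end Pool.Agent.Lib.MP_e3aa0a_gt.FLG
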