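import Pool.Agent.Lib.MP_e3aa0a_gt.FVL.DefsFin72

/-!
# FLG, row F (second half): from the bound for one mapping class to the filling volume
-/

set_option autoImplicit false

namespace Pool.Agent.Lib.MP_e3aa0a_gt.FLG

open Pool.Agent.Lib.FVol Pool.Agent.Lib.MP_e3aa0a_gt.FVL Filter Topology

section words

variable {X : Type} [DecidableEq X]

theorem norm_hom_mk31 {M : ℕ} (w : FreeGroup X →* FreeGroup X)
    (h : ∀ x, (w (FreeGroup.of x)).norm ≤ M) (L : List (X × Bool)) :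
    (w (FreeGroup.mk L)).norm ≤ L.length * M := by
  induction L with
  | nil =>
    have e : (FreeGroup.mk ([] : List (X × Bool))) = 1 := rfl
    rw [e, map_one, FreeGroup.norm_one]
    exact Nat.zero_le _
  | cons z L ih =>
    have e : FreeGroup.mk (z :: L) = FreeGroup.mk [z] * FreeGroup.mk L := by
      rw [FreeGroup.mul_mk]
      rfl
    have e2 : (w (FreeGroup.mk [z])).norm ≤ M := by
      rcases z with ⟨x, s⟩
      cases s
      · have e3 : FreeGroup.mk [(x, false)] = (FreeGroup.of x)⁻¹ := by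
          rw [FreeGroup.of, FreeGroup.inv_mk]
          rfl
        rw [e3, map_inv, FreeGroup.norm_inv_eq]
        exact h x
      · exact h x
    rw [e, map_mul, List.length_cons]
    refine (FreeGroup.norm_mul_le _ _).trans ?_
    rw [Nat.succ_mul]
    omega

theorem norm_hom31 {M : ℕ} (w : FreeGroup X →* FreeGroup X)
    (h : ∀ x, (w (FreeGroup.of x)).norm ≤ M) (y : FreeGroup X) :
    (w y).norm ≤ y.norm * M := by
  have := norm_hom_mk31 w h y.toWord
  rwa [FreeGroup.mk_toWord] at this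

/-- the conjugators of the iterates -/
def uu31 (Φ : FreeGroup X →* FreeGroup X) (u : FreeGroup X) : ℕ → FreeGroup X
  | 0 => 1
  | n + 1 => hpow Φ n u * uu31 Φ u n

omit [DecidableEq X] in
theorem hpow_succ31 {G : Type*} [Group G] (Φ : G →* G) (n : ℕ) :
    hpow Φ (n + 1) = (hpow Φ n).comp Φ := by
  rw [hpow_add]
  rfl

omit [DecidableEq X] in
theorem uu31_spec {Φ : FreeGroup X →* FreeGroup X} {u R : FreeGroup X}
    (h : Φ R = u * R * u⁻¹) (n : ℕ) :
    hpow Φ n R = uu31 Φ u n * R * (uu31 Φ u n)⁻¹ := by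
  induction n with
  | zero =>
    show R = 1 * R * 1⁻¹
    group
  | succ n ih =>
    rw [hpow_succ31, MonoidHom.comp_apply, h, map_mul, map_mul, map_inv, ih, uu31]
    group

theorem uu31_norm {Φ : FreeGroup X →* FreeGroup X} {u : FreeGroup X} {M : ℕ → ℕ}
    (h : ∀ n x, (hpow Φ n (FreeGroup.of x)).norm ≤ M n) (n : ℕ) :
    (uu31 Φ u n).norm ≤ u.norm * ∑ j ∈ Finset.range n, M j := by
  induction n with
  | zero =>
    rw [uu31, FreeGroup.norm_one]
    exact Nat.zero_le _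
  | succ n ih =>
    rw [uu31, Finset.sum_range_succ, Nat.mul_add]
    refine (FreeGroup.norm_mul_le _ _).trans ?_
    have := norm_hom31 (hpow Φ n) (h n) u
    omega

end words

/-- the length of an endomorphism of the free group -/
noncomputable def mlen31 {X : Type} [Fintype X] [DecidableEq X]
    (w : FreeGroup X →* FreeGroup X) : ℕ :=
  Finset.univ.sup fun x => (w (FreeGroup.of x)).norm

theorem le_mlen31 {X : Type} [Fintype X] [DecidableEq X] (w : FreeGroup X →* FreeGroup X) (x : X) :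
    (w (FreeGroup.of x)).norm ≤ mlen31 w :=
  Finset.le_sup (f := fun x => (w (FreeGroup.of x)).norm) (Finset.mem_univ x)

/-- an exponential bound from the growth rate -/
theorem exp_bound31 {M : ℕ → ℕ} {μ ν : ℝ} (hμ : 1 < μ) (hν : μ < ν)
    (h : Tendsto (fun n : ℕ => Real.log (M n) / n) atTop (𝓝 (Real.log μ))) :
    ∃ K : ℝ, 1 ≤ K ∧ ∀ n, (M n : ℝ) ≤ K * ν ^ n := by
  have hν0 : 0 < ν := by linarith
  have h1 : ∀ᶠ n : ℕ in atTop, Real.log (M n) / n < Real.log ν :=
    h.eventually_lt_const (Real.log_lt_log (by linarith) hν)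
  obtain ⟨N, hN⟩ := (h1.and (eventually_gt_atTop 0)).exists_forall_of_atTop
  refine ⟨1 + ∑ j ∈ Finset.range N, (M j : ℝ), ?_, fun n => ?_⟩
  · have : (0 : ℝ) ≤ ∑ j ∈ Finset.range N, (M j : ℝ) :=
      Finset.sum_nonneg fun j _ => Nat.cast_nonneg _
    linarith
  have hs : (0 : ℝ) ≤ ∑ j ∈ Finset.range N, (M j : ℝ) :=
    Finset.sum_nonneg fun j _ => Nat.cast_nonneg _
  have hp : 1 ≤ ν ^ n := one_le_pow₀ (by linarith)
  rcases lt_or_ge n N with hn | hn
  · have h2 : (M n : ℝ) ≤ ∑ j ∈ Finset.range N, (M j : ℝ) :=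
      Finset.single_le_sum (f := fun j => (M j : ℝ)) (fun j _ => Nat.cast_nonneg _)
        (Finset.mem_range.2 hn)
    nlinarith
  · obtain ⟨h3, h4⟩ := hN n hn
    have h5 : (M n : ℝ) ≤ ν ^ n := by
      rcases Nat.eq_zero_or_pos (M n) with h0 | h0
      · rw [h0, Nat.cast_zero]
        linarith
      · have hn0 : (0 : ℝ) < n := by exact_mod_cast h4
        have hM : (0 : ℝ) < M n := by exact_mod_cast h0
        rw [div_lt_iff₀ hn0] at h3
        have h6 : Real.log (M n) ≤ Real.log (ν ^ n) := by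
          rw [Real.log_pow, mul_comm]
          exact h3.le
        exact (Real.log_le_log_iff hM (by positivity)).1 h6
    nlinarith

theorem FV_le31 {G : Type*} [Group G] {φ : G →* G} {z : C2 G} (h : IsB (push φ z - z)) {a b : ℝ}
    (hf : ∀ n : ℕ, 1 ≤ n → (hfill (hpow φ n) z : ℝ) ≤ a + b * n) : FV φ z ≤ b := by
  have h1 : Tendsto (fun n : ℕ => a / (n : ℝ) + b) atTop (𝓝 (0 + b)) :=
    (tendsto_const_div_atTop_nhds_zero_nat a).add_const b
  rw [zero_add] at h1
  refine ge_of_tendsto h1 ?_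
  filter_upwards [eventually_ge_atTop 1] with n hn
  have hn0 : (0 : ℝ) < n := by exact_mod_cast hn
  refine (FV_le_div16 h (k := n) (by omega)).trans ?_
  rw [div_le_iff₀ hn0]
  refine (hf n hn).trans (le_of_eq ?_)
  field_simp

theorem logb_bound31 {K ν δ : ℝ} (hK : 1 ≤ K) (hν : 1 < ν) (hδ : 0 < δ) {n : ℕ} {L : ℝ}
    (hL0 : 0 ≤ L) (hL : L ≤ K * (n + 1) * ν ^ n) :
    Real.logb 2 (1 + L) ≤ Real.logb 2 (2 * K * (1 + 1 / δ)) + Real.logb 2 ((1 + δ) * ν) * n := by
  have hp : 1 ≤ ν ^ n := one_le_pow₀ hν.le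
  have hd : 1 ≤ (1 + δ) ^ n := one_le_pow₀ (by linarith)
  have h1 : (n : ℝ) + 1 ≤ (1 + 1 / δ) * (1 + δ) ^ n := by
    have h2 : 1 + (n : ℝ) * δ ≤ (1 + δ) ^ n := one_add_mul_le_pow (by linarith) n
    have h3 : (n : ℝ) ≤ 1 / δ * (1 + δ) ^ n := by
      rw [one_div, inv_mul_eq_div, le_div_iff₀ hδ]
      linarith
    nlinarith
  have h4 : 1 + L ≤ 2 * K * (1 + 1 / δ) * ((1 + δ) * ν) ^ n := by
    have h5 : 1 ≤ K * (n + 1) * ν ^ n := by
      have h6 : (1 : ℝ) ≤ n + 1 := by
        have : (0 : ℝ) ≤ n := Nat.cast_nonneg n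
        linarith
      have h7 : 1 ≤ K * ((n : ℝ) + 1) := by nlinarith
      nlinarith
    have h8 : K * (n + 1) * ν ^ n ≤ K * ((1 + 1 / δ) * (1 + δ) ^ n) * ν ^ n := by
      refine mul_le_mul_of_nonneg_right ?_ (by positivity)
      exact mul_le_mul_of_nonneg_left h1 (by linarith)
    rw [mul_pow]
    nlinarith
  have hδ1 : 0 < 1 + 1 / δ := by positivity
  have h9 : Real.logb 2 (1 + L) ≤ Real.logb 2 (2 * K * (1 + 1 / δ) * ((1 + δ) * ν) ^ n) :=
    Real.logb_le_logb_of_le (by norm_num) (by linarith) h4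
  rw [Real.logb_mul (by positivity) (by positivity), Real.logb_pow] at h9
  linarith

/-- **the limit** -/
theorem upper31 {k : ℕ} {C : ℝ} (hC : 0 < C)
    (hS : ∀ (w : FreeGroup (Gen (k + 1)) →* FreeGroup (Gen (k + 1)))
      (u : FreeGroup (Gen (k + 1))) (θ : SG (k + 1) →* SG (k + 1)) (L : ℕ),
      w (relW (k + 1)) = u * relW (k + 1) * u⁻¹ →
      (∀ x, θ (PresentedGroup.of x) = PresentedGroup.mk _ (w (FreeGroup.of x))) →
      (∀ x, (w (FreeGroup.of x)).norm ≤ L) → u.norm ≤ L →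
      Fil (C * (1 + Real.logb 2 (1 + L))) (push θ (zS k) - zS k))
    (Φ : FreeGroup (Gen (k + 1)) →* FreeGroup (Gen (k + 1)))
    (u : FreeGroup (Gen (k + 1))) (φ : SG (k + 1) →* SG (k + 1)) (μ : ℝ)
    (hΦ : Φ (relW (k + 1)) = u * relW (k + 1) * u⁻¹)
    (hφ : ∀ x, φ (PresentedGroup.mk _ x) = PresentedGroup.mk _ (Φ x)) (hμ : 1 < μ)
    (hg : Tendsto (fun n : ℕ => Real.log (mlen31 (hpow Φ n)) / n) atTop (𝓝 (Real.log μ))) :
    IsB (push φ (zS k) - zS k) ∧ FV φ (zS k) ≤ C / Real.log 2 * Real.log μ := by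
  have hφn : ∀ (n : ℕ) (x : FreeGroup (Gen (k + 1))),
      hpow φ n (PresentedGroup.mk _ x) = PresentedGroup.mk _ (hpow Φ n x) := by
    intro n
    induction n with
    | zero => intro x; rfl
    | succ n ih =>
      intro x
      show φ (hpow φ n (PresentedGroup.mk _ x)) = PresentedGroup.mk _ (Φ (hpow Φ n x))
      rw [ih, hφ]
  have hB : IsB (push φ (zS k) - zS k) := by
    refine Fil.isB16 (hS Φ u φ (max (mlen31 Φ) u.norm) hΦ (fun x => hφ (FreeGroup.of x))
      (fun x => (le_mlen31 Φ x).trans (le_max_left _ _)) (le_max_right _ _))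
  refine ⟨hB, ?_⟩
  have key : ∀ ν : ℝ, μ < ν → ∀ δ : ℝ, 0 < δ → FV φ (zS k) ≤ C * Real.logb 2 ((1 + δ) * ν) := by
    intro ν hν δ hδ
    obtain ⟨K, hK, hM⟩ := exp_bound31 hμ hν hg
    have hν1 : 1 < ν := hμ.trans hν
    have hun : (0 : ℝ) ≤ u.norm := Nat.cast_nonneg _
    refine FV_le31 hB (a := C * (1 + Real.logb 2 (2 * (K * (1 + u.norm)) * (1 + 1 / δ)))) ?_
    intro n _
    have hu : ((uu31 Φ u n).norm : ℝ) ≤ K * (1 + u.norm) * (n + 1) * ν ^ n := by
      have h1 := uu31_norm (Φ := Φ) (u := u) (M := fun n => mlen31 (hpow Φ n))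
        (fun n x => le_mlen31 _ x) n
      have h2 : ((uu31 Φ u n).norm : ℝ) ≤ u.norm * ∑ j ∈ Finset.range n, (mlen31 (hpow Φ j) : ℝ) := by
        exact_mod_cast h1
      have h3 : ∑ j ∈ Finset.range n, (mlen31 (hpow Φ j) : ℝ) ≤ ∑ j ∈ Finset.range n, K * ν ^ n := by
        refine Finset.sum_le_sum fun j hj => (hM j).trans ?_
        refine mul_le_mul_of_nonneg_left ?_ (by linarith)
        exact pow_le_pow_right₀ hν1.le (Finset.mem_range.1 hj).le
      rw [Finset.sum_const, Finset.card_range, nsmul_eq_mul] at h3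
      have h4 : (0 : ℝ) ≤ K * ν ^ n := by positivity
      have hn0 : (0 : ℝ) ≤ n := Nat.cast_nonneg n
      have h5 := mul_le_mul_of_nonneg_left h3 hun
      have h6 : (u.norm : ℝ) * (n * (K * ν ^ n)) ≤ K * (1 + u.norm) * (n + 1) * ν ^ n := by
        have h7 : (u.norm : ℝ) * n ≤ (1 + u.norm) * (n + 1) := by nlinarith
        have h8 := mul_le_mul_of_nonneg_right h7 h4
        nlinarith
      linarith
    have hw : (mlen31 (hpow Φ n) : ℝ) ≤ K * (1 + u.norm) * (n + 1) * ν ^ n := by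
      have h4 : (0 : ℝ) ≤ K * ν ^ n := by positivity
      have hn0 : (0 : ℝ) ≤ n := Nat.cast_nonneg n
      have h7 : (1 : ℝ) ≤ (1 + u.norm) * (n + 1) := by nlinarith
      have h8 := mul_le_mul_of_nonneg_right h7 h4
      have h9 := hM n
      nlinarith
    have hf := hS (hpow Φ n) (uu31 Φ u n) (hpow φ n) (max (mlen31 (hpow Φ n)) (uu31 Φ u n).norm)
      (uu31_spec hΦ n) (fun x => hφn n (FreeGroup.of x))
      (fun x => (le_mlen31 _ x).trans (le_max_left _ _)) (le_max_right _ _)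
    have h1 := fill_le hf
    have h2 := logb_bound31 (K := K * (1 + u.norm)) (ν := ν) (δ := δ) (n := n)
      (L := ((max (mlen31 (hpow Φ n)) (uu31 Φ u n).norm : ℕ) : ℝ)) (by nlinarith) hν1 hδ
      (Nat.cast_nonneg _) (by
        rw [Nat.cast_max]
        exact max_le hw hu)
    have h3 := mul_le_mul_of_nonneg_left h2 hC.le
    show (fill (push (hpow φ n) (zS k) - zS k) : ℝ) ≤ _
    nlinarith
  have hlim : Tendsto (fun t : ℝ => C * Real.logb 2 ((1 + t) * (μ + t))) (𝓝[>] 0)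
      (𝓝 (C * Real.logb 2 ((1 + 0) * (μ + 0)))) := by
    refine Tendsto.mono_left ?_ nhdsWithin_le_nhds
    have hc : ContinuousAt (fun t : ℝ => C * Real.logb 2 ((1 + t) * (μ + t))) 0 := by
      have h1 : ContinuousAt (fun t : ℝ => (1 + t) * (μ + t)) 0 := by fun_prop
      have h2 : ContinuousAt (Real.logb 2) ((1 + (0 : ℝ)) * (μ + 0)) :=
        Real.continuousAt_logb (by rw [add_zero, add_zero, one_mul]; linarith)
      exact continuousAt_const.mul (ContinuousAt.comp (f := fun t : ℝ => (1 + t) * (μ + t)) h2 h1)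
    exact hc
  have h1 : FV φ (zS k) ≤ C * Real.logb 2 ((1 + 0) * (μ + 0)) := by
    refine ge_of_tendsto hlim ?_
    filter_upwards [self_mem_nhdsWithin] with t ht
    exact key (μ + t) (by linarith [Set.mem_Ioi.1 ht]) t ht
  rw [add_zero, add_zero, one_mul] at h1
  refine h1.trans (le_of_eq ?_)
  rw [Real.logb]
  ring

end Pool.Agent.Lib.MP_e3aa0a_gt.FLG
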