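import Pool.Agent.Lib.FVol.Fek
import Pool.Agent.Lib.MP_e3aa0a_gt.FVL.DefsFin72

/-!
# FLG, row F, second half: from `surf_fill` to the upper bound for the filling volume

`Φ` is an endomorphism of the free group with `Φ R = u R u⁻¹`, `φ` the induced endomorphism of
the surface group.  The iterates satisfy `Φ^n R = u_n R u_n⁻¹` with `u_n = Φ^(n-1) u ⋯ Φ u · u`,
so `surf_fill` applies to `Φ^n` with a length bound `K ν^n`, for every `ν > μ`.
-/

set_option autoImplicit false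

namespace Pool.Agent.Lib.MP_e3aa0a_gt.FLG

open Pool.Agent.Lib.FVol Filter Topology
open Pool.Agent.Lib.MP_e3aa0a_gt.FVL

/-- the length of an endomorphism of the free group -/
noncomputable def mlen66 {X : Type} [Fintype X] [DecidableEq X]
    (w : FreeGroup X →* FreeGroup X) : ℕ :=
  Finset.univ.sup fun x => (w (FreeGroup.of x)).norm

/-- `surf_fill` with the constant `C` -/
def SF66 (k : ℕ) (C : ℝ) : Prop :=
  ∀ (w : FreeGroup (Gen (k + 1)) →* FreeGroup (Gen (k + 1)))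
    (u : FreeGroup (Gen (k + 1))) (θ : SG (k + 1) →* SG (k + 1)) (L : ℕ),
    w (relW (k + 1)) = u * relW (k + 1) * u⁻¹ →
    (∀ x, θ (PresentedGroup.of x) = PresentedGroup.mk _ (w (FreeGroup.of x))) →
    (∀ x, (w (FreeGroup.of x)).norm ≤ L) → u.norm ≤ L →
    Fil (C * (1 + Real.logb 2 (1 + L))) (push θ (zS k) - zS k)

section free

variable {X : Type} [Fintype X] [DecidableEq X]

theorem norm_le_mlen66 (w : FreeGroup X →* FreeGroup X) (x : X) :
    (w (FreeGroup.of x)).norm ≤ mlen66 w :=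
  Finset.le_sup (f := fun x => (w (FreeGroup.of x)).norm) (Finset.mem_univ x)

theorem norm_map_mk66 (w : FreeGroup X →* FreeGroup X) (L : List (X × Bool)) :
    (w (FreeGroup.mk L)).norm ≤ L.length * mlen66 w := by
  induction L with
  | nil =>
    have : (FreeGroup.mk [] : FreeGroup X) = 1 := rfl
    rw [this, map_one, FreeGroup.norm_one]
    exact Nat.zero_le _
  | cons x L ih =>
    have h1 : (FreeGroup.mk (x :: L) : FreeGroup X) = FreeGroup.mk [x] * FreeGroup.mk L := by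
      rw [FreeGroup.mul_mk]
      rfl
    have h2 : (w (FreeGroup.mk [x])).norm ≤ mlen66 w := by
      rcases x with ⟨a, s⟩
      cases s
      · have : (FreeGroup.mk [(a, false)] : FreeGroup X) = (FreeGroup.of a)⁻¹ := rfl
        rw [this, map_inv, FreeGroup.norm_inv_eq]
        exact norm_le_mlen66 w a
      · exact norm_le_mlen66 w a
    rw [h1, map_mul, List.length_cons]
    have h3 := FreeGroup.norm_mul_le (w (FreeGroup.mk [x])) (w (FreeGroup.mk L))
    have h4 : (L.length + 1) * mlen66 w = L.length * mlen66 w + mlen66 w := by ring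
    omega

theorem norm_map66 (w : FreeGroup X →* FreeGroup X) (x : FreeGroup X) :
    (w x).norm ≤ x.norm * mlen66 w := by
  have h := norm_map_mk66 w x.toWord
  rw [FreeGroup.mk_toWord] at h
  exact h

/-- the conjugators of the iterates -/
def us66 (Φ : FreeGroup X →* FreeGroup X) (u : FreeGroup X) : ℕ → FreeGroup X
  | 0 => 1
  | n + 1 => hpow Φ n u * us66 Φ u n

omit [Fintype X] [DecidableEq X] in
theorem hpow_succ66 {G : Type*} [Group G] (Φ : G →* G) (n : ℕ) (x : G) :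
    hpow Φ (n + 1) x = hpow Φ n (Φ x) := by
  rw [hpow_add]
  rfl

omit [Fintype X] [DecidableEq X] in
theorem hpow_rel66 {Φ : FreeGroup X →* FreeGroup X} {u R : FreeGroup X}
    (h : Φ R = u * R * u⁻¹) : ∀ n, hpow Φ n R = us66 Φ u n * R * (us66 Φ u n)⁻¹
  | 0 => by
    show R = 1 * R * 1⁻¹
    group
  | n + 1 => by
    rw [hpow_succ66, h, map_mul, map_mul, hpow_rel66 h n, us66, map_inv]
    group

/-- geometric growth of the conjugators -/
theorem us_norm66 {Φ : FreeGroup X →* FreeGroup X} {u : FreeGroup X} {C ν : ℝ} (hν : 1 < ν)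
    (hC : 0 ≤ C) (h : ∀ n, (mlen66 (hpow Φ n) : ℝ) ≤ C * ν ^ n) :
    ∀ n, ((us66 Φ u n).norm : ℝ) ≤ u.norm * C / (ν - 1) * ν ^ n
  | 0 => by
    have : (us66 Φ u 0).norm = 0 := FreeGroup.norm_one
    rw [this, Nat.cast_zero]
    have h1 : 0 < ν - 1 := sub_pos.2 hν
    positivity
  | n + 1 => by
    have h0 : 0 < ν - 1 := sub_pos.2 hν
    have h1 := us_norm66 hν hC h n (u := u)
    have h2 : (us66 Φ u (n + 1)).norm ≤ u.norm * mlen66 (hpow Φ n) + (us66 Φ u n).norm :=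
      (FreeGroup.norm_mul_le _ _).trans (Nat.add_le_add_right (norm_map66 _ _) _)
    have h3 : ((us66 Φ u (n + 1)).norm : ℝ) ≤
        u.norm * mlen66 (hpow Φ n) + (us66 Φ u n).norm := by exact_mod_cast h2
    have h4 : (u.norm : ℝ) * mlen66 (hpow Φ n) ≤ u.norm * (C * ν ^ n) :=
      mul_le_mul_of_nonneg_left (h n) (Nat.cast_nonneg _)
    have h5 : (u.norm : ℝ) * C / (ν - 1) * ν ^ (n + 1) =
        u.norm * (C * ν ^ n) + u.norm * C / (ν - 1) * ν ^ n := by
      field_simp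
      ring
    rw [h5]
    linarith

end free

/-- the upper bound for one growth parameter -/
theorem upper_nu66 {k : ℕ} {C0 : ℝ} (hC0 : 0 < C0) (hS : SF66 k C0)
    {Φ : FreeGroup (Gen (k + 1)) →* FreeGroup (Gen (k + 1))} {u : FreeGroup (Gen (k + 1))}
    {φ : SG (k + 1) →* SG (k + 1)} (hΦ : Φ (relW (k + 1)) = u * relW (k + 1) * u⁻¹)
    (hφ : ∀ x, φ (PresentedGroup.mk _ x) = PresentedGroup.mk _ (Φ x)) {ν C : ℝ} (hν : 1 < ν)
    (h : ∀ n, (mlen66 (hpow Φ n) : ℝ) ≤ C * ν ^ n) :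
    IsB (push φ (zS k) - zS k) ∧ FV φ (zS k) ≤ C0 / Real.log 2 * Real.log ν := by
  have hC : 0 ≤ C := by
    have := h 0
    rw [pow_zero, mul_one] at this
    exact (Nat.cast_nonneg _).trans this
  have h0 : 0 < ν - 1 := sub_pos.2 hν
  -- the iterates are induced by the iterates
  have hit : ∀ n x, hpow φ n (PresentedGroup.mk {relW (k + 1)} x) =
      PresentedGroup.mk _ (hpow Φ n x) := by
    intro n
    induction n with
    | zero => intro x; rfl
    | succ n ih =>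
      intro x
      show φ (hpow φ n _) = PresentedGroup.mk _ (Φ (hpow Φ n x))
      rw [ih, hφ]
  obtain ⟨K, hK1, hKd⟩ : ∃ K : ℝ, 1 ≤ K ∧ ∀ n, (mlen66 (hpow Φ n) : ℝ) ≤ K * ν ^ n ∧
      ((us66 Φ u n).norm : ℝ) ≤ K * ν ^ n := by
    refine ⟨1 + C + u.norm * C / (ν - 1), ?_, fun n => ⟨?_, ?_⟩⟩
    · have : 0 ≤ (u.norm : ℝ) * C / (ν - 1) := by positivity
      linarith
    · have h1 : 0 ≤ (u.norm : ℝ) * C / (ν - 1) := by positivity
      have h2 : (0 : ℝ) < ν ^ n := by positivity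
      refine (h n).trans ?_
      exact mul_le_mul_of_nonneg_right (by linarith) h2.le
    · have h2 : (0 : ℝ) < ν ^ n := by positivity
      refine (us_norm66 hν hC h n).trans ?_
      exact mul_le_mul_of_nonneg_right (by linarith) h2.le
  have key : ∀ n : ℕ, Fil (C0 * (1 + Real.logb 2 (3 * K) + n * Real.logb 2 ν))
      (push (hpow φ n) (zS k) - zS k) := by
    intro n
    have hν0 : (0 : ℝ) < ν ^ n := by positivity
    have h1ν : (1 : ℝ) ≤ ν ^ n := one_le_pow₀ hν.le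
    have hKν : 1 ≤ K * ν ^ n := by nlinarith
    have h1 := hS (hpow Φ n) (us66 Φ u n) (hpow φ n) ⌈K * ν ^ n⌉₊ (hpow_rel66 hΦ n)
      (fun x => hit n (FreeGroup.of x))
      (fun x => by
        have h2 : ((mlen66 (hpow Φ n) : ℕ) : ℝ) ≤ ⌈K * ν ^ n⌉₊ :=
          (hKd n).1.trans (Nat.le_ceil _)
        exact (norm_le_mlen66 _ x).trans (by exact_mod_cast h2))
      (by
        have h2 : (((us66 Φ u n).norm : ℕ) : ℝ) ≤ ⌈K * ν ^ n⌉₊ :=
          (hKd n).2.trans (Nat.le_ceil _)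
        exact_mod_cast h2)
    refine h1.mono (mul_le_mul_of_nonneg_left ?_ hC0.le)
    have h3 : (1 : ℝ) + ⌈K * ν ^ n⌉₊ ≤ 3 * K * ν ^ n := by
      have := (Nat.ceil_lt_add_one (zero_le_one.trans hKν)).le
      nlinarith
    have h4 : Real.logb 2 (1 + (⌈K * ν ^ n⌉₊ : ℝ)) ≤ Real.logb 2 (3 * K * ν ^ n) :=
      Real.logb_le_logb_of_le (by norm_num) (by positivity) h3
    rw [Real.logb_mul (by positivity) (by positivity), Real.logb_pow] at h4
    linarith
  have hB : IsB (push φ (zS k) - zS k) := by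
    have h1 := Fil.isB16 (key 1)
    have e : hpow φ 1 = φ := by
      show φ.comp (MonoidHom.id _) = φ
      exact MonoidHom.comp_id φ
    rwa [e] at h1
  refine ⟨hB, ?_⟩
  by_contra hcon
  push Not at hcon
  obtain ⟨m, hm⟩ := exists_nat_gt
    (C0 * (1 + Real.logb 2 (3 * K)) / (FV φ (zS k) - C0 / Real.log 2 * Real.log ν))
  have hd : 0 < FV φ (zS k) - C0 / Real.log 2 * Real.log ν := sub_pos.2 hcon
  rw [div_lt_iff₀ hd] at hm
  have hK0 : 0 < 1 + Real.logb 2 (3 * K) := by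
    have : 0 ≤ Real.logb 2 (3 * K) := Real.logb_nonneg (by norm_num) (by linarith)
    linarith
  have hm0 : m ≠ 0 := by
    rintro rfl
    rw [Nat.cast_zero, zero_mul] at hm
    exact absurd hm (not_lt.2 (by positivity))
  have hm1 : (0 : ℝ) < m := by exact_mod_cast Nat.pos_of_ne_zero hm0
  have h1 := FV_le_div16 hB hm0
  have h2 := fill_le (key m)
  rw [le_div_iff₀ hm1] at h1
  have h3 : C0 * (1 + Real.logb 2 (3 * K) + m * Real.logb 2 ν) =
      C0 * (1 + Real.logb 2 (3 * K)) + m * (C0 / Real.log 2 * Real.log ν) := by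
    rw [Real.logb, Real.logb]
    ring
  rw [h3] at h2
  have h4 : (hfill (hpow φ m) (zS k) : ℝ) = (fill (push (hpow φ m) (zS k) - zS k) : ℝ) := rfl
  rw [h4] at h1
  nlinarith

/-- the upper bound for the growth rate `μ ≥ 1` -/
theorem upper_mu66 {k : ℕ} {C0 : ℝ} (hC0 : 0 < C0) (hS : SF66 k C0)
    {Φ : FreeGroup (Gen (k + 1)) →* FreeGroup (Gen (k + 1))} {u : FreeGroup (Gen (k + 1))}
    {φ : SG (k + 1) →* SG (k + 1)} (hΦ : Φ (relW (k + 1)) = u * relW (k + 1) * u⁻¹)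
    (hφ : ∀ x, φ (PresentedGroup.mk _ x) = PresentedGroup.mk _ (Φ x)) {μ : ℝ} (hμ : 1 ≤ μ)
    (h : ∀ ν, μ < ν → ∃ C : ℝ, ∀ n, (mlen66 (hpow Φ n) : ℝ) ≤ C * ν ^ n) :
    IsB (push φ (zS k) - zS k) ∧ FV φ (zS k) ≤ C0 / Real.log 2 * Real.log μ := by
  have h2 : 0 < Real.log 2 := Real.log_pos (by norm_num)
  have hμ0 : 0 < μ := zero_lt_one.trans_le hμ
  have key : ∀ ν, μ < ν → IsB (push φ (zS k) - zS k) ∧
      FV φ (zS k) ≤ C0 / Real.log 2 * Real.log ν := by
    intro ν hν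
    obtain ⟨C, hC⟩ := h ν hν
    exact upper_nu66 hC0 hS hΦ hφ (hμ.trans_lt hν) hC
  refine ⟨(key (μ + 1) (by linarith)).1, ?_⟩
  have hlim : Tendsto (fun ν : ℝ => C0 / Real.log 2 * Real.log ν) (𝓝[>] μ)
      (𝓝 (C0 / Real.log 2 * Real.log μ)) :=
    ((Real.continuousAt_log hμ0.ne').tendsto.mono_left nhdsWithin_le_nhds).const_mul _
  exact ge_of_tendsto hlim (eventually_nhdsWithin_of_forall fun ν hν => (key ν hν).2)

/-- exponential growth rate and geometric bounds -/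
theorem bound_of_tendsto66 {m : ℕ → ℕ} {μ : ℝ} (hμ : 0 < μ)
    (h : Tendsto (fun n : ℕ => Real.log (m n) / n) atTop (𝓝 (Real.log μ))) :
    ∀ ν, μ < ν → ∃ C : ℝ, ∀ n, (m n : ℝ) ≤ C * ν ^ n := by
  intro ν hν
  have hν0 : 0 < ν := hμ.trans hν
  have h1 : ∀ᶠ n : ℕ in atTop, Real.log (m n) / n < Real.log ν :=
    h.eventually_lt_const (Real.log_lt_log hμ hν)
  obtain ⟨N, hN⟩ := eventually_atTop.1 h1
  refine ⟨1 + ∑ j ∈ Finset.range (N + 1), (m j : ℝ) / ν ^ j, fun n => ?_⟩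
  have hs : 0 ≤ ∑ j ∈ Finset.range (N + 1), (m j : ℝ) / ν ^ j :=
    Finset.sum_nonneg fun j _ => by positivity
  have hνn : 0 < ν ^ n := by positivity
  rcases Nat.lt_or_ge n (N + 1) with hn | hn
  · have h2 : (m n : ℝ) / ν ^ n ≤ ∑ j ∈ Finset.range (N + 1), (m j : ℝ) / ν ^ j :=
      Finset.single_le_sum (f := fun j => (m j : ℝ) / ν ^ j) (fun j _ => by positivity)
        (Finset.mem_range.2 hn)
    rw [← div_le_iff₀ hνn]
    linarith
  · have hn0 : (0 : ℝ) < n := by exact_mod_cast (by omega : 0 < n)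
    have h2 := hN n (by omega)
    rw [div_lt_iff₀ hn0] at h2
    rcases Nat.eq_zero_or_pos (m n) with h0 | h0
    · rw [h0, Nat.cast_zero]
      positivity
    · have hm : (0 : ℝ) < m n := by exact_mod_cast h0
      have h3 : (m n : ℝ) ≤ ν ^ n := by
        rw [← Real.log_le_log_iff hm hνn, Real.log_pow, mul_comm]
        exact h2.le
      nlinarith

/-- **the upper bound** for the mapping classes of the surface with a marked point, from
`surf_fill` -/
theorem upper66 (k : ℕ) (hS : ∃ C : ℝ, 0 < C ∧ SF66 k C) : ∃ C : ℝ, 0 < C ∧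
    ∀ (Φ : FreeGroup (Gen (k + 1)) →* FreeGroup (Gen (k + 1)))
    (u : FreeGroup (Gen (k + 1))) (φ : SG (k + 1) →* SG (k + 1)) (μ : ℝ),
    Φ (relW (k + 1)) = u * relW (k + 1) * u⁻¹ →
    (∀ x, φ (PresentedGroup.mk _ x) = PresentedGroup.mk _ (Φ x)) → 1 ≤ μ →
    Tendsto (fun n : ℕ => Real.log (mlen66 (hpow Φ n)) / n) atTop (𝓝 (Real.log μ)) →
    IsB (push φ (zS k) - zS k) ∧ FV φ (zS k) ≤ C * Real.log μ := by
  obtain ⟨C0, hC0, hS⟩ := hS
  have h2 : 0 < Real.log 2 := Real.log_pos (by norm_num)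
  refine ⟨C0 / Real.log 2, by positivity, fun Φ u φ μ hΦ hφ hμ ht => ?_⟩
  exact upper_mu66 hC0 hS hΦ hφ hμ (bound_of_tendsto66 (zero_lt_one.trans_le hμ) ht)

end Pool.Agent.Lib.MP_e3aa0a_gt.FLG
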