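import Pool.Agent.Lib.MP_e3aa0a_gt.FLG.D83
import Pool.Agent.Lib.MP_e3aa0a_gt.FLG.E21c

/-!
# FLG: logarithmic filling in free groups (helper83)

Every 2-cycle of the bar complex of a free group with norm at most `k` and entries of word length at
most `L` is the boundary of a 3-chain of norm at most `C_k (1 + log_2 (1 + L))`.
-/

set_option autoImplicit false

namespace Pool.Agent.Lib.MP_e3aa0a_gt.FLG

open Pool.Agent.Lib.FVol

theorem cn_mono {m n : ℕ} (h : m ≤ n) : cn m ≤ cn n := by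
  refine monotone_nat_of_le_succ (fun n => ?_) h
  rw [show cn (n + 1) = (56 * ((n + 1 : ℕ) : ℝ) + 73) * (((n + 1 : ℕ) : ℝ) + 2) *
    (((n + 1 : ℕ) : ℝ) + 1) + 12 + cn n from rfl]
  have : 0 ≤ (56 * ((n + 1 : ℕ) : ℝ) + 73) * (((n + 1 : ℕ) : ℝ) + 2) *
    (((n + 1 : ℕ) : ℝ) + 1) := by positivity
  linarith

/-- **Logarithmic filling in free groups.** -/
theorem free_fill (k : ℕ) : ∃ C : ℝ, 0 < C ∧ ∀ (X : Type) [DecidableEq X] (c : C2 (FreeGroup X))
    (L : ℕ), bd2 (FreeGroup X) c = 0 → nrm c ≤ k →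
    (∀ p ∈ c.support, p.1.norm ≤ L ∧ p.2.norm ≤ L) → Fil (C * (1 + Real.logb 2 (1 + L))) c := by
  have hcn := cn_nonneg (3 * k)
  have hlk : 0 ≤ Real.logb 2 (1 + 3 * k) := Real.logb_nonneg (by norm_num) (by
    have : (0:ℝ) ≤ k := Nat.cast_nonneg _
    linarith)
  refine ⟨cn (3 * k) * (1 + Real.logb 2 (1 + 3 * k)) + 100 * (k + 1), by positivity, ?_⟩
  intro X _ c L hc hk hL
  obtain ⟨A, _, _, lab, blk, h1, h2, h3, h4, h5, h6⟩ := exists_scheme k L c hc hk hL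
  have htot : tot lab ≤ 3 * k * L := by
    show ∑ a, (lab a).norm ≤ 3 * k * L
    calc ∑ a, (lab a).norm ≤ ∑ _a : A, L := Finset.sum_le_sum fun a _ => h3 a
      _ = Fintype.card A * L := by rw [Finset.sum_const, smul_eq_mul, Finset.card_univ]
      _ ≤ 3 * k * L := Nat.mul_le_mul_right L h1
  have h7 := fil_scheme (Fintype.card A) A rfl lab blk h2 h4 h5 (3 * k * L) htot
  refine (h6.add h7).of_eq ?_ (by abel)
  have hl : 0 ≤ Real.logb 2 (1 + (L : ℝ)) := Real.logb_nonneg (by norm_num) (by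
    have : (0:ℝ) ≤ L := Nat.cast_nonneg _
    linarith)
  have hlog : Real.logb 2 (1 + ((3 * k * L : ℕ) : ℝ)) ≤
      Real.logb 2 (1 + 3 * k) + Real.logb 2 (1 + (L : ℝ)) := by
    have hk0 : (0:ℝ) ≤ k := Nat.cast_nonneg _
    have hL0 : (0:ℝ) ≤ L := Nat.cast_nonneg _
    rw [← Real.logb_mul (by positivity) (by positivity)]
    refine Real.logb_le_logb_of_le (by norm_num) (by positivity) ?_
    push_cast
    nlinarith
  have hl' : 0 ≤ Real.logb 2 (1 + ((3 * k * L : ℕ) : ℝ)) := Real.logb_nonneg (by norm_num) (by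
    have : (0:ℝ) ≤ ((3 * k * L : ℕ) : ℝ) := Nat.cast_nonneg _
    linarith)
  have hc1 : cn (Fintype.card A) ≤ cn (3 * k) := cn_mono h1
  have hk0 : (0:ℝ) ≤ k := Nat.cast_nonneg _
  generalize Real.logb 2 (1 + ((3 * k * L : ℕ) : ℝ)) = t at hlog hl' ⊢
  generalize Real.logb 2 (1 + (L : ℝ)) = l at hl hlog ⊢
  generalize Real.logb 2 (1 + 3 * (k : ℝ)) = q at hlk hlog ⊢
  have e1 : cn (Fintype.card A) * (1 + t) ≤ cn (3 * k) * (1 + (q + l)) :=
    mul_le_mul hc1 (by linarith) (by linarith) hcn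
  have e2 : 0 ≤ cn (3 * k) * q * l := mul_nonneg (mul_nonneg hcn hlk) hl
  have e3 : 0 ≤ (k : ℝ) * l := mul_nonneg hk0 hl
  nlinarith

end Pool.Agent.Lib.MP_e3aa0a_gt.FLG
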