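import Pool.Agent.Lib.FVol.Fek
import Pool.Agent.Lib.MP_e3aa0a_gt.FVL.DefsFin72

/-!
# FLG, row F, first half: from the free group to the surface group

If `w R = u R u⁻¹` in the free group, then `fan_w R - fan R + [u R u⁻¹|u] - [u|R]` is a 2-cycle of
bounded norm in the free group, and its image in the surface group is the difference of the
fundamental cycles up to `[1|u] - [u|1]`.
-/

set_option autoImplicit false

namespace Pool.Agent.Lib.MP_e3aa0a_gt.FLG

open Pool.Agent.Lib.FVol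
open Pool.Agent.Lib.MP_e3aa0a_gt.FVL
open Pool.Agent.Lib.MP_e3aa0a_gt.FVL.Fan21

section ent

variable {X : Type*} [DecidableEq X] {A : Type*}

/-- all entries have word length at most `L` -/
def Ent66 (L : ℕ) (c : C2 (FreeGroup X)) : Prop :=
  ∀ p ∈ c.support, p.1.norm ≤ L ∧ p.2.norm ≤ L

theorem Ent66.zero (L : ℕ) : Ent66 L (0 : C2 (FreeGroup X)) := by
  intro p hp
  simp at hp

theorem Ent66.add {L : ℕ} {c c' : C2 (FreeGroup X)} (h : Ent66 L c) (h' : Ent66 L c') :
    Ent66 L (c + c') := by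
  intro p hp
  rcases Finset.mem_union.1 (Finsupp.support_add hp) with h1 | h1
  · exact h p h1
  · exact h' p h1

theorem Ent66.neg {L : ℕ} {c : C2 (FreeGroup X)} (h : Ent66 L c) : Ent66 L (-c) := by
  intro p hp
  rw [Finsupp.support_neg] at hp
  exact h p hp

theorem Ent66.sub {L : ℕ} {c c' : C2 (FreeGroup X)} (h : Ent66 L c) (h' : Ent66 L c') :
    Ent66 L (c - c') := by
  rw [sub_eq_add_neg]
  exact h.add h'.neg

theorem ent_e2_66 {L : ℕ} {a b : FreeGroup X} (ha : a.norm ≤ L) (hb : b.norm ≤ L) :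
    Ent66 L (e2 a b) := by
  intro p hp
  have h := Finsupp.support_single_subset hp
  rw [Finset.mem_singleton] at h
  rw [h]
  exact ⟨ha, hb⟩

theorem norm_slab66 (u : A → FreeGroup X) (z : A × Bool) : (slab u z).norm = (u z.1).norm := by
  rcases z with ⟨a, s⟩
  cases s
  · simp [slab, FreeGroup.norm_inv_eq]
  · simp [slab]

theorem ent_kap66 {L : ℕ} (u : A → FreeGroup X) (z : A × Bool) (h : (u z.1).norm ≤ L) :
    Ent66 L (kap u z) := by
  rcases z with ⟨a, s⟩
  cases s
  · simp only [kap, Bool.false_eq_true, if_false]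
    refine (Ent66.add (ent_e2_66 h ?_) (ent_e2_66 ?_ ?_)).neg
    · rw [FreeGroup.norm_inv_eq]
      exact h
    · rw [FreeGroup.norm_one]
      exact Nat.zero_le _
    · rw [FreeGroup.norm_one]
      exact Nat.zero_le _
  · simp only [kap, if_true]
    exact Ent66.zero L

theorem ent_fan66 {L M : ℕ} (u : A → FreeGroup X) (hu : ∀ a, (u a).norm ≤ M) (hM : M ≤ L)
    (W : List (A × Bool)) : ∀ p : FreeGroup X, p.norm + W.length * M ≤ L →
      Ent66 L (fan u p W) := by
  induction W with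
  | nil => intro p _; exact Ent66.zero L
  | cons x W ih =>
    intro p hp
    rw [List.length_cons, add_mul, one_mul] at hp
    rw [fan_cons]
    refine Ent66.add (Ent66.add (ent_e2_66 (by omega) ?_) (ent_kap66 u x ?_)) (ih _ ?_)
    · rw [norm_slab66]
      exact (hu _).trans hM
    · exact (hu _).trans hM
    · have h1 := FreeGroup.norm_mul_le p (slab u x)
      have h2 := hu x.1
      rw [norm_slab66] at h1
      omega

theorem norm_wpr66 {M : ℕ} (u : A → FreeGroup X) (hu : ∀ a, (u a).norm ≤ M)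
    (W : List (A × Bool)) : (wpr u W).norm ≤ W.length * M := by
  induction W with
  | nil => simp
  | cons x W ih =>
    rw [wpr_cons, List.length_cons, add_mul, one_mul]
    have h1 := FreeGroup.norm_mul_le (slab u x) (wpr u W)
    rw [norm_slab66] at h1
    have h2 := hu x.1
    omega

end ent

theorem fil_pushH66 {Γ Δ : Type*} [Group Γ] [Group Δ] (f : Γ →* Δ) {r : ℝ} {c : C2 Γ}
    (h : Fil r c) : Fil r (pushH f c) := by
  obtain ⟨b, h1, h2⟩ := h
  refine ⟨push3H f b, by rw [bd_push3H, h1], ?_⟩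
  have h3 : (nrm (push3H f b) : ℝ) ≤ nrm b := by exact_mod_cast nrm_push3H_le f b
  exact h3.trans h2

/-- the relator as the value of the word `rel` -/
theorem wpr_relW66 (g : ℕ) :
    wpr (fun a : Gen g => FreeGroup.of a) (rel g) = relW g := by
  rw [wpr_rel, relW]
  congr 2

theorem wpr_map66 {g : ℕ} (w : FreeGroup (Gen g) →* FreeGroup (Gen g)) :
    wpr (fun a : Gen g => w (FreeGroup.of a)) (rel g) = w (relW g) := by
  rw [wpr_mapH w (fun a : Gen g => FreeGroup.of a), wpr_relW66]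

theorem mk_relW66 (g : ℕ) : PresentedGroup.mk ({relW g} : Set (FreeGroup (Gen g))) (relW g) = 1 :=
  (QuotientGroup.eq_one_iff _).2 (Subgroup.subset_normalClosure rfl)

/-- **Corollary U** from the logarithmic filling in free groups -/
theorem surf_fill66 (hF : ∀ k : ℕ, ∃ C : ℝ, 0 < C ∧ ∀ (X : Type) [DecidableEq X]
    (c : C2 (FreeGroup X)) (L : ℕ), bd2 (FreeGroup X) c = 0 → nrm c ≤ k →
    (∀ p ∈ c.support, p.1.norm ≤ L ∧ p.2.norm ≤ L) → Fil (C * (1 + Real.logb 2 (1 + L))) c)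
    (k : ℕ) : ∃ C : ℝ, 0 < C ∧ ∀ (w : FreeGroup (Gen (k + 1)) →* FreeGroup (Gen (k + 1)))
    (u : FreeGroup (Gen (k + 1))) (θ : SG (k + 1) →* SG (k + 1)) (L : ℕ),
    w (relW (k + 1)) = u * relW (k + 1) * u⁻¹ →
    (∀ x, θ (PresentedGroup.of x) = PresentedGroup.mk _ (w (FreeGroup.of x))) →
    (∀ x, (w (FreeGroup.of x)).norm ≤ L) → u.norm ≤ L →
    Fil (C * (1 + Real.logb 2 (1 + L))) (push θ (zS k) - zS k) := by
  obtain ⟨C, hC, hF⟩ := hF (24 * (k + 1) + 2)
  have hlog : 0 ≤ Real.logb 2 (4 * (k : ℝ) + 7) := by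
    have : (0 : ℝ) ≤ k := Nat.cast_nonneg k
    exact Real.logb_nonneg (by norm_num) (by linarith)
  refine ⟨C * (1 + Real.logb 2 (4 * (k : ℝ) + 7)) + 2, by positivity,
    fun w u θ L hw hθ hL hu => ?_⟩
  set R : FreeGroup (Gen (k + 1)) := relW (k + 1) with hR
  set c : C2 (FreeGroup (Gen (k + 1))) :=
    (zc (fun a => w (FreeGroup.of a)) - zc (fun a => FreeGroup.of a)) +
      (e2 (u * R * u⁻¹) u - e2 u R) with hc
  -- the chain is a cycle
  have h1 : bd2 (FreeGroup (Gen (k + 1))) c = 0 := by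
    rw [hc, map_add, map_sub, map_sub, zc, zc, bd2_fan, bd2_fan, ssum_rel, ssum_rel, bd2_e2,
      bd2_e2, wpr_map66, wpr_relW66, one_mul, one_mul, hw]
    have e1 : u * R * u⁻¹ * u = u * R := by group
    rw [e1]
    abel
  -- its norm
  have h2 : nrm c ≤ 24 * (k + 1) + 2 := by
    have hsub : ∀ a b : C2 (FreeGroup (Gen (k + 1))), nrm (a - b) ≤ nrm a + nrm b := by
      intro a b
      have := nrm_add_le a (-b)
      rwa [← sub_eq_add_neg, nrm_neg] at this
    have a6 : nrm (e2 (u * R * u⁻¹) u) = 1 := by rw [e2, nrm_single]; rfl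
    have a7 : nrm (e2 u R) = 1 := by rw [e2, nrm_single]; rfl
    have a8 : nrm (e2 (u * R * u⁻¹) u - e2 u R) ≤ 2 := by
      refine (hsub _ _).trans ?_
      rw [a6, a7]
    refine (nrm_add_le _ _).trans ?_
    have a9 := (hsub _ _).trans (Nat.add_le_add
      (nrm_zc_le (g := k + 1) (fun a => w (FreeGroup.of a)))
      (nrm_zc_le (g := k + 1) (fun a => FreeGroup.of a)))
    calc _ ≤ (12 * (k + 1) + 12 * (k + 1)) + 2 := Nat.add_le_add a9 a8
      _ = 24 * (k + 1) + 2 := by ring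
  -- the lengths of the entries
  have hRn : R.norm ≤ 4 * (k + 1) := by
    have := norm_wpr66 (M := 1) (fun a : Gen (k + 1) => FreeGroup.of a)
      (fun a => le_of_eq (FreeGroup.norm_of a)) (rel (k + 1))
    rw [wpr_relW66, length_rel, ← hR] at this
    omega
  have h3 : ∀ p ∈ c.support, p.1.norm ≤ (4 * k + 6) * (L + 1) ∧
      p.2.norm ≤ (4 * k + 6) * (L + 1) := by
    have e1 : (4 * k + 6) * (L + 1) = 4 * (k + 1) * L + 2 * L + 4 * k + 6 := by ring
    have hLL : 0 ≤ 4 * (k + 1) * L := Nat.zero_le _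
    have b1 : Ent66 ((4 * k + 6) * (L + 1)) (zc (fun a => w (FreeGroup.of a))) := by
      refine ent_fan66 _ hL (by omega) _ _ ?_
      rw [length_rel, FreeGroup.norm_one]
      omega
    have b2 : Ent66 ((4 * k + 6) * (L + 1)) (zc (fun a : Gen (k + 1) => FreeGroup.of a)) := by
      refine ent_fan66 (M := 1) _ (fun a => le_of_eq (FreeGroup.norm_of a)) (by omega) _ _ ?_
      rw [length_rel, FreeGroup.norm_one]
      omega
    have b3 : (u * R * u⁻¹).norm ≤ (4 * k + 6) * (L + 1) := by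
      have c1 := FreeGroup.norm_mul_le (u * R) u⁻¹
      have c2 := FreeGroup.norm_mul_le u R
      rw [FreeGroup.norm_inv_eq] at c1
      omega
    exact (b1.sub b2).add ((ent_e2_66 b3 (by omega)).sub (ent_e2_66 (by omega) (by omega)))
  -- the filling in the free group
  have h4 := fil_pushH66 (PresentedGroup.mk ({relW (k + 1)} : Set (FreeGroup (Gen (k + 1)))))
    (hF (Gen (k + 1)) c ((4 * k + 6) * (L + 1)) h1 h2 h3)
  have h5 := fil_tt_one (PresentedGroup.mk ({relW (k + 1)} : Set (FreeGroup (Gen (k + 1)))) u)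
  refine (h4.sub h5).of_eq ?_ ?_
  · have c1 : (1 : ℝ) + (((4 * k + 6) * (L + 1) : ℕ) : ℝ) ≤ (4 * (k : ℝ) + 7) * (1 + L) := by
      have : (0 : ℝ) ≤ L := Nat.cast_nonneg L
      push_cast
      nlinarith
    have c2 : Real.logb 2 (1 + (((4 * k + 6) * (L + 1) : ℕ) : ℝ)) ≤
        Real.logb 2 ((4 * (k : ℝ) + 7) * (1 + L)) :=
      Real.logb_le_logb_of_le (by norm_num) (by positivity) c1
    rw [Real.logb_mul (by positivity) (by positivity)] at c2
    have c3 : 0 ≤ Real.logb 2 (1 + (L : ℝ)) :=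
      Real.logb_nonneg (by norm_num) (by have : (0 : ℝ) ≤ L := Nat.cast_nonneg L; linarith)
    have c4 : C * (1 + Real.logb 2 (1 + (((4 * k + 6) * (L + 1) : ℕ) : ℝ))) ≤
        C * (1 + (Real.logb 2 (4 * (k : ℝ) + 7) + Real.logb 2 (1 + (L : ℝ)))) :=
      mul_le_mul_of_nonneg_left (by linarith) hC.le
    have c5 : 0 ≤ C * (Real.logb 2 (4 * (k : ℝ) + 7) * Real.logb 2 (1 + (L : ℝ))) := by
      positivity
    nlinarith
  · have e1 : push θ (zS k) = zc (fun a => PresentedGroup.mk _ (w (FreeGroup.of a))) := by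
      rw [zS, push_zc]
      congr 1
      funext a
      exact hθ a
    have e2' : zS k = zc (fun a => PresentedGroup.mk _ (FreeGroup.of a)) := rfl
    rw [e1, e2', hc, pushH_add, pushH_sub, pushH_sub, pushH_zc, pushH_zc, pushH_e2, pushH_e2,
      ← hw, tt]
    have e3 : PresentedGroup.mk ({relW (k + 1)} : Set (FreeGroup (Gen (k + 1)))) R = 1 :=
      mk_relW66 (k + 1)
    have e4 : PresentedGroup.mk ({relW (k + 1)} : Set (FreeGroup (Gen (k + 1)))) (w R) = 1 := by
      rw [hw, map_mul, map_mul, e3, mul_one, map_inv, mul_inv_cancel]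
    rw [e3, e4]
    abel

end Pool.Agent.Lib.MP_e3aa0a_gt.FLG
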